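import Mathlib
import Pool.Agent.Lib.MP_daa227_pr_OT.Defs

/-!
# Pinning: the quenched transition is of order larger than two. Definitions.
-/

namespace Pool.Agent.OTP

open MeasureTheory ProbabilityTheory Finset Filter
open MP_daa227_pr (Chain Zk Zf K0 shift seqLaw ExpMom)
open Pool.Agent.OT (Kp Km en tr pE)

noncomputable section

/-! ### Renewal partition function -/

/-- constrained partition function of a renewal pinned at the sites `1, 2, ...`; `θ k` is the energy
of the site `k + 1` -/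
def Zp (K : ℕ → ℝ) : ℕ → (ℕ → ℝ) → ℝ
  | 0, _ => 1
  | n + 1, θ => ∑ k : Fin (n + 1),
      K (k + 1) * Real.exp (θ k) * Zp K (n - k) (shift (k + 1) θ)
termination_by n => n
decreasing_by omega

/-- weight of the configurations containing the site `j` -/
def Zin (K : ℕ → ℝ) (n j : ℕ) (θ : ℕ → ℝ) : ℝ := Zp K j θ * Zp K (n - j) (shift j θ)

/-- weight of the configurations which do not contain the site `j` -/
def Zout (K : ℕ → ℝ) (n j : ℕ) (θ : ℕ → ℝ) : ℝ :=
  ∑ x ∈ range j, ∑ y ∈ Ioc j n, Zp K x θ * (K (y - x) * Real.exp (θ (y - 1))) *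
    Zp K (n - y) (shift y θ)

/-- probability of the site `j` -/
def prp (K : ℕ → ℝ) (n j : ℕ) (θ : ℕ → ℝ) : ℝ := Zin K n j θ / Zp K n θ

/-- properties of the kernel: positive, nonincreasing, log-convex, total mass one, at least
polynomially large -/
structure KerP (K : ℕ → ℝ) : Prop where
  zero : K 0 = 0
  pos : ∀ k, 1 ≤ k → 0 < K k
  anti : ∀ k, 1 ≤ k → K (k + 1) ≤ K k
  conv : ∀ i a b, 1 ≤ i → K (i + a) * K (i + b) ≤ K i * K (i + a + b)
  sum_one : HasSum K 1
  low : ∃ c e : ℝ, 0 < c ∧ 0 ≤ e ∧ ∀ k : ℕ, 1 ≤ k → c * (k : ℝ) ^ (-e) ≤ K k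

/-! ### Configurations -/

/-- weight of a configuration of `n` sites, the last site before them being `g` steps back; the last
of the `n` sites has to be occupied -/
def wB (K : ℕ → ℝ) : (n : ℕ) → ℕ → (Fin n → Bool) → ℝ
  | 0, g, _ => if g = 0 then 1 else 0
  | n + 1, g, s => if s 0 then K (g + 1) * wB K n 0 (fun i => s i.succ)
      else wB K n (g + 1) (fun i => s i.succ)

/-- spins -/
def spB (n : ℕ) (s : Fin n → Bool) (i : Fin n) : ℝ := if s i then 1 else 0

/-! ### Quenched averages for i.i.d. charges -/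

/-- quenched average of the logarithm of the constrained partition function -/
def LP (K : ℕ → ℝ) (μ : Measure ℝ) (β h : ℝ) (n : ℕ) : ℝ :=
  ∫ ω, Real.log (Zp K n (en β h ω)) ∂seqLaw μ

/-- mean number of occupied sites -/
def MP (K : ℕ → ℝ) (μ : Measure ℝ) (β h : ℝ) (n : ℕ) : ℝ :=
  ∫ ω, ∑ i, pE (wB K n 0) (spB n) (tr n (en β h ω)) i ∂seqLaw μ

/-- overlap -/
def RP (K : ℕ → ℝ) (μ : Measure ℝ) (β h : ℝ) (n : ℕ) : ℝ :=
  ∫ ω, ∑ i, pE (wB K n 0) (spB n) (tr n (en β h ω)) i ^ 2 ∂seqLaw μ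

/-! ### The chain -/

/-- law of half the first return time -/
def Kr (C : Chain) (k : ℕ) : ℝ := Kp C k + Km C k

/-- site weights of the pinning model -/
def Wpin (β h : ℝ) : ℝ → ℤ → ℝ := fun a z => Real.exp ((β * a - h) * (if z = 0 then 1 else 0))

/-- the charges seen at the possible return times -/
def od (ω : ℕ → ℝ) : ℕ → ℝ := fun i => ω (2 * i + 1)

end

end Pool.Agent.OTP
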