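import Mathlib
import Pool.Agent.Lib.MP_daa227_pr_OTP.Defs
import Pool.Agent.Lib.MP_daa227_pr_OT.Dec

/-!
# Decompositions of the constrained partition function of the pinning model
-/

namespace Pool.Agent.OTP

open MeasureTheory ProbabilityTheory Finset Filter Topology
open MP_daa227_pr (Chain Zk Zf K0 shift seqLaw ExpMom)
open Pool.Agent.OT (Kp Km en tr ZE AE pE cE EFam gP LE ME RE dy ins lmg)

noncomputable section

namespace D

theorem Zp_zero (K : ℕ → ℝ) (θ : ℕ → ℝ) : Zp K 0 θ = 1 := by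
  rw [Zp]

theorem Zp_succ (K : ℕ → ℝ) (n : ℕ) (θ : ℕ → ℝ) : Zp K (n + 1) θ =
    ∑ k ∈ range (n + 1), K (k + 1) * Real.exp (θ k) * Zp K (n - k) (shift (k + 1) θ) := by
  rw [Zp, Fin.sum_univ_eq_sum_range
    (fun k => K (k + 1) * Real.exp (θ k) * Zp K (n - k) (shift (k + 1) θ))]

/-- first site decomposition seen from the site `x` -/
theorem Zp_rec (K : ℕ → ℝ) (θ : ℕ → ℝ) (x y : ℕ) (hxy : x < y) :
    Zp K (y - x) (shift x θ) = ∑ z ∈ Ioc x y, (K (z - x) * Real.exp (θ (z - 1))) *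
      Zp K (y - z) (shift z θ) := by
  obtain ⟨m, rfl⟩ : ∃ m, y = x + (m + 1) := ⟨y - x - 1, by omega⟩
  rw [Nat.add_sub_cancel_left, Zp_succ]
  have hI : Ioc x (x + (m + 1)) = Ico (x + 1) (x + 1 + (m + 1)) := by
    ext z; simp only [mem_Ioc, mem_Ico]; omega
  rw [hI, sum_Ico_eq_sum_range, Nat.add_sub_cancel_left]
  refine sum_congr rfl fun k hk => ?_
  rw [mem_range] at hk
  rw [MP_daa227_pr.shift_shift, MP_daa227_pr.shift_apply]
  have e1 : x + 1 + k - x = k + 1 := by omega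
  have e2 : x + (m + 1) - (x + 1 + k) = m - k := by omega
  have e3 : k + 1 + x = x + 1 + k := by ring
  have e4 : k + x = x + 1 + k - 1 := by omega
  rw [e1, e2, e3, e4]

/-- decomposition at an intermediate site -/
theorem Zp_mid (K : ℕ → ℝ) {n j : ℕ} (hj : j ≤ n) (θ : ℕ → ℝ) :
    Zp K n θ = Zp K j θ * Zp K (n - j) (shift j θ) +
      ∑ x ∈ range j, ∑ y ∈ Ioc j n, Zp K x θ * (K (y - x) * Real.exp (θ (y - 1))) *
        Zp K (n - y) (shift y θ) := by
  have h := OT.D.split_abs (P := fun x y => Zp K (y - x) (shift x θ))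
    (G := fun x y => K (y - x) * Real.exp (θ (y - 1)))
    (fun x => by simp only [Nat.sub_self]; exact Zp_zero K _)
    (fun x y hxy => Zp_rec K θ x y hxy) j n hj j 0 (by omega)
  simpa only [Nat.sub_zero, MP_daa227_pr.shift_zero, Nat.Ico_zero_eq_range] using h

end D

theorem Zp_pos {K : ℕ → ℝ} (hK : KerP K) (n : ℕ) (θ : ℕ → ℝ) : 0 < Zp K n θ := by
  induction n using Nat.strong_induction_on generalizing θ with
  | _ n ih =>
    cases n with
    | zero => rw [D.Zp_zero]; exact one_pos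
    | succ n =>
      rw [D.Zp_succ]
      refine sum_pos (fun k hk => ?_) ⟨0, mem_range.mpr (Nat.succ_pos _)⟩
      exact mul_pos (mul_pos (hK.pos _ (by omega)) (Real.exp_pos _)) (ih _ (by omega) _)

theorem Zp_congr (K : ℕ → ℝ) (n : ℕ) {θ θ' : ℕ → ℝ} (h : ∀ i < n, θ i = θ' i) :
    Zp K n θ = Zp K n θ' := by
  induction n using Nat.strong_induction_on generalizing θ θ' with
  | _ n ih =>
    cases n with
    | zero => rw [D.Zp_zero, D.Zp_zero]
    | succ n =>
      rw [D.Zp_succ, D.Zp_succ]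
      refine sum_congr rfl fun k hk => ?_
      rw [mem_range] at hk
      rw [h k hk, ih (n - k) (by omega) (θ := shift (k + 1) θ) (θ' := shift (k + 1) θ')
          (fun i hi => h _ (by omega))]

/-- decomposition according to the last site before the end -/
theorem Zp_last (K : ℕ → ℝ) (n : ℕ) (θ : ℕ → ℝ) :
    Zp K (n + 1) θ = ∑ x ∈ range (n + 1), Zp K x θ * (K (n + 1 - x) * Real.exp (θ n)) := by
  have h := OT.D.last_abs (P := fun x y => Zp K (y - x) (shift x θ))
    (G := fun x y => K (y - x) * Real.exp (θ (y - 1)))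
    (fun x => by simp only [Nat.sub_self]; exact D.Zp_zero K _)
    (fun x y hxy => D.Zp_rec K θ x y hxy) (n + 1) 0 (n + 1) (by omega) (Nat.succ_pos _)
  simpa only [Nat.sub_zero, MP_daa227_pr.shift_zero, Nat.Ico_zero_eq_range,
    Nat.add_sub_cancel] using h

theorem Zp_split {K : ℕ → ℝ} {n j : ℕ} (hj1 : 1 ≤ j) (hj : j ≤ n) (θ : ℕ → ℝ) :
    Zp K n θ = Zout K n j θ + Zin K n j θ := by
  rw [D.Zp_mid K hj θ]
  unfold Zout Zin
  rw [add_comm]

/-- decomposition according to the gap which crosses the bond `(j, j + 1)` -/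
theorem Zp_cross (K : ℕ → ℝ) {n j : ℕ} (hj : j < n) (θ : ℕ → ℝ) :
    Zp K n θ = ∑ x ∈ range (j + 1), ∑ y ∈ Ioc j n,
      Zp K x θ * (K (y - x) * Real.exp (θ (y - 1))) * Zp K (n - y) (shift y θ) := by
  rw [D.Zp_mid K hj.le θ, sum_range_succ, add_comm, D.Zp_rec K θ j n hj, mul_sum]
  congr 1
  exact sum_congr rfl fun y _ => by ring

theorem Zp_mul_le {K : ℕ → ℝ} (hK : KerP K) (m n : ℕ) (θ : ℕ → ℝ) :
    Zp K m θ * Zp K n (shift m θ) ≤ Zp K (m + n) θ := by
  rw [D.Zp_mid K (Nat.le_add_right m n) θ, Nat.add_sub_cancel_left]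
  refine le_add_of_nonneg_right (sum_nonneg fun x hx => sum_nonneg fun y hy => ?_)
  rw [mem_range] at hx
  rw [mem_Ioc] at hy
  exact (mul_pos (mul_pos (Zp_pos hK _ _) (mul_pos (hK.pos _ (by omega)) (Real.exp_pos _)))
    (Zp_pos hK _ _)).le

theorem K_le_Zp {K : ℕ → ℝ} (hK : KerP K) {n : ℕ} (hn : 1 ≤ n) (θ : ℕ → ℝ) :
    K n * Real.exp (θ (n - 1)) ≤ Zp K n θ := by
  obtain ⟨m, rfl⟩ : ∃ m, n = m + 1 := ⟨n - 1, by omega⟩
  rw [Zp_last, Nat.add_sub_cancel]
  have h := single_le_sum (f := fun x => Zp K x θ * (K (m + 1 - x) * Real.exp (θ m)))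
    (fun x hx => (mul_pos (Zp_pos hK x θ) (mul_pos (hK.pos _ (by
      rw [mem_range] at hx; omega)) (Real.exp_pos _))).le)
    (mem_range.mpr (Nat.succ_pos m))
  simpa only [D.Zp_zero, one_mul, Nat.sub_zero] using h

theorem Zp_mono {K : ℕ → ℝ} (hK : KerP K) (n : ℕ) {θ θ' : ℕ → ℝ} (h : ∀ i < n, θ i ≤ θ' i) :
    Zp K n θ ≤ Zp K n θ' := by
  induction n using Nat.strong_induction_on generalizing θ θ' with
  | _ n ih =>
    cases n with
    | zero => rw [D.Zp_zero, D.Zp_zero]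
    | succ n =>
      rw [D.Zp_succ, D.Zp_succ]
      refine sum_le_sum fun k hk => ?_
      rw [mem_range] at hk
      refine mul_le_mul (mul_le_mul_of_nonneg_left (Real.exp_le_exp.mpr (h k hk))
        (hK.pos _ (by omega)).le) (ih (n - k) (by omega) (fun i hi => h _ (by omega)))
        (Zp_pos hK _ _).le (mul_pos (hK.pos _ (by omega)) (Real.exp_pos _)).le

/-- at most `n` sites are occupied -/
theorem Zp_add_le {K : ℕ → ℝ} (hK : KerP K) (n : ℕ) (θ : ℕ → ℝ) {c : ℝ} (hc : 0 ≤ c) :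
    Zp K n (fun i => θ i + c) ≤ Real.exp (n * c) * Zp K n θ := by
  induction n using Nat.strong_induction_on generalizing θ with
  | _ n ih =>
    cases n with
    | zero => rw [D.Zp_zero, D.Zp_zero]; simp
    | succ n =>
      rw [D.Zp_succ, D.Zp_succ, mul_sum]
      refine sum_le_sum fun k hk => ?_
      rw [mem_range] at hk
      have e : shift (k + 1) (fun i => θ i + c) = fun i => shift (k + 1) θ i + c := by
        funext i
        rw [MP_daa227_pr.shift_apply, MP_daa227_pr.shift_apply]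
      rw [e]
      have h1 := ih (n - k) (by omega) (shift (k + 1) θ)
      have h2 : Real.exp (((n - k : ℕ) : ℝ) * c) ≤ Real.exp ((n : ℝ) * c) := by
        refine Real.exp_le_exp.mpr (mul_le_mul_of_nonneg_right ?_ hc)
        exact_mod_cast Nat.sub_le n k
      have hKp := hK.pos (k + 1) (by omega)
      have hz := Zp_pos hK (n - k) (shift (k + 1) θ)
      have h3 : Real.exp (((n + 1 : ℕ) : ℝ) * c) = Real.exp ((n : ℝ) * c) * Real.exp c := by
        rw [← Real.exp_add]; congr 1; push_cast; ring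
      rw [h3, Real.exp_add]
      calc K (k + 1) * (Real.exp (θ k) * Real.exp c) * Zp K (n - k) (fun i => shift (k + 1) θ i + c)
          ≤ K (k + 1) * (Real.exp (θ k) * Real.exp c) *
            (Real.exp ((n : ℝ) * c) * Zp K (n - k) (shift (k + 1) θ)) := by
            refine mul_le_mul_of_nonneg_left (h1.trans ?_) (by positivity)
            exact mul_le_mul_of_nonneg_right h2 hz.le
        _ = Real.exp ((n : ℝ) * c) * Real.exp c *
            (K (k + 1) * Real.exp (θ k) * Zp K (n - k) (shift (k + 1) θ)) := by ring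

theorem Zout_indep {K : ℕ → ℝ} {n j : ℕ} (hj1 : 1 ≤ j) (hj : j ≤ n) {θ θ' : ℕ → ℝ}
    (h : ∀ i, i ≠ j - 1 → θ i = θ' i) : Zout K n j θ = Zout K n j θ' := by
  unfold Zout
  refine sum_congr rfl fun x hx => sum_congr rfl fun y hy => ?_
  rw [mem_range] at hx
  rw [mem_Ioc] at hy
  rw [Zp_congr K x (fun i hi => h i (by omega)), h (y - 1) (by omega),
    Zp_congr K (n - y) (θ := shift y θ) (θ' := shift y θ')
      (fun i hi => h _ (by omega))]

theorem Zin_indep {K : ℕ → ℝ} {n j : ℕ} (hj1 : 1 ≤ j) (hj : j ≤ n) {θ θ' : ℕ → ℝ}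
    (h : ∀ i, i ≠ j - 1 → θ i = θ' i) :
    Zin K n j θ * Real.exp (-θ (j - 1)) = Zin K n j θ' * Real.exp (-θ' (j - 1)) := by
  have key : Zp K j θ * Real.exp (-θ (j - 1)) = Zp K j θ' * Real.exp (-θ' (j - 1)) := by
    obtain ⟨m, rfl⟩ : ∃ m, j = m + 1 := ⟨j - 1, by omega⟩
    rw [Zp_last, Zp_last, sum_mul, sum_mul, Nat.add_sub_cancel]
    refine sum_congr rfl fun x hx => ?_
    rw [mem_range] at hx
    rw [Zp_congr K x (fun i hi => h i (by omega))]
    have e2 : Real.exp (θ m) * Real.exp (-θ m) = 1 := by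
      rw [← Real.exp_add, add_neg_cancel, Real.exp_zero]
    have e3 : Real.exp (θ' m) * Real.exp (-θ' m) = 1 := by
      rw [← Real.exp_add, add_neg_cancel, Real.exp_zero]
    linear_combination (Zp K x θ' * K (m + 1 - x)) * e2 - (Zp K x θ' * K (m + 1 - x)) * e3
  unfold Zin
  rw [Zp_congr K (n - j) (θ := shift j θ) (θ' := shift j θ') (fun i hi => h _ (by omega))]
  linear_combination (Zp K (n - j) (shift j θ')) * key

theorem Zin_pos {K : ℕ → ℝ} (hK : KerP K) (n j : ℕ) (θ : ℕ → ℝ) : 0 < Zin K n j θ :=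
  mul_pos (Zp_pos hK _ _) (Zp_pos hK _ _)

theorem Zout_pos {K : ℕ → ℝ} (hK : KerP K) {n j : ℕ} (hj1 : 1 ≤ j) (hj : j < n)
    (θ : ℕ → ℝ) : 0 < Zout K n j θ := by
  unfold Zout
  refine sum_pos (fun x hx => sum_pos (fun y hy => ?_) ⟨n, mem_Ioc.mpr ⟨hj, le_rfl⟩⟩)
    ⟨0, mem_range.mpr hj1⟩
  rw [mem_range] at hx
  rw [mem_Ioc] at hy
  exact mul_pos (mul_pos (Zp_pos hK _ _) (mul_pos (hK.pos _ (by omega)) (Real.exp_pos _)))
    (Zp_pos hK _ _)

end

end Pool.Agent.OTP
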