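import Mathlib
import Pool.Agent.Lib.MP_daa227_pr_OTP.Defs
import Pool.Agent.Lib.MP_daa227_pr_OTP.Dec
import Pool.Agent.Lib.MP_daa227_pr_OT.Sup
import Pool.Agent.Lib.MP_daa227_pr.Mom

/-!
# Pinning: superadditivity and the free energy
-/

namespace Pool.Agent.OTP

open MeasureTheory ProbabilityTheory Finset Filter Topology
open MP_daa227_pr (Chain Zk Zf K0 shift seqLaw ExpMom)
open Pool.Agent.OT (Kp Km en tr ZE AE pE cE EFam gP LE ME RE dy ins lmg)

noncomputable section

namespace H1

open MP_daa227_pr (Good)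
open Pool.Agent.OT.SupAux (good_exp good_en mab mab_nonneg integral_coord integrable_abs_coord
  integrable_coord shift_en log_low)

lemma K_nonneg {K : ℕ → ℝ} (hK : KerP K) (k : ℕ) : 0 ≤ K k := by
  rcases Nat.eq_zero_or_pos k with h | h
  · rw [h, hK.zero]
  · exact (hK.pos k h).le

/-- the renewal partition function is a good function of the energies -/
lemma good_Zp {K : ℕ → ℝ} (hK : KerP K) (n : ℕ) : Good n 1 (fun θ => Zp K n θ) := by
  induction n using Nat.strong_induction_on with
  | _ n ih =>
    rcases n with _ | n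
    · refine (Good.const (k := 0) (κ := 1) zero_le_one (c := 1) zero_le_one).congr fun θ => ?_
      rw [D.Zp_zero]
    · have h1 : ∀ k ∈ range (n + 1), Good (n + 1) 1
          (fun θ => K (k + 1) * Real.exp (θ k) * Zp K (n - k) (shift (k + 1) θ)) := by
        intro k hk
        rw [mem_range] at hk
        have h0 : Good (k + 1) 1 (fun θ : ℕ → ℝ => K (k + 1) * Real.exp (θ k)) := by
          have h3 : Good (k + 1) 1 (fun θ : ℕ → ℝ => Real.exp (∑ i ∈ {k}, θ i)) := by
            apply good_exp
            intro i hi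
            rw [Finset.mem_singleton] at hi
            rw [Finset.mem_range]
            omega
          refine (h3.const_mul (K_nonneg hK (k + 1))).congr fun θ => ?_
          rw [Finset.sum_singleton]
        have h2 := h0.mul_shift (ih (n - k) (by omega))
        rwa [show k + 1 + (n - k) = n + 1 by omega] at h2
      refine (Good.sum zero_le_one (range (n + 1)) h1).congr fun θ => ?_
      rw [D.Zp_succ]

/-- the partition function is a good function of the charges -/
lemma good_Zen {K : ℕ → ℝ} (hK : KerP K) (β h : ℝ) (n : ℕ) :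
    Good n |β| (fun ω => Zp K n (en β h ω)) := good_en (good_Zp hK n) β h

lemma sum_le_one {K : ℕ → ℝ} (hK : KerP K) (n : ℕ) : ∑ k ∈ range n, K (k + 1) ≤ 1 := by
  have h1 : ∑ k ∈ range (n + 1), K k ≤ 1 :=
    sum_le_hasSum _ (fun i _ => K_nonneg hK i) hK.sum_one
  rw [Finset.sum_range_succ', hK.zero] at h1
  linarith

lemma Zp_zero_le {K : ℕ → ℝ} (hK : KerP K) (n : ℕ) : Zp K n (fun _ => 0) ≤ 1 := by
  induction n using Nat.strong_induction_on with
  | _ n ih =>
    rcases n with _ | n
    · rw [D.Zp_zero]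
    · rw [D.Zp_succ]
      refine le_trans (sum_le_sum (g := fun k => K (k + 1)) fun k hk => ?_) (sum_le_one hK (n + 1))
      have h3 : shift (k + 1) (fun _ => (0 : ℝ)) = fun _ => 0 := rfl
      rw [h3, Real.exp_zero, mul_one]
      have h4 := ih (n - k) (by omega)
      have h5 := K_nonneg hK (k + 1)
      nlinarith

lemma Zp_le {K : ℕ → ℝ} (hK : KerP K) (n : ℕ) (θ : ℕ → ℝ) :
    Zp K n θ ≤ Real.exp (∑ i ∈ range n, |θ i|) := by
  have h1 := (good_Zp hK n).ratio θ (fun _ => 0)
  simp only [sub_zero, one_mul] at h1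
  refine h1.trans ?_
  have h2 := Zp_zero_le hK n
  have h3 := Real.exp_pos (∑ i ∈ range n, |θ i|)
  nlinarith

end H1

open H1

theorem integrable_logZp {K : ℕ → ℝ} (hK : KerP K) (μ : Measure ℝ) [IsProbabilityMeasure μ]
    (hμ : ExpMom μ) (β h : ℝ) (n : ℕ) :
    Integrable (fun ω => Real.log (Zp K n (en β h ω))) (seqLaw μ) :=
  (good_Zen hK β h n).integrable_log hμ fun _ => Zp_pos hK n _

namespace H1

open MP_daa227_pr (Good)
open Pool.Agent.OT.SupAux (good_exp good_en mab mab_nonneg integral_coord integrable_abs_coord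
  integrable_coord shift_en log_low)

variable {K : ℕ → ℝ} (μ : Measure ℝ) [IsProbabilityMeasure μ]

/-- lower bound from one excursion -/
lemma LP_lower (hK : KerP K) (hμ : ExpMom μ) (β h : ℝ) {n : ℕ} (hn : 1 ≤ n) :
    Real.log (K n) - |h| - mab μ β ≤ ∫ ω, Real.log (Zp K n (en β h ω)) ∂seqLaw μ := by
  have h1 : ∀ ω : ℕ → ℝ, Real.log (K n) - |h| - |β| * |ω (n - 1)| ≤
      Real.log (Zp K n (en β h ω)) := by
    intro ω
    have h2 := Real.log_le_log (mul_pos (hK.pos n hn) (Real.exp_pos _))
      (K_le_Zp hK hn (en β h ω))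
    rw [Real.log_mul (hK.pos n hn).ne' (Real.exp_pos _).ne', Real.log_exp] at h2
    refine le_trans ?_ h2
    unfold en
    have h3 : -(|β| * |ω (n - 1)|) ≤ β * ω (n - 1) := by
      rw [← abs_mul]
      exact neg_abs_le _
    have h4 := le_abs_self h
    linarith
  have h5 : Integrable (fun ω : ℕ → ℝ => Real.log (K n) - |h| - |β| * |ω (n - 1)|)
      (seqLaw μ) :=
    (integrable_const _).sub ((integrable_abs_coord μ hμ _).const_mul _)
  have h6 := integral_mono h5 (integrable_logZp hK μ hμ β h n) h1
  rw [integral_sub (integrable_const _) ((integrable_abs_coord μ hμ _).const_mul _),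
    integral_const_mul, integral_coord μ (Y := fun x => |x|) (by fun_prop)] at h6
  simpa [mab] using h6

/-- upper bound -/
lemma LP_upper (hK : KerP K) (hμ : ExpMom μ) (β h : ℝ) (n : ℕ) :
    ∫ ω, Real.log (Zp K n (en β h ω)) ∂seqLaw μ ≤ n * (mab μ β + |h|) := by
  have h1 : ∀ ω : ℕ → ℝ, Real.log (Zp K n (en β h ω)) ≤
      ∑ i ∈ range n, (|β| * |ω i| + |h|) := by
    intro ω
    have h2 := Real.log_le_log (Zp_pos hK n _) (Zp_le hK n (en β h ω))
    rw [Real.log_exp] at h2
    refine h2.trans (Finset.sum_le_sum fun i _ => ?_)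
    unfold en
    rw [← abs_mul]
    exact abs_sub _ _
  have h3 : ∀ i ∈ range n, Integrable (fun ω : ℕ → ℝ => |β| * |ω i| + |h|) (seqLaw μ) :=
    fun i _ => ((integrable_abs_coord μ hμ i).const_mul _).add (integrable_const _)
  have h6 := integral_mono (integrable_logZp hK μ hμ β h n) (integrable_finsetSum _ h3) h1
  rw [integral_finsetSum _ h3] at h6
  have h7 : ∀ i ∈ range n, ∫ ω : ℕ → ℝ, (|β| * |ω i| + |h|) ∂seqLaw μ =
      mab μ β + |h| := by
    intro i _
    rw [integral_add ((integrable_abs_coord μ hμ i).const_mul _) (integrable_const _),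
      integral_const_mul, integral_coord μ (Y := fun x => |x|) (by fun_prop)]
    simp [mab]
  rw [Finset.sum_congr rfl h7] at h6
  simp at h6
  linarith

/-- superadditivity -/
lemma LP_superadd (hK : KerP K) (hμ : ExpMom μ) (β h : ℝ) (m n : ℕ) :
    ∫ ω, Real.log (Zp K m (en β h ω)) ∂seqLaw μ + ∫ ω, Real.log (Zp K n (en β h ω)) ∂seqLaw μ
      ≤ ∫ ω, Real.log (Zp K (m + n) (en β h ω)) ∂seqLaw μ := by
  have hm : Measurable fun ω => Real.log (Zp K n (en β h ω)) := (good_Zen hK β h n).meas.log
  have hi := integrable_logZp hK μ hμ β h n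
  have h1 := MP_daa227_pr.integral_shift μ m hm
  have h2 := MP_daa227_pr.integrable_shift μ m hm hi
  rw [← h1, ← integral_add (integrable_logZp hK μ hμ β h m) h2]
  apply integral_mono ((integrable_logZp hK μ hμ β h m).add h2)
    (integrable_logZp hK μ hμ β h (m + n))
  intro ω
  have h3 := Zp_mul_le hK m n (en β h ω)
  rw [shift_en] at h3
  have h4 := Real.log_le_log (mul_pos (Zp_pos hK m _) (Zp_pos hK n _)) h3
  rw [Real.log_mul (Zp_pos hK m _).ne' (Zp_pos hK n _).ne'] at h4
  exact h4

lemma tendsto_log_div1 (A B : ℝ) :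
    Tendsto (fun n : ℕ => -(A + B * Real.log n) / n) atTop (𝓝 0) := by
  have h1 := (Pool.Agent.OT.SupAux.tendsto_log_div A B).const_mul 2
  rw [mul_zero] at h1
  refine h1.congr fun n => ?_
  rcases Nat.eq_zero_or_pos n with h | h
  · simp [h]
  · have : (n : ℝ) ≠ 0 := by positivity
    field_simp

/-- Jensen for the logarithm of a sum of exponentials -/
lemma log_sum_tangent {ι : Type*} (s : Finset ι) (hs : s.Nonempty) (a x : ι → ℝ)
    (ha : ∀ i ∈ s, 0 < a i) :
    Real.log (∑ i ∈ s, a i) + ∑ i ∈ s, (a i / ∑ j ∈ s, a j) * x i ≤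
      Real.log (∑ i ∈ s, a i * Real.exp (x i)) := by
  have hA : 0 < ∑ j ∈ s, a j := Finset.sum_pos ha hs
  have h1 := convexOn_exp.map_sum_le (t := s) (w := fun i => a i / ∑ j ∈ s, a j) (p := x)
    (fun i hi => div_nonneg (ha i hi).le hA.le)
    (by rw [← Finset.sum_div]; exact div_self hA.ne') (fun i _ => Set.mem_univ _)
  simp only [smul_eq_mul] at h1
  have h2 : ∑ i ∈ s, (a i / ∑ j ∈ s, a j) * Real.exp (x i) =
      (∑ i ∈ s, a i * Real.exp (x i)) / ∑ j ∈ s, a j := by
    rw [Finset.sum_div]
    exact Finset.sum_congr rfl fun i _ => by ring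
  rw [h2] at h1
  have hB : 0 < ∑ i ∈ s, a i * Real.exp (x i) :=
    Finset.sum_pos (fun i hi => mul_pos (ha i hi) (Real.exp_pos _)) hs
  have h3 := Real.log_le_log (Real.exp_pos _) h1
  rw [Real.log_exp, Real.log_div hB.ne' hA.ne'] at h3
  linarith

/-- Jensen: a linear lower bound of mean zero -/
lemma tangent (hK : KerP K) (hμ : ExpMom μ) (hmean : ∫ x, x ∂μ = 0) (β h : ℝ) (n : ℕ) :
    ∃ l : (ℕ → ℝ) → ℝ, Measurable l ∧ Integrable l (seqLaw μ) ∧ ∫ ω, l ω ∂seqLaw μ = 0 ∧
      ∀ ω, Real.log (Zp K n (fun _ => -h)) + l ω ≤ Real.log (Zp K n (en β h ω)) := by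
  induction n using Nat.strong_induction_on with
  | _ n ih =>
    rcases n with _ | n
    · refine ⟨fun _ => 0, measurable_const, integrable_zero _ _ _, by simp, fun ω => ?_⟩
      rw [D.Zp_zero, D.Zp_zero]
      simp
    · choose! l hl using ih
      set a : ℕ → ℝ := fun k => K (k + 1) * Real.exp (-h) * Zp K (n - k) (fun _ => -h) with ha
      set w : ℕ → ℝ := fun k => a k / ∑ j ∈ range (n + 1), a j with hw
      have hapos : ∀ k ∈ range (n + 1), 0 < a k := fun k _ =>
        mul_pos (mul_pos (hK.pos _ (by omega)) (Real.exp_pos _)) (Zp_pos hK _ _)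
      have hsh : ∀ k ∈ range (n + 1), Integrable
          (fun ω : ℕ → ℝ => β * ω k + l (n - k) (shift (k + 1) ω)) (seqLaw μ) := by
        intro k hk
        obtain ⟨hm, hi, -, -⟩ := hl (n - k) (by omega)
        exact ((integrable_coord μ hμ k).const_mul β).add
          (MP_daa227_pr.integrable_shift μ (k + 1) hm hi)
      have hms : ∀ k, Measurable (fun ω : ℕ → ℝ => shift (k + 1) ω) := by
        intro k
        apply measurable_pi_lambda
        intro i
        exact measurable_pi_apply _
      refine ⟨fun ω => ∑ k ∈ range (n + 1), w k * (β * ω k + l (n - k) (shift (k + 1) ω)),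
        ?_, ?_, ?_, fun ω => ?_⟩
      · refine Finset.measurable_sum _ fun k hk => ?_
        obtain ⟨hm, -, -, -⟩ := hl (n - k) (by omega)
        exact (((measurable_pi_apply k).const_mul β).add (hm.comp (hms k))).const_mul _
      · exact integrable_finsetSum _ fun k hk => (hsh k hk).const_mul _
      · rw [integral_finsetSum _ fun k hk => (hsh k hk).const_mul _]
        refine Finset.sum_eq_zero fun k hk => ?_
        obtain ⟨hm, hi, h0, -⟩ := hl (n - k) (by omega)
        rw [integral_const_mul, integral_add ((integrable_coord μ hμ k).const_mul β)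
          (MP_daa227_pr.integrable_shift μ (k + 1) hm hi), integral_const_mul,
          integral_coord μ (Y := fun x => x) (by fun_prop), hmean,
          MP_daa227_pr.integral_shift μ (k + 1) hm, h0]
        simp
      · have h1 := log_sum_tangent (range (n + 1)) ⟨0, mem_range.2 (Nat.succ_pos n)⟩ a
          (fun k => β * ω k + l (n - k) (shift (k + 1) ω)) hapos
        have h2 : Zp K (n + 1) (fun _ => -h) = ∑ k ∈ range (n + 1), a k := by
          rw [D.Zp_succ]
          rfl
        rw [h2]
        refine h1.trans (Real.log_le_log (Finset.sum_pos (fun i hi =>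
          mul_pos (hapos i hi) (Real.exp_pos _)) ⟨0, mem_range.2 (Nat.succ_pos n)⟩) ?_)
        rw [D.Zp_succ]
        refine Finset.sum_le_sum fun k hk => ?_
        obtain ⟨-, -, -, h4⟩ := hl (n - k) (by omega)
        have h5 := h4 (shift (k + 1) ω)
        have h6 := Real.exp_le_exp.2 h5
        rw [Real.exp_add, Real.exp_log (Zp_pos hK _ _), Real.exp_log (Zp_pos hK _ _)] at h6
        have h7 : a k * Real.exp (β * ω k + l (n - k) (shift (k + 1) ω)) =
            K (k + 1) * Real.exp (en β h ω k) *
              (Zp K (n - k) (fun _ => -h) * Real.exp (l (n - k) (shift (k + 1) ω))) := by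
          have h8 : Real.exp (en β h ω k) = Real.exp (-h) * Real.exp (β * ω k) := by
            rw [← Real.exp_add]
            unfold en
            ring_nf
          rw [h8, Real.exp_add]
          simp only [ha]
          ring
        rw [h7, shift_en]
        exact mul_le_mul_of_nonneg_left h6 (mul_pos (hK.pos _ (by omega)) (Real.exp_pos _)).le

/-- some partition function in a positive homogeneous field is larger than one -/
lemma growth (hK : KerP K) {c : ℝ} (hc : 0 < c) : ∃ n : ℕ, 1 ≤ n ∧ 1 < Zp K n (fun _ => c) := by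
  by_contra hcon
  push Not at hcon
  set v : ℕ → ℝ := fun n => Zp K n (fun _ => c) with hv
  have hv1 : ∀ n, v n ≤ 1 := by
    intro n
    rcases Nat.eq_zero_or_pos n with h | h
    · rw [h]
      exact (D.Zp_zero K _).le
    · exact hcon n h
  have hv0 : ∀ n, 0 < v n := fun n => Zp_pos hK n _
  have hrec : ∀ n, v (n + 1) = ∑ k ∈ range (n + 1), K (k + 1) * Real.exp c * v (n - k) := by
    intro n
    simp only [hv]
    rw [D.Zp_succ]
    rfl
  -- some finite part of the kernel has mass more than `e^{-c}`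
  have hr : ∃ N : ℕ, 1 < Real.exp c * ∑ k ∈ range N, K (k + 1) := by
    have h1 : Tendsto (fun N : ℕ => ∑ k ∈ range N, K (k + 1)) atTop (𝓝 1) := by
      have h2 := hK.sum_one.tendsto_sum_nat
      have h3 := (tendsto_add_atTop_iff_nat 1).2 h2
      refine h3.congr fun N => ?_
      rw [Finset.sum_range_succ', hK.zero, add_zero]
    have h2 : Real.exp (-c) < 1 := by
      rw [Real.exp_lt_one_iff]
      linarith
    obtain ⟨N, hN⟩ := (h1.eventually_const_lt h2).exists
    refine ⟨N, ?_⟩
    calc (1 : ℝ) = Real.exp c * Real.exp (-c) := by rw [← Real.exp_add]; simp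
      _ < _ := mul_lt_mul_of_pos_left hN (Real.exp_pos _)
  obtain ⟨N, hN⟩ := hr
  set ρ : ℝ := Real.exp c * ∑ k ∈ range N, K (k + 1) with hρ
  set S : ℕ → ℝ := fun M => ∑ n ∈ range M, v n with hS
  have hS0 : ∀ M, 0 ≤ S M := fun M => Finset.sum_nonneg fun n _ => (hv0 n).le
  have hSm : ∀ M M', M ≤ M' → S M ≤ S M' := fun M M' h =>
    Finset.sum_le_sum_of_subset_of_nonneg (Finset.range_mono h) fun n _ _ => (hv0 n).le
  -- double counting
  have hstep : ∀ M, ρ * S M ≤ S (M + N) := by
    intro M
    have h1 : ∀ M', S (M' + 1) = 1 + ∑ k ∈ range M', K (k + 1) * Real.exp c * S (M' - k) := by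
      intro M'
      induction M' with
      | zero => simp [hS, hv, D.Zp_zero]
      | succ M' ih =>
        have h2 : S (M' + 1 + 1) = S (M' + 1) + v (M' + 1) := Finset.sum_range_succ _ _
        have h3 : ∀ k ∈ range (M' + 1), K (k + 1) * Real.exp c * S (M' + 1 - k) =
            K (k + 1) * Real.exp c * S (M' - k) + K (k + 1) * Real.exp c * v (M' - k) := by
          intro k hk
          rw [mem_range] at hk
          have h4 : M' + 1 - k = (M' - k) + 1 := by omega
          rw [h4, ← mul_add]
          congr 1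
          exact Finset.sum_range_succ _ _
        have h5 : ∑ k ∈ range (M' + 1), K (k + 1) * Real.exp c * S (M' - k) =
            ∑ k ∈ range M', K (k + 1) * Real.exp c * S (M' - k) := by
          rw [Finset.sum_range_succ, Nat.sub_self]
          simp [hS]
        rw [h2, ih, hrec M', Finset.sum_congr rfl h3, Finset.sum_add_distrib, h5]
        ring
    rcases Nat.eq_zero_or_pos N with hN0 | hNpos
    · exfalso
      rw [hρ, hN0] at hN
      simp at hN
      linarith
    · obtain ⟨P, hP⟩ : ∃ P, M + N = P + 1 := ⟨M + N - 1, by omega⟩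
      rw [hP, h1 P]
      have h6 : ∑ k ∈ range N, K (k + 1) * Real.exp c * S M ≤
          1 + ∑ k ∈ range P, K (k + 1) * Real.exp c * S (P - k) := by
        rcases Nat.eq_zero_or_pos M with hM0 | hMpos
        · have h7 : S M = 0 := by simp [hS, hM0]
          have h8 : ∑ k ∈ range N, K (k + 1) * Real.exp c * S M = 0 := by simp [h7]
          rw [h8]
          have h9 : 0 ≤ ∑ k ∈ range P, K (k + 1) * Real.exp c * S (P - k) :=
            Finset.sum_nonneg fun k _ =>
              mul_nonneg (mul_nonneg (K_nonneg hK _) (Real.exp_pos _).le) (hS0 _)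
          linarith
        · have h10 : ∑ k ∈ range N, K (k + 1) * Real.exp c * S M ≤
              ∑ k ∈ range N, K (k + 1) * Real.exp c * S (P - k) := by
            refine Finset.sum_le_sum fun k hk => ?_
            rw [mem_range] at hk
            exact mul_le_mul_of_nonneg_left (hSm _ _ (by omega))
              (mul_nonneg (K_nonneg hK _) (Real.exp_pos _).le)
          have h11 : ∑ k ∈ range N, K (k + 1) * Real.exp c * S (P - k) ≤
              ∑ k ∈ range P, K (k + 1) * Real.exp c * S (P - k) :=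
            Finset.sum_le_sum_of_subset_of_nonneg (Finset.range_mono (by omega)) fun k _ _ =>
              mul_nonneg (mul_nonneg (K_nonneg hK _) (Real.exp_pos _).le) (hS0 _)
          linarith
      refine le_trans (le_of_eq ?_) h6
      rw [← Finset.sum_mul, ← Finset.sum_mul, hρ]
      ring
  have hS1 : S 1 = 1 := by simp [hS, hv, D.Zp_zero]
  have hpow : ∀ m : ℕ, ρ ^ m ≤ S (1 + m * N) := by
    intro m
    induction m with
    | zero => simp [hS1]
    | succ m ih =>
      have h1 := hstep (1 + m * N)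
      have h2 : 1 + m * N + N = 1 + (m + 1) * N := by ring
      rw [h2] at h1
      refine le_trans ?_ h1
      rw [pow_succ, mul_comm]
      exact mul_le_mul_of_nonneg_left ih (by linarith)
  have hup : ∀ m : ℕ, ρ ^ m ≤ 1 + m * N := by
    intro m
    refine (hpow m).trans ?_
    have h1 : S (1 + m * N) ≤ ∑ n ∈ range (1 + m * N), (1 : ℝ) :=
      Finset.sum_le_sum fun n _ => hv1 n
    simp at h1
    exact h1
  -- exponential growth against linear growth
  have ht : Tendsto (fun m : ℕ => (m : ℝ) ^ 1 / ρ ^ m) atTop (𝓝 0) :=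
    tendsto_pow_const_div_const_pow_of_one_lt 1 hN
  have ht0 : Tendsto (fun m : ℕ => (m : ℝ) ^ 0 / ρ ^ m) atTop (𝓝 0) :=
    tendsto_pow_const_div_const_pow_of_one_lt 0 hN
  have hts : Tendsto (fun m : ℕ => (m : ℝ) ^ 0 / ρ ^ m + (N : ℝ) * ((m : ℝ) ^ 1 / ρ ^ m)) atTop
      (𝓝 (0 + N * 0)) := ht0.add (ht.const_mul _)
  rw [mul_zero, add_zero] at hts
  obtain ⟨m, hm⟩ := (hts.eventually_lt_const one_pos).exists
  have hρm : 0 < ρ ^ m := pow_pos (by linarith) _
  have h1 : (m : ℝ) ^ 0 / ρ ^ m + (N : ℝ) * ((m : ℝ) ^ 1 / ρ ^ m) = (1 + m * N) / ρ ^ m := by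
    field_simp
  rw [h1, div_lt_one hρm] at hm
  linarith [hup m]

end H1

open H1 in
theorem exists_FP {K : ℕ → ℝ} (hK : KerP K) (μ : Measure ℝ) [IsProbabilityMeasure μ]
    (hμ : ExpMom μ) (hmean : ∫ x, x ∂μ = 0) {β : ℝ} (hβ : 0 < β) :
    ∃ F : ℝ → ℝ, (∀ h, Tendsto (fun n : ℕ => LP K μ β h n / n) atTop (𝓝 (F h))) ∧
      (∀ h (n : ℕ), LP K μ β h n ≤ n * F h) ∧
      (∀ h, 0 ≤ F h) ∧ (∀ h h', h ≤ h' → F h' ≤ F h) ∧
      (∀ h h', h ≤ h' → F h ≤ F h' + (h' - h)) ∧ (∀ h, h < 0 → 0 < F h) := by
  set u : ℝ → ℕ → ℝ := fun h n => LP K μ β h n with hu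
  have hsub : ∀ h, Subadditive (fun n => -u h n) := by
    intro h m n
    have := LP_superadd μ hK hμ β h m n
    simp only [hu, LP]
    linarith
  have hbdd : ∀ h, BddBelow (Set.range fun n : ℕ => -u h n / n) := by
    intro h
    refine ⟨-(OT.SupAux.mab μ β + |h|), ?_⟩
    rintro _ ⟨n, rfl⟩
    have h1 := LP_upper μ hK hμ β h n
    have h0 := OT.SupAux.mab_nonneg μ β
    have h2 := abs_nonneg h
    rcases Nat.eq_zero_or_pos n with hn | hn
    · simp only [hn, Nat.cast_zero, div_zero]
      linarith
    · have hn0 : (0 : ℝ) < n := by exact_mod_cast hn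
      simp only
      rw [le_div_iff₀ hn0]
      simp only [hu, LP]
      linarith
  set F : ℝ → ℝ := fun h => -(hsub h).lim with hF
  have hlim : ∀ h, Tendsto (fun n : ℕ => u h n / n) atTop (𝓝 (F h)) := by
    intro h
    have h1 := ((hsub h).tendsto_lim (hbdd h)).neg
    refine h1.congr fun n => ?_
    ring
  have hle : ∀ h (n : ℕ), u h n ≤ n * F h := by
    intro h n
    rcases Nat.eq_zero_or_pos n with hn | hn
    · simp [hn, hu, LP, D.Zp_zero]
    · have h1 := (hsub h).lim_le_div (hbdd h) hn.ne'
      have hn0 : (0 : ℝ) < n := by exact_mod_cast hn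
      rw [le_div_iff₀ hn0] at h1
      simp only [hF]
      linarith
  refine ⟨F, hlim, hle, ?_, ?_, ?_, ?_⟩
  · intro h
    obtain ⟨c', e, hc', he, hlow⟩ := OT.SupAux.log_low hK.low
    refine le_of_tendsto_of_tendsto (tendsto_log_div1 (c' + |h| + OT.SupAux.mab μ β) e) (hlim h) ?_
    filter_upwards [eventually_ge_atTop 1] with n hn
    have hn0 : (0 : ℝ) < n := by exact_mod_cast hn
    rw [div_le_div_iff_of_pos_right (by positivity)]
    have h1 := LP_lower μ hK hμ β h hn
    have h2 := hlow n hn
    simp only [hu, LP]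
    linarith
  · intro h h' hh
    refine le_of_tendsto_of_tendsto (hlim h') (hlim h) ?_
    filter_upwards [eventually_ge_atTop 1] with n hn
    have hn0 : (0 : ℝ) < n := by exact_mod_cast hn
    rw [div_le_div_iff_of_pos_right (by positivity)]
    simp only [hu, LP]
    apply integral_mono (integrable_logZp hK μ hμ β h' n) (integrable_logZp hK μ hμ β h n)
    intro ω
    apply Real.log_le_log (Zp_pos hK n _)
    apply Zp_mono hK
    intro i _
    unfold en
    linarith
  · intro h h' hh
    have h1 : Tendsto (fun n : ℕ => u h' n / n + (h' - h)) atTop (𝓝 (F h' + (h' - h))) :=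
      (hlim h').add_const _
    refine le_of_tendsto_of_tendsto (hlim h) h1 ?_
    filter_upwards [eventually_ge_atTop 1] with n hn
    have hn0 : (0 : ℝ) < n := by exact_mod_cast hn
    have h2 : u h n ≤ u h' n + n * (h' - h) := by
      have h3 : ∀ ω, Real.log (Zp K n (en β h ω)) ≤
          Real.log (Zp K n (en β h' ω)) + n * (h' - h) := by
        intro ω
        have h4 := Zp_add_le hK n (en β h' ω) (c := h' - h) (by linarith)
        have h5 : (fun i => en β h' ω i + (h' - h)) = en β h ω := by
          funext i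
          unfold en
          ring
        rw [h5] at h4
        have h6 := Real.log_le_log (Zp_pos hK n _) h4
        rw [Real.log_mul (Real.exp_pos _).ne' (Zp_pos hK n _).ne', Real.log_exp] at h6
        linarith
      have h7 := integral_mono (integrable_logZp hK μ hμ β h n)
        ((integrable_logZp hK μ hμ β h' n).add (integrable_const ((n : ℝ) * (h' - h)))) h3
      have h8 : ∫ ω, (Real.log (Zp K n (en β h' ω)) + n * (h' - h)) ∂seqLaw μ =
          u h' n + n * (h' - h) := by
        rw [integral_add (integrable_logZp hK μ hμ β h' n) (integrable_const _)]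
        simp [hu, LP]
      rw [← h8]
      exact h7
    rw [div_add' _ _ _ (by positivity), div_le_div_iff_of_pos_right (by positivity)]
    linarith
  · intro h hh
    obtain ⟨n, hn, hgt⟩ := growth hK (c := -h) (by linarith)
    obtain ⟨l, -, hli, hl0, hle'⟩ := tangent μ hK hμ hmean β h n
    have h1 := integral_mono ((integrable_const (Real.log (Zp K n (fun _ => -h)))).add hli)
      (integrable_logZp hK μ hμ β h n) hle'
    have h2 : ∫ ω, (Real.log (Zp K n (fun _ => -h)) + l ω) ∂seqLaw μ =
        Real.log (Zp K n (fun _ => -h)) := by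
      rw [integral_add (integrable_const _) hli, hl0]
      simp
    have h3 : Real.log (Zp K n (fun _ => -h)) ≤ u h n := by
      rw [← h2]
      exact h1
    have h4 := Real.log_pos hgt
    have h5 := hle h n
    have hn0 : (0 : ℝ) < n := by exact_mod_cast hn
    by_contra hF0
    push Not at hF0
    have h6 : (n : ℝ) * F h ≤ 0 := mul_nonpos_of_nonneg_of_nonpos hn0.le hF0
    linarith

open H1 in
/-- lower bound for the quenched averages -/
theorem LP_ge {K : ℕ → ℝ} (hK : KerP K) (μ : Measure ℝ) [IsProbabilityMeasure μ]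
    (hμ : ExpMom μ) (β H : ℝ) : ∃ A : ℝ, 0 ≤ A ∧ ∀ h, |h| ≤ H → ∀ n : ℕ, 1 ≤ n →
      -(A * (1 + Real.log n)) ≤ LP K μ β h n := by
  obtain ⟨c', e, hc', he, hlow⟩ := OT.SupAux.log_low hK.low
  have hm := OT.SupAux.mab_nonneg μ β
  refine ⟨c' + |H| + OT.SupAux.mab μ β + e, by positivity, fun h hh n hn => ?_⟩
  have h1 := LP_lower μ hK hμ β h hn
  have h2 := hlow n hn
  have h3 : 0 ≤ Real.log n := Real.log_nonneg (by exact_mod_cast hn)
  have h4 : H ≤ |H| := le_abs_self H
  have h5 : 0 ≤ (c' + |H| + OT.SupAux.mab μ β) * Real.log n := by positivity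
  unfold LP
  nlinarith

end

end Pool.Agent.OTP
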