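import Mathlib
import Pool.Agent.Lib.MP_daa227_pr_OTP.Defs
import Pool.Agent.Lib.MP_daa227_pr_OTP.Dec
import Pool.Agent.Lib.MP_daa227_pr_OT.Hop

/-!
# Pinning: fractional moments when all quenched averages are nonpositive
-/

namespace Pool.Agent.OTP

open MeasureTheory ProbabilityTheory Finset Filter Topology
open MP_daa227_pr (Chain Zk Zf K0 shift seqLaw ExpMom Good)
open Pool.Agent.OT (Kp Km en tr ZE AE pE cE EFam gP LE ME RE dy ins lmg)
open Pool.Agent.OT.H2 (SM c0)

noncomputable section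

namespace H2

variable {μ : Measure ℝ} [IsProbabilityMeasure μ] {K : ℕ → ℝ}

lemma K_nonneg (hK : KerP K) (k : ℕ) : 0 ≤ K k := by
  rcases Nat.eq_zero_or_pos k with h | h
  · rw [h, hK.zero]
  · exact (hK.pos k h).le

/-- the partition function is a good function of the energies -/
lemma good_Zp (hK : KerP K) (n : ℕ) : Good n 1 (fun θ => Zp K n θ) := by
  induction n using Nat.strong_induction_on with
  | _ n ih =>
    rcases n with _ | n
    · refine (Good.const (k := 0) (κ := 1) zero_le_one (c := 1) zero_le_one).congr fun θ => ?_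
      simp only [Zp]
    · have h1 : ∀ k : Fin (n + 1), Good (n + 1) 1
          (fun θ => K (k + 1) * Real.exp (θ k) * Zp K (n - k) (shift (k + 1) θ)) := by
        intro k
        have hk := k.2
        have h3 : Good ((k : ℕ) + 1) 1
            (fun θ : ℕ → ℝ => Real.exp (∑ i ∈ {(k : ℕ)}, θ i)) := by
          apply OT.SupAux.good_exp
          intro i hi
          rw [Finset.mem_singleton] at hi
          rw [Finset.mem_range]
          omega
        have h4 : Good ((k : ℕ) + 1) 1 (fun θ : ℕ → ℝ => K (k + 1) * Real.exp (θ k)) :=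
          (h3.const_mul (K_nonneg hK (k + 1))).congr fun θ => by
            simp only [Finset.sum_singleton]
        have h2 := h4.mul_shift (ih (n - k) (by omega))
        rwa [show ((k : ℕ) + 1) + (n - k) = n + 1 by omega] at h2
      refine (Good.sum zero_le_one Finset.univ fun k _ => h1 k).congr fun θ => ?_
      simp only [Zp]

/-- the partition function is a good function of the charges -/
lemma good_Zen (hK : KerP K) (β h : ℝ) (n : ℕ) :
    Good n |β| (fun ω => Zp K n (en β h ω)) := OT.SupAux.good_en (good_Zp hK n) β h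

lemma integrable_log (hK : KerP K) (hμ : ExpMom μ) (β h : ℝ) (n : ℕ) :
    Integrable (fun ω => Real.log (Zp K n (en β h ω))) (seqLaw μ) :=
  (good_Zen hK β h n).integrable_log hμ fun _ => Zp_pos hK n _

/-! ### Pathwise lower bound -/

lemma low_Zp (hK : KerP K) {N k : ℕ} (hk : k ≤ N) {D S : ℝ} (hD0 : 0 ≤ D) (hS : 0 ≤ S)
    (hD : ∀ k, 1 ≤ k → k ≤ N → -D ≤ Real.log (K k)) {ψ : ℕ → ℝ} (hψ : ∀ i < k, |ψ i| ≤ S) :
    -(D + S) ≤ Real.log (Zp K k ψ) := by
  rcases Nat.eq_zero_or_pos k with h | h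
  · rw [h, Pool.Agent.OTP.D.Zp_zero, Real.log_one]
    linarith
  · have h1 := Real.log_le_log (mul_pos (hK.pos k h) (Real.exp_pos _)) (K_le_Zp hK h ψ)
    rw [Real.log_mul (hK.pos k h).ne' (Real.exp_pos _).ne', Real.log_exp] at h1
    have h2 := hD k h hk
    have h3 := hψ (k - 1) (by omega)
    have h4 := neg_abs_le (ψ (k - 1))
    linarith

lemma log_mul_le (hK : KerP K) (m n : ℕ) (θ : ℕ → ℝ) :
    Real.log (Zp K m θ) + Real.log (Zp K n (shift m θ)) ≤
      Real.log (Zp K (m + n) θ) := by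
  rw [← Real.log_mul (Zp_pos hK _ _).ne' (Zp_pos hK _ _).ne']
  exact Real.log_le_log (mul_pos (Zp_pos hK _ _) (Zp_pos hK _ _)) (Zp_mul_le hK m n θ)

/-- going through the block `i` -/
lemma block_low (hK : KerP K) {n m i : ℕ} (hi : i < m) {D S : ℝ} (hD0 : 0 ≤ D) (hS : 0 ≤ S)
    (hD : ∀ k, 1 ≤ k → k ≤ m * n → -D ≤ Real.log (K k)) {θ : ℕ → ℝ}
    (hθ : ∀ j < m * n, |θ j| ≤ S) :
    Real.log (Zp K n (shift (i * n) θ)) - 2 * (D + S) ≤
      Real.log (Zp K (m * n) θ) := by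
  obtain ⟨r, hr⟩ : ∃ r, m = i + 1 + r := ⟨m - (i + 1), by omega⟩
  have e : m * n = i * n + (n + r * n) := by rw [hr]; ring
  have h1 := log_mul_le hK (i * n) (n + r * n) θ
  rw [← e] at h1
  have h2 := log_mul_le hK n (r * n) (shift (i * n) θ)
  have h3 : -(D + S) ≤ Real.log (Zp K (i * n) θ) :=
    low_Zp hK (N := m * n) (by omega) hD0 hS hD fun j hj => hθ j (by omega)
  have h4 : -(D + S) ≤ Real.log (Zp K (r * n) (shift n (shift (i * n) θ))) := by
    refine low_Zp hK (N := m * n) (by omega) hD0 hS hD fun j hj => ?_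
    rw [MP_daa227_pr.shift_shift, MP_daa227_pr.shift_apply]
    exact hθ _ (by omega)
  linarith

/-! ### The tail estimate -/

lemma good_set_dep (K : ℕ → ℝ) (β h : ℝ) (n : ℕ) (x : ℝ) (ω ω' : ℕ → ℝ)
    (hω : ∀ i < n, ω i = ω' i) :
    (ω ∈ {ω : ℕ → ℝ | x ≤ Real.log (Zp K n (en β h ω))} ↔
      ω' ∈ {ω : ℕ → ℝ | x ≤ Real.log (Zp K n (en β h ω))}) := by
  have h1 : Zp K n (en β h ω) = Zp K n (en β h ω') :=
    Zp_congr K n fun i hi => by unfold OT.en; rw [hω i hi]
  simp only [Set.mem_ofPred_eq, h1]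

lemma meas_logZp (hK : KerP K) (β h : ℝ) (n : ℕ) :
    Measurable fun ω : ℕ → ℝ => Real.log (Zp K n (en β h ω)) :=
  (good_Zen hK β h n).meas.log

/-- the main inequality -/
lemma block_ineq (hK : KerP K) (hμ : ExpMom μ) (β h : ℝ)
    (h0 : ∀ n, ∫ ω, Real.log (Zp K n (en β h ω)) ∂seqLaw μ ≤ 0)
    {c e : ℝ} (hc : 0 ≤ c) (he : 0 ≤ e)
    (hlow : ∀ k : ℕ, 1 ≤ k → -(c + e * Real.log k) ≤ Real.log (K k))
    {n m : ℕ} (hn : 1 ≤ n) (hm : 1 ≤ m) {x : ℝ} (hx : 0 ≤ x) :
    x * (1 - (1 - seqLaw μ {ω | x ≤ Real.log (Zp K n (en β h ω))}) ^ m).toReal ≤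
      2 * (c + e * Real.log (m * n)) + 2 * Real.log ((m * n) * c0 μ β h) := by
  set A := {ω : ℕ → ℝ | x ≤ Real.log (Zp K n (en β h ω))} with hA
  have hAm : MeasurableSet A := measurableSet_le measurable_const (meas_logZp hK β h n)
  set G := {ω : ℕ → ℝ | ∃ i < m, shift (n * i) ω ∈ A} with hG
  have hGm : MeasurableSet G := by
    have : G = ⋃ i ∈ range m, shift (n * i) ⁻¹' A := by
      ext ω
      simp [hG]
    rw [this]
    exact Finset.measurableSet_biUnion _ fun i _ => MP_daa227_pr.measurable_shift _ hAm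
  rw [← OT.H2.prob_blocks (μ := μ) n hAm (good_set_dep K β h n x) m]
  set D := c + e * Real.log (m * n) with hDdef
  have hmn : 1 ≤ m * n := Nat.mul_pos hm hn
  have hmn' : (1 : ℝ) ≤ (m : ℝ) * n := by exact_mod_cast hmn
  have hD0 : 0 ≤ D := by
    have := Real.log_nonneg hmn'
    positivity
  have hD : ∀ k, 1 ≤ k → k ≤ m * n → -D ≤ Real.log (K k) := by
    intro k hk1 hk
    refine le_trans ?_ (hlow k hk1)
    have h1 : Real.log k ≤ Real.log (m * n) :=
      Real.log_le_log (by exact_mod_cast hk1) (by exact_mod_cast hk)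
    have := mul_le_mul_of_nonneg_left h1 he
    rw [hDdef]
    linarith
  have key : ∀ ω : ℕ → ℝ, G.indicator (fun _ => x) ω - 2 * D - 2 * SM β h (m * n) ω ≤
      Real.log (Zp K (m * n) (en β h ω)) := by
    intro ω
    have hS := OT.H2.SM_nonneg β h (K := m * n) (by omega) ω
    have hθ : ∀ j < m * n, |en β h ω j| ≤ SM β h (m * n) ω :=
      fun j hj => OT.H2.abs_le_SM β h hj ω
    by_cases hω : ω ∈ G
    · rw [Set.indicator_of_mem hω]
      obtain ⟨i, hi, hiA⟩ := hω
      have h1 := block_low hK hi hD0 hS hD hθ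
      have h2 : x ≤ Real.log (Zp K n (shift (i * n) (en β h ω))) := by
        rw [OT.SupAux.shift_en, show i * n = n * i by ring]
        exact hiA
      linarith
    · rw [Set.indicator_of_notMem hω]
      have h1 := low_Zp hK le_rfl hD0 hS hD hθ
      linarith
  have hi1 : Integrable (G.indicator (fun _ => x)) (seqLaw μ) :=
    (integrable_const x).indicator hGm
  have hi2 := (OT.H2.integrable_SM hμ β h (K := m * n) (by omega)).const_mul 2
  have hi0 : Integrable (fun ω => G.indicator (fun _ => x) ω - 2 * D) (seqLaw μ) :=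
    hi1.sub (integrable_const (2 * D))
  have h3 : ∫ ω, (G.indicator (fun _ => x) ω - 2 * D - 2 * SM β h (m * n) ω) ∂seqLaw μ ≤
      ∫ ω, Real.log (Zp K (m * n) (en β h ω)) ∂seqLaw μ :=
    integral_mono (hi0.sub hi2) (integrable_log hK hμ β h (m * n)) key
  have h4 := OT.H2.integral_SM_le hμ β h (K := m * n) (by omega)
  have h5 := h0 (m * n)
  have e1 : ∫ ω, 2 * SM β h (m * n) ω ∂seqLaw μ =
      2 * ∫ ω, SM β h (m * n) ω ∂seqLaw μ := integral_const_mul _ _
  rw [integral_sub hi0 hi2, e1,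
    integral_sub hi1 (integrable_const _), integral_indicator_const _ hGm] at h3
  simp only [integral_const, probReal_univ, smul_eq_mul, one_mul] at h3
  push_cast at h4
  have h6 : (seqLaw μ).real G = (seqLaw μ G).toReal := rfl
  rw [h6] at h3
  change x * (seqLaw μ G).toReal ≤ _
  linarith

/-- the tail of the logarithm -/
lemma tail (hK : KerP K) (hμ : ExpMom μ) (β h : ℝ)
    (h0 : ∀ n, ∫ ω, Real.log (Zp K n (en β h ω)) ∂seqLaw μ ≤ 0) :
    ∃ g : ℝ, 0 < g ∧ ∀ n : ℕ, 1 ≤ n → ∀ x : ℝ, 0 ≤ x →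
      seqLaw μ {ω | x ≤ Real.log (Zp K n (en β h ω))} ≤
        ENNReal.ofReal (2 * Real.exp 1 * n * Real.exp (-(g * x))) := by
  obtain ⟨c, e, hc, he, hlow⟩ := OT.SupAux.log_low hK.low
  have hc1 := OT.H2.one_le_c0 hμ β h
  have hlc : 0 ≤ Real.log (c0 μ β h) := Real.log_nonneg hc1
  set C1 : ℝ := 2 * (2 * c + 2 * e + 2 + 2 * Real.log (c0 μ β h)) with hC1
  have hC1pos : 0 < C1 := by positivity
  refine ⟨C1⁻¹, inv_pos.2 hC1pos, fun n hn x hx => ?_⟩
  set q := seqLaw μ {ω | x ≤ Real.log (Zp K n (en β h ω))} with hq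
  have hq1 : q ≤ 1 := prob_le_one
  have hqt : q ≠ ⊤ := ne_top_of_le_ne_top ENNReal.one_ne_top hq1
  rcases eq_or_ne q 0 with hq0 | hq0
  · rw [hq0]; exact zero_le
  set r := q.toReal with hr
  have hr0 : 0 < r := ENNReal.toReal_pos hq0 hqt
  have hr1 : r ≤ 1 := by
    have := ENNReal.toReal_mono ENNReal.one_ne_top hq1
    simpa using this
  set m := ⌈1 / r⌉₊ with hm
  have hm1 : 1 / r ≤ m := Nat.le_ceil _
  have hm2 : (m : ℝ) < 1 / r + 1 := Nat.ceil_lt_add_one (by positivity)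
  have hone : 1 ≤ 1 / r := by rw [le_div_iff₀ hr0]; linarith
  have hm3 : 1 ≤ m := by
    have : (1 : ℝ) ≤ m := hone.trans hm1
    exact_mod_cast this
  have h1 := block_ineq hK hμ β h h0 hc he hlow hn hm3 hx
  rw [← hq] at h1
  have h2 : (1 - (1 - q) ^ m).toReal = 1 - (1 - r) ^ m := by
    rw [ENNReal.toReal_sub_of_le (pow_le_one' tsub_le_self m) ENNReal.one_ne_top,
      ENNReal.toReal_pow, ENNReal.toReal_sub_of_le hq1 ENNReal.one_ne_top, ENNReal.toReal_one]
  rw [h2] at h1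
  have h3 : (1 - r) ^ m ≤ 1 / 2 := by
    have h4 : 1 - r ≤ Real.exp (-r) := by
      have := Real.add_one_le_exp (-r)
      linarith
    have h5 : (1 - r) ^ m ≤ Real.exp (-r) ^ m := pow_le_pow_left₀ (by linarith) h4 m
    rw [← Real.exp_nat_mul] at h5
    have h6 : Real.exp (m * -r) ≤ Real.exp (-1) := by
      apply Real.exp_le_exp.2
      have : 1 ≤ m * r := by
        rw [div_le_iff₀ hr0] at hm1
        linarith
      linarith
    have h7 : Real.exp (-1) ≤ 1 / 2 := by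
      rw [Real.exp_neg, one_div]
      apply inv_anti₀ (by norm_num)
      have := Real.add_one_le_exp (1 : ℝ)
      linarith
    linarith
  have hn1 : (1 : ℝ) ≤ n := by exact_mod_cast hn
  have hmr : (1 : ℝ) ≤ m := by exact_mod_cast hm3
  have hmn : (1 : ℝ) ≤ m * n := by nlinarith
  set ℓ := Real.log (m * n) with hℓ
  have hℓ0 : 0 ≤ ℓ := Real.log_nonneg hmn
  have h4 : Real.log ((m * n) * c0 μ β h) = ℓ + Real.log (c0 μ β h) := by
    rw [Real.log_mul (by positivity) (by positivity)]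
  rw [h4] at h1
  have h5 : x / 2 ≤ 2 * (c + e * ℓ) + 2 * (ℓ + Real.log (c0 μ β h)) := by
    have : x * (1 / 2) ≤ x * (1 - (1 - r) ^ m) := mul_le_mul_of_nonneg_left (by linarith) hx
    linarith
  have h6 : x ≤ C1 * (1 + ℓ) := by
    have i1 : 0 ≤ c * ℓ := by positivity
    have i3 : 0 ≤ Real.log (c0 μ β h) * ℓ := by positivity
    rw [hC1]
    nlinarith
  have h7 : C1⁻¹ * x ≤ 1 + ℓ := by
    rw [inv_mul_le_iff₀ hC1pos]
    exact h6
  have h8 : (m : ℝ) * n ≤ 2 * n / r := by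
    have : (m : ℝ) ≤ 2 / r := by
      have e2 : 2 / r = 1 / r + 1 / r := by ring
      rw [e2]
      linarith
    calc (m : ℝ) * n ≤ 2 / r * n := mul_le_mul_of_nonneg_right this (by positivity)
      _ = 2 * n / r := by ring
  have h9 : Real.exp ℓ ≤ 2 * n / r := by
    rw [hℓ, Real.exp_log (by positivity)]
    exact h8
  have h10 : r ≤ 2 * Real.exp 1 * n * Real.exp (-(C1⁻¹ * x)) := by
    rw [le_div_iff₀ hr0] at h9
    have i1 : Real.exp (C1⁻¹ * x) ≤ Real.exp 1 * Real.exp ℓ := by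
      rw [← Real.exp_add]
      exact Real.exp_le_exp.2 h7
    have i2 : Real.exp (C1⁻¹ * x) * r ≤ Real.exp 1 * (2 * n) := by
      calc Real.exp (C1⁻¹ * x) * r ≤ Real.exp 1 * Real.exp ℓ * r :=
            mul_le_mul_of_nonneg_right i1 hr0.le
        _ = Real.exp 1 * (Real.exp ℓ * r) := by ring
        _ ≤ _ := mul_le_mul_of_nonneg_left h9 (Real.exp_pos _).le
    rw [Real.exp_neg, ← div_eq_mul_inv, le_div_iff₀ (Real.exp_pos _)]
    linarith
  rw [← ENNReal.ofReal_toReal hqt]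
  exact ENNReal.ofReal_le_ofReal h10

end H2

theorem hopP {K : ℕ → ℝ} (hK : KerP K) (μ : Measure ℝ) [IsProbabilityMeasure μ]
    (hμ : ExpMom μ) {β : ℝ} (hβ : 0 < β) (h : ℝ) (h0 : ∀ n, LP K μ β h n ≤ 0) :
    ∃ γ A : ℝ, 0 < γ ∧ 0 ≤ A ∧ ∀ n : ℕ, 1 ≤ n →
      Integrable (fun ω => Zp K n (en β h ω) ^ γ) (seqLaw μ) ∧
      Real.log (∫ ω, Zp K n (en β h ω) ^ γ ∂seqLaw μ) ≤ A * (1 + Real.log n) := by
  obtain ⟨g, hg, ht⟩ := H2.tail hK hμ β h h0
  set γ := g / 2 with hγ
  have hγ0 : 0 < γ := by positivity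
  have h1e : 0 < 1 - Real.exp (-γ) := by
    have := Real.exp_lt_one_iff.2 (show -γ < 0 by linarith)
    linarith
  set C2 : ℝ := 1 + 2 * Real.exp 1 * Real.exp γ * (1 - Real.exp (-γ))⁻¹ with hC2
  have hC21 : 1 ≤ C2 := by
    have : 0 ≤ 2 * Real.exp 1 * Real.exp γ * (1 - Real.exp (-γ))⁻¹ := by positivity
    linarith
  refine ⟨γ, 1 + Real.log C2, hγ0, by have := Real.log_nonneg hC21; linarith, fun n hn => ?_⟩
  have hn1 : (1 : ℝ) ≤ n := by exact_mod_cast hn
  have hmeas := H2.meas_logZp hK β h n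
  have h1 := OT.H2.moment (P := seqLaw μ) hmeas hγ0 (C := 2 * Real.exp 1 * n) (by positivity)
    (fun x hx => by
      refine (ht n hn x hx).trans (le_of_eq ?_)
      congr 3
      rw [hγ]
      ring)
  have e1 : ∀ ω : ℕ → ℝ, Zp K n (en β h ω) ^ γ =
      Real.exp (γ * Real.log (Zp K n (en β h ω))) := fun ω => by
    rw [Real.rpow_def_of_pos (Zp_pos hK n _), mul_comm]
  simp_rw [e1]
  have hint : Integrable (fun ω => Real.exp (γ * Real.log (Zp K n (en β h ω)))) (seqLaw μ) := by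
    refine ⟨((hmeas.const_mul γ).exp).aestronglyMeasurable, ?_⟩
    rw [hasFiniteIntegral_iff_ofReal (ae_of_all _ fun _ => (Real.exp_pos _).le)]
    exact h1.trans_lt ENNReal.ofReal_lt_top
  refine ⟨hint, ?_⟩
  have h2 : ∫ ω, Real.exp (γ * Real.log (Zp K n (en β h ω))) ∂seqLaw μ ≤ C2 * n := by
    rw [integral_eq_lintegral_of_nonneg_ae (ae_of_all _ fun _ => (Real.exp_pos _).le)
      hint.aestronglyMeasurable]
    refine ENNReal.toReal_le_of_le_ofReal (by positivity) (h1.trans ?_)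
    apply ENNReal.ofReal_le_ofReal
    rw [hC2]
    have i1 : 2 * Real.exp 1 * n * Real.exp γ * (1 - Real.exp (-γ))⁻¹ =
        2 * Real.exp 1 * Real.exp γ * (1 - Real.exp (-γ))⁻¹ * n := by ring
    rw [i1]
    linarith
  have h3 : 0 < ∫ ω, Real.exp (γ * Real.log (Zp K n (en β h ω))) ∂seqLaw μ :=
    integral_exp_pos hint
  have h4 := Real.log_le_log h3 h2
  rw [Real.log_mul (by positivity) (by positivity)] at h4
  have h5 : 0 ≤ Real.log n := Real.log_nonneg hn1
  have h6 : 0 ≤ Real.log C2 := Real.log_nonneg hC21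
  nlinarith

end

end Pool.Agent.OTP
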