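import Mathlib
import Pool.Agent.Lib.MP_daa227_pr_OTP.Defs

/-!
# Pinning: annealed averages
-/

namespace Pool.Agent.OTP

open MeasureTheory ProbabilityTheory Finset Filter Topology
open MP_daa227_pr (Chain Zk Zf K0 shift seqLaw ExpMom)
open Pool.Agent.OT (Kp Km en tr ZE AE pE cE EFam gP LE ME RE dy ins lmg)

noncomputable section

namespace A1

theorem K_nonneg {K : ℕ → ℝ} (hK : KerP K) (k : ℕ) : 0 ≤ K k := by
  rcases Nat.eq_zero_or_pos k with h | h
  · rw [h, hK.zero]
  · exact (hK.pos k h).le

theorem Zp_succ (K : ℕ → ℝ) (n : ℕ) (θ : ℕ → ℝ) :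
    Zp K (n + 1) θ = ∑ k ∈ range (n + 1),
      K (k + 1) * Real.exp (θ k) * Zp K (n - k) (shift (k + 1) θ) := by
  rw [Zp, Finset.sum_range]

theorem Zp_nonneg {K : ℕ → ℝ} (hK : KerP K) : ∀ (n : ℕ) (θ : ℕ → ℝ), 0 ≤ Zp K n θ := by
  intro n
  induction n using Nat.strong_induction_on with
  | _ n ih =>
    intro θ
    cases n with
    | zero => rw [Zp]; exact zero_le_one
    | succ n =>
      rw [Zp_succ]
      refine Finset.sum_nonneg fun k hk => ?_
      have hk' := Finset.mem_range.1 hk
      exact mul_nonneg (mul_nonneg (K_nonneg hK _) (Real.exp_pos _).le)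
        (ih _ (by omega) _)

theorem shift_en (β h : ℝ) (k : ℕ) (ω : ℕ → ℝ) :
    shift k (en β h ω) = en β h (shift k ω) := rfl

theorem shift_const (k : ℕ) (c : ℝ) : shift k (fun _ => c) = (fun _ => c) := rfl

theorem meas_Zp (K : ℕ → ℝ) (β h : ℝ) : ∀ n : ℕ, Measurable (fun ω => Zp K n (en β h ω)) := by
  intro n
  induction n using Nat.strong_induction_on with
  | _ n ih =>
    cases n with
    | zero => simp only [Zp]; exact measurable_const
    | succ n =>
      simp only [Zp_succ, shift_en]
      refine Finset.measurable_sum _ fun k hk => ?_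
      have hk' := Finset.mem_range.1 hk
      refine Measurable.mul (Measurable.mul measurable_const ?_)
        ((ih _ (by omega)).comp (MP_daa227_pr.measurable_shift (k + 1)))
      have h1 : Measurable (fun ω : ℕ → ℝ => β * ω k - h) := by fun_prop
      exact Real.measurable_exp.comp h1

theorem lint_exp (μ : Measure ℝ) (hμ : ExpMom μ) [IsProbabilityMeasure μ] (a : ℝ) :
    ∫⁻ x, ENNReal.ofReal (Real.exp (a * x)) ∂μ = ENNReal.ofReal (Real.exp (lmg μ a)) := by
  have hp : 0 < ∫ x, Real.exp (a * x) ∂μ := integral_exp_pos (hμ a)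
  rw [lmg, Real.exp_log hp, ← ofReal_integral_eq_lintegral_ofReal (hμ a)
    (Filter.Eventually.of_forall fun x => (Real.exp_pos _).le)]

theorem meas_E (a b : ℝ) (k : ℕ) :
    Measurable (fun ω : ℕ → ℝ =>
      ENNReal.ofReal (Real.exp (a * (∑ i ∈ range k, ω i) + b * ω k))) := by
  have h1 : Measurable (fun ω : ℕ → ℝ => a * (∑ i ∈ range k, ω i) + b * ω k) := by fun_prop
  exact ENNReal.measurable_ofReal.comp (Real.measurable_exp.comp h1)

theorem lint_E (μ : Measure ℝ) (hμ : ExpMom μ) [IsProbabilityMeasure μ] (a b : ℝ) :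
    ∀ k : ℕ, ∫⁻ ω, ENNReal.ofReal (Real.exp (a * (∑ i ∈ range k, ω i) + b * ω k)) ∂seqLaw μ =
      ENNReal.ofReal (Real.exp (k * lmg μ a + lmg μ b)) := by
  intro k
  induction k with
  | zero =>
    simp only [Finset.range_zero, Finset.sum_empty, mul_zero, zero_add, Nat.cast_zero, zero_mul]
    rw [← lint_exp μ hμ b]
    exact MP_daa227_pr.lintegral_apply μ 0
      (ENNReal.measurable_ofReal.comp (Real.measurable_exp.comp (measurable_id.const_mul b)))
  | succ k ih =>
    rw [MP_daa227_pr.lintegral_cons μ (meas_E a b (k + 1))]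
    have h1 : ∀ x : ℝ, ∫⁻ ω, ENNReal.ofReal (Real.exp (a * (∑ i ∈ range (k + 1),
        MP_daa227_pr.cons x ω i) + b * MP_daa227_pr.cons x ω (k + 1))) ∂seqLaw μ =
        ENNReal.ofReal (Real.exp (a * x)) *
          ENNReal.ofReal (Real.exp (k * lmg μ a + lmg μ b)) := by
      intro x
      rw [← ih, ← lintegral_const_mul _ (meas_E a b k)]
      refine lintegral_congr fun ω => ?_
      rw [Finset.sum_range_succ', ← ENNReal.ofReal_mul (Real.exp_pos _).le, ← Real.exp_add]
      simp only [MP_daa227_pr.cons_succ, MP_daa227_pr.cons_zero]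
      congr 2
      ring
    simp_rw [h1]
    have hm : Measurable (fun x : ℝ => ENNReal.ofReal (Real.exp (a * x))) := by fun_prop
    rw [lintegral_mul_const _ hm, lint_exp μ hμ a,
      ← ENNReal.ofReal_mul (Real.exp_pos _).le, ← Real.exp_add]
    congr 2
    push_cast
    ring

/-- the tilted partition function -/
def Fn (K : ℕ → ℝ) (β h l : ℝ) (n : ℕ) (ω : ℕ → ℝ) : ℝ :=
  Zp K n (en β h ω) * Real.exp (-(l * ∑ i ∈ range n, ω i))

theorem Fn_nonneg {K : ℕ → ℝ} (hK : KerP K) (β h l : ℝ) (n : ℕ) (ω : ℕ → ℝ) :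
    0 ≤ Fn K β h l n ω := mul_nonneg (Zp_nonneg hK _ _) (Real.exp_pos _).le

theorem meas_Fn (K : ℕ → ℝ) (β h l : ℝ) (n : ℕ) : Measurable (Fn K β h l n) := by
  refine (meas_Zp K β h n).mul (Real.measurable_exp.comp ?_)
  refine (Measurable.const_mul ?_ l).neg
  exact Finset.measurable_sum _ fun i _ => measurable_pi_apply i

theorem Fn_succ (K : ℕ → ℝ) (β h l : ℝ) (n : ℕ) (ω : ℕ → ℝ) :
    Fn K β h l (n + 1) ω = ∑ k ∈ range (n + 1),
      (K (k + 1) * Real.exp (-h)) * Real.exp ((-l) * (∑ i ∈ range k, ω i) + (β - l) * ω k) *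
        Fn K β h l (n - k) (shift (k + 1) ω) := by
  rw [Fn, Zp_succ, Finset.sum_mul]
  refine Finset.sum_congr rfl fun k hk => ?_
  have hk' := Finset.mem_range.1 hk
  rw [Fn, shift_en]
  have h1 : ∑ i ∈ range (n + 1), ω i = (∑ i ∈ range k, ω i) + ω k +
      ∑ i ∈ range (n - k), shift (k + 1) ω i := by
    rw [← Finset.sum_range_succ]
    have h2 : n + 1 = (k + 1) + (n - k) := by omega
    rw [h2, Finset.sum_range_add]
    congr 1
    refine Finset.sum_congr rfl fun i _ => ?_
    rw [MP_daa227_pr.shift_apply, Nat.add_comm]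
  rw [h1]
  have h3 : Real.exp (en β h ω k) * Real.exp (-(l * ((∑ i ∈ range k, ω i) + ω k +
      ∑ i ∈ range (n - k), shift (k + 1) ω i))) =
      Real.exp (-h) * Real.exp ((-l) * (∑ i ∈ range k, ω i) + (β - l) * ω k) *
        Real.exp (-(l * ∑ i ∈ range (n - k), shift (k + 1) ω i)) := by
    rw [← Real.exp_add, ← Real.exp_add, ← Real.exp_add]
    congr 1
    simp only [en]
    ring
  calc K (k + 1) * Real.exp (en β h ω k) * Zp K (n - k) (en β h (shift (k + 1) ω)) *
        Real.exp (-(l * ((∑ i ∈ range k, ω i) + ω k +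
          ∑ i ∈ range (n - k), shift (k + 1) ω i)))
      = K (k + 1) * Zp K (n - k) (en β h (shift (k + 1) ω)) *
        (Real.exp (en β h ω k) * Real.exp (-(l * ((∑ i ∈ range k, ω i) + ω k +
          ∑ i ∈ range (n - k), shift (k + 1) ω i)))) := by ring
    _ = _ := by rw [h3]; ring

theorem lint_Fn {K : ℕ → ℝ} (hK : KerP K) (μ : Measure ℝ) [IsProbabilityMeasure μ]
    (hμ : ExpMom μ) (β h l : ℝ) : ∀ n : ℕ,
    ∫⁻ ω, ENNReal.ofReal (Fn K β h l n ω) ∂seqLaw μ =
      ENNReal.ofReal (Real.exp (n * lmg μ (-l)) *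
        Zp K n (fun _ => lmg μ (β - l) - lmg μ (-l) - h)) := by
  intro n
  induction n using Nat.strong_induction_on with
  | _ n ih =>
    cases n with
    | zero => simp [Fn, Zp]
    | succ n =>
      have hc : ∀ k, 0 ≤ K (k + 1) * Real.exp (-h) :=
        fun k => mul_nonneg (K_nonneg hK _) (Real.exp_pos _).le
      have h1 : ∀ ω, ENNReal.ofReal (Fn K β h l (n + 1) ω) = ∑ k ∈ range (n + 1),
          ENNReal.ofReal (K (k + 1) * Real.exp (-h)) *
            (ENNReal.ofReal (Real.exp ((-l) * (∑ i ∈ range k, ω i) + (β - l) * ω k)) *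
            ENNReal.ofReal (Fn K β h l (n - k) (shift (k + 1) ω))) := by
        intro ω
        rw [Fn_succ, ENNReal.ofReal_sum_of_nonneg]
        · refine Finset.sum_congr rfl fun k _ => ?_
          rw [ENNReal.ofReal_mul (mul_nonneg (hc k) (Real.exp_pos _).le),
            ENNReal.ofReal_mul (hc k), mul_assoc]
        · intro k _
          exact mul_nonneg (mul_nonneg (hc k) (Real.exp_pos _).le) (Fn_nonneg hK _ _ _ _ _)
      simp_rw [h1]
      rw [lintegral_finsetSum]
      · have h2 : ∀ k ∈ range (n + 1),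
            ∫⁻ ω, ENNReal.ofReal (K (k + 1) * Real.exp (-h)) *
            (ENNReal.ofReal (Real.exp ((-l) * (∑ i ∈ range k, ω i) + (β - l) * ω k)) *
            ENNReal.ofReal (Fn K β h l (n - k) (shift (k + 1) ω))) ∂seqLaw μ =
            ENNReal.ofReal (Real.exp ((n + 1 : ℕ) * lmg μ (-l)) *
              (K (k + 1) * Real.exp (lmg μ (β - l) - lmg μ (-l) - h) *
                Zp K (n - k) (fun _ => lmg μ (β - l) - lmg μ (-l) - h))) := by
          intro k hk
          have hk' := Finset.mem_range.1 hk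
          have hm1 := meas_E (-l) (β - l) k
          have hm2 : Measurable (fun ω => ENNReal.ofReal (Fn K β h l (n - k) ω)) :=
            ENNReal.measurable_ofReal.comp (meas_Fn K β h l (n - k))
          have hm3 : Measurable (fun ω : ℕ → ℝ =>
              ENNReal.ofReal (Real.exp ((-l) * (∑ i ∈ range k, ω i) + (β - l) * ω k)) *
              ENNReal.ofReal (Fn K β h l (n - k) (shift (k + 1) ω))) :=
            hm1.mul (hm2.comp (MP_daa227_pr.measurable_shift (k + 1)))
          rw [lintegral_const_mul _ hm3,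
            MP_daa227_pr.lintegral_mul_shift μ hm2 (k + 1) hm1 ?_, lint_E μ hμ, ih _ (by omega),
            ← ENNReal.ofReal_mul (Real.exp_pos _).le, ← ENNReal.ofReal_mul (hc k)]
          · congr 1
            have h3 : ((n - k : ℕ) : ℝ) = n - k := by
              rw [Nat.cast_sub (by omega)]
            rw [h3]
            have h4 : Real.exp (-h) * (Real.exp (k * lmg μ (-l) + lmg μ (β - l)) *
                Real.exp ((n - k) * lmg μ (-l))) = Real.exp ((n + 1 : ℕ) * lmg μ (-l)) *
                  Real.exp (lmg μ (β - l) - lmg μ (-l) - h) := by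
              rw [← Real.exp_add, ← Real.exp_add, ← Real.exp_add]
              congr 1
              push_cast
              ring
            calc K (k + 1) * Real.exp (-h) * (Real.exp (k * lmg μ (-l) + lmg μ (β - l)) *
                  (Real.exp ((n - k) * lmg μ (-l)) *
                    Zp K (n - k) (fun _ => lmg μ (β - l) - lmg μ (-l) - h)))
                = K (k + 1) * Zp K (n - k) (fun _ => lmg μ (β - l) - lmg μ (-l) - h) *
                  (Real.exp (-h) * (Real.exp (k * lmg μ (-l) + lmg μ (β - l)) *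
                    Real.exp ((n - k) * lmg μ (-l)))) := by ring
              _ = _ := by rw [h4]; ring
          · intro ω ω' hω
            have e1 : ∑ i ∈ range k, ω i = ∑ i ∈ range k, ω' i :=
              Finset.sum_congr rfl fun i hi => hω i (by have := Finset.mem_range.1 hi; omega)
            simp only [e1, hω k (by omega)]
        rw [Finset.sum_congr rfl h2, ← ENNReal.ofReal_sum_of_nonneg, ← Finset.mul_sum, Zp_succ]
        · rfl
        · intro k _
          exact mul_nonneg (Real.exp_pos _).le (mul_nonneg (mul_nonneg (K_nonneg hK _)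
            (Real.exp_pos _).le) (Zp_nonneg hK _ _))
      · intro k _
        refine Measurable.const_mul ?_ _
        exact (meas_E (-l) (β - l) k).mul ((ENNReal.measurable_ofReal.comp
          (meas_Fn K β h l (n - k))).comp (MP_daa227_pr.measurable_shift (k + 1)))

theorem sum_K_le {K : ℕ → ℝ} (hK : KerP K) (n : ℕ) : ∑ k ∈ range n, K (k + 1) ≤ 1 := by
  have h := sum_le_hasSum (range (n + 1)) (fun i _ => K_nonneg hK i) hK.sum_one
  rw [Finset.sum_range_succ', hK.zero, add_zero] at h
  exact h

end A1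

open A1

/-- annealed average after an exponential tilt of the charges -/
theorem ann_tilt {K : ℕ → ℝ} (hK : KerP K) (μ : Measure ℝ) [IsProbabilityMeasure μ]
    (hμ : ExpMom μ) (β h l : ℝ) (n : ℕ) :
    Integrable (fun ω => Zp K n (en β h ω) * Real.exp (-(l * ∑ i ∈ range n, ω i))) (seqLaw μ) ∧
    ∫ ω, Zp K n (en β h ω) * Real.exp (-(l * ∑ i ∈ range n, ω i)) ∂seqLaw μ =
      Real.exp (n * lmg μ (-l)) * Zp K n (fun _ => lmg μ (β - l) - lmg μ (-l) - h) := by
  have h1 := lint_Fn hK μ hμ β h l n
  have hm := meas_Fn K β h l n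
  constructor
  · change Integrable (Fn K β h l n) (seqLaw μ)
    refine ⟨hm.aestronglyMeasurable, ?_⟩
    rw [hasFiniteIntegral_iff_ofReal (Filter.Eventually.of_forall (Fn_nonneg hK β h l n))]
    have : (∫⁻ ω, ENNReal.ofReal (Fn K β h l n ω) ∂seqLaw μ) < ⊤ := by
      rw [h1]; exact ENNReal.ofReal_lt_top
    exact this
  · have h2 : ∫ ω, Fn K β h l n ω ∂seqLaw μ =
        (∫⁻ ω, ENNReal.ofReal (Fn K β h l n ω) ∂seqLaw μ).toReal :=
      integral_eq_lintegral_of_nonneg_ae
        (Filter.Eventually.of_forall (Fn_nonneg hK β h l n)) hm.aestronglyMeasurable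
    rw [h1, ENNReal.toReal_ofReal (mul_nonneg (Real.exp_pos _).le (Zp_nonneg hK _ _))] at h2
    exact h2

theorem ann_eq {K : ℕ → ℝ} (hK : KerP K) (μ : Measure ℝ) [IsProbabilityMeasure μ]
    (hμ : ExpMom μ) (β h : ℝ) (n : ℕ) :
    Integrable (fun ω => Zp K n (en β h ω)) (seqLaw μ) ∧
    ∫ ω, Zp K n (en β h ω) ∂seqLaw μ = Zp K n (fun _ => lmg μ β - h) := by
  have h1 := ann_tilt hK μ hμ β h 0 n
  have h0 : lmg μ 0 = 0 := by simp [lmg]
  simpa [h0] using h1

/-- the partition function grows in a positive homogeneous field -/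
theorem Zp_growth {K : ℕ → ℝ} (hK : KerP K) {c : ℝ} (hc : 0 < c) (A : ℝ) :
    ∃ L : ℕ, 1 ≤ L ∧ A ≤ Zp K L (fun _ => c) := by
  have hpos : ∀ n : ℕ, 0 < Zp K n (fun _ => c) := by
    intro n
    cases n with
    | zero => rw [Zp]; exact zero_lt_one
    | succ n =>
      rw [Zp_succ]
      refine Finset.sum_pos' (fun k _ => mul_nonneg (mul_nonneg (K_nonneg hK _)
        (Real.exp_pos _).le) (Zp_nonneg hK _ _)) ⟨n, Finset.self_mem_range_succ n, ?_⟩
      rw [Nat.sub_self, Zp, mul_one]
      exact mul_pos (hK.pos _ (by omega)) (Real.exp_pos _)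
  -- choose the number of terms
  obtain ⟨N, hN1, hN⟩ : ∃ N : ℕ, 1 ≤ N ∧ 1 < Real.exp c * ∑ k ∈ range N, K (k + 1) := by
    have h1 : Tendsto (fun N => Real.exp c * ∑ k ∈ range N, K k) atTop (𝓝 (Real.exp c * 1)) :=
      hK.sum_one.tendsto_sum_nat.const_mul _
    have h2 : (1 : ℝ) < Real.exp c * 1 := by
      rw [mul_one]; exact Real.one_lt_exp_iff.2 hc
    obtain ⟨N, hN⟩ := ((h1.eventually (lt_mem_nhds h2)).and (eventually_ge_atTop 2)).exists
    refine ⟨N - 1, by omega, ?_⟩
    have h3 : N = N - 1 + 1 := by omega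
    have h4 := hN.1
    rw [h3, Finset.sum_range_succ', hK.zero, add_zero] at h4
    exact h4
  set ρ := Real.exp c * ∑ k ∈ range N, K (k + 1) with hρ
  obtain ⟨κ, hκ0, hκ⟩ : ∃ κ : ℝ, 0 < κ ∧ ∀ n < N, κ ≤ Zp K n (fun _ => c) := by
    obtain ⟨j, hj, hmin⟩ := Finset.exists_min_image (range N) (fun n => Zp K n (fun _ => c))
      ⟨0, Finset.mem_range.2 (by omega)⟩
    exact ⟨_, hpos j, fun n hn => hmin n (Finset.mem_range.2 hn)⟩
  have key : ∀ n : ℕ, κ * ρ ^ (n / N) ≤ Zp K n (fun _ => c) := by
    intro n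
    induction n using Nat.strong_induction_on with
    | _ n ih =>
      by_cases hnN : n < N
      · rw [Nat.div_eq_of_lt hnN, pow_zero, mul_one]
        exact hκ n hnN
      · obtain ⟨m, rfl⟩ : ∃ m, n = m + 1 := ⟨n - 1, by omega⟩
        rw [Zp_succ]
        have h5 : ∀ k ∈ range N, K (k + 1) * Real.exp c * (κ * ρ ^ ((m + 1) / N - 1)) ≤
            K (k + 1) * Real.exp c * Zp K (m - k) (shift (k + 1) (fun _ => c)) := by
          intro k hk
          have hk' := Finset.mem_range.1 hk
          refine mul_le_mul_of_nonneg_left ?_ (mul_nonneg (K_nonneg hK _) (Real.exp_pos _).le)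
          refine le_trans ?_ (ih (m - k) (by omega))
          refine mul_le_mul_of_nonneg_left ?_ hκ0.le
          refine pow_le_pow_right₀ hN.le ?_
          have h6 : (m + 1) / N - 1 = (m + 1 - N) / N := by
            have := Nat.sub_mul_div (m + 1) N 1
            rw [mul_one] at this
            exact this.symm
          rw [h6]
          exact Nat.div_le_div_right (by omega)
        calc κ * ρ ^ ((m + 1) / N)
            = ∑ k ∈ range N, K (k + 1) * Real.exp c * (κ * ρ ^ ((m + 1) / N - 1)) := by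
              rw [← Finset.sum_mul, ← Finset.sum_mul]
              have h7 : (m + 1) / N = ((m + 1) / N - 1) + 1 := by
                have : 1 ≤ (m + 1) / N := (Nat.one_le_div_iff (by omega)).2 (by omega)
                omega
              conv_lhs => rw [h7, pow_succ]
              rw [hρ]
              ring
          _ ≤ ∑ k ∈ range N, K (k + 1) * Real.exp c *
                Zp K (m - k) (shift (k + 1) (fun _ => c)) := Finset.sum_le_sum h5
          _ ≤ _ := by
              refine Finset.sum_le_sum_of_subset_of_nonneg ?_ ?_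
              · intro k hk
                have := Finset.mem_range.1 hk
                exact Finset.mem_range.2 (by omega)
              · intro k _ _
                exact mul_nonneg (mul_nonneg (K_nonneg hK _) (Real.exp_pos _).le)
                  (Zp_nonneg hK _ _)
  obtain ⟨m, hm⟩ := (((tendsto_pow_atTop_atTop_of_one_lt hN).const_mul_atTop hκ0).eventually
    (eventually_ge_atTop A)).and (eventually_ge_atTop 1) |>.exists
  refine ⟨m * N, Nat.mul_pos hm.2 hN1, ?_⟩
  refine le_trans hm.1 ?_
  have h8 := key (m * N)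
  rwa [Nat.mul_div_cancel _ hN1] at h8

theorem Zp_const_le_one {K : ℕ → ℝ} (hK : KerP K) {c : ℝ} (hc : c ≤ 0) (n : ℕ) :
    Zp K n (fun _ => c) ≤ 1 := by
  induction n using Nat.strong_induction_on with
  | _ n ih =>
    cases n with
    | zero => rw [Zp]
    | succ n =>
      rw [Zp_succ]
      refine le_trans (Finset.sum_le_sum (g := fun k => K (k + 1)) ?_) (sum_K_le hK (n + 1))
      intro k hk
      have hk' := Finset.mem_range.1 hk
      rw [shift_const]
      have h1 : Real.exp c ≤ 1 := Real.exp_le_one_iff.2 hc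
      have h2 := ih (n - k) (by omega)
      have h3 := Zp_nonneg hK (n - k) (fun _ => c)
      calc K (k + 1) * Real.exp c * Zp K (n - k) (fun _ => c)
          ≤ K (k + 1) * 1 * 1 := by
            refine mul_le_mul (mul_le_mul_of_nonneg_left h1 (K_nonneg hK _)) h2 h3 ?_
            rw [mul_one]; exact K_nonneg hK _
        _ = K (k + 1) := by ring

end

end Pool.Agent.OTP
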