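import Mathlib
import Pool.Agent.Lib.MP_daa227_pr_OTP.Defs
import Pool.Agent.Lib.MP_daa227_pr_OTP.Dec
import Pool.Agent.Lib.MP_daa227_pr_OT.PE

/-!
# Configurations and renewals (pinning)
-/

namespace Pool.Agent.OTP

open MeasureTheory ProbabilityTheory Finset Filter Topology
open MP_daa227_pr (Chain Zk Zf K0 shift seqLaw ExpMom)
open Pool.Agent.OT (Kp Km en tr ZE AE pE cE EFam gP LE ME RE dy ins lmg)

noncomputable section

namespace ZE

/-- partition function of the configurations, the last site being `g` steps back -/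
def Zg (K : ℕ → ℝ) (g n : ℕ) (θ : ℕ → ℝ) : ℝ :=
  ∑ s : Fin n → Bool, wB K n g s * Real.exp (∑ i : Fin n, θ i * spB n s i)

theorem Zg_succ (K : ℕ → ℝ) (g n : ℕ) (θ : ℕ → ℝ) :
    Zg K g (n + 1) θ = K (g + 1) * Real.exp (θ 0) * Zg K 0 n (shift 1 θ) +
      Zg K (g + 1) n (shift 1 θ) := by
  unfold Zg
  rw [← (Fin.consEquiv (fun _ : Fin (n + 1) => Bool)).sum_comp, Fintype.sum_prod_type,
    Fintype.sum_bool, mul_sum]
  congr 1
  · refine sum_congr rfl fun s _ => ?_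
    have e1 : (Fin.consEquiv (fun _ : Fin (n + 1) => Bool)) (true, s) = Fin.cons true s := rfl
    rw [e1, wB, Fin.sum_univ_succ]
    simp only [spB, Fin.cons_zero, Fin.cons_succ, if_true, Fin.val_zero, Fin.val_succ, mul_one]
    rw [Real.exp_add]
    have e2 : ∀ i : Fin n, θ ((i : ℕ) + 1) = shift 1 θ i := fun i => rfl
    simp only [e2]
    ring
  · refine sum_congr rfl fun s _ => ?_
    have e1 : (Fin.consEquiv (fun _ : Fin (n + 1) => Bool)) (false, s) = Fin.cons false s := rfl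
    rw [e1, wB, Fin.sum_univ_succ]
    simp only [spB, Fin.cons_zero, Fin.cons_succ, Fin.val_zero, Fin.val_succ, mul_zero,
      Bool.false_eq_true, if_false, zero_add]
    rfl

theorem Zg_zero (K : ℕ → ℝ) (g : ℕ) (θ : ℕ → ℝ) : Zg K g 0 θ = if g = 0 then 1 else 0 := by
  unfold Zg
  rw [Fintype.sum_unique]
  simp [wB]

theorem Zg_main (K : ℕ → ℝ) (n : ℕ) : (∀ θ : ℕ → ℝ, Zg K 0 n θ = Zp K n θ) ∧
    ∀ (g : ℕ) (θ : ℕ → ℝ), Zg K g (n + 1) θ =
      ∑ k ∈ range (n + 1), K (g + k + 1) * Real.exp (θ k) * Zp K (n - k) (shift (k + 1) θ) := by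
  induction n with
  | zero =>
    refine ⟨fun θ => ?_, fun g θ => ?_⟩
    · rw [Zg_zero, D.Zp_zero]; simp
    · rw [Zg_succ, Zg_zero, Zg_zero]
      simp [D.Zp_zero]
  | succ n ih =>
    have h0 : ∀ θ : ℕ → ℝ, Zg K 0 (n + 1) θ = Zp K (n + 1) θ := by
      intro θ
      rw [ih.2, D.Zp_succ]
      simp only [zero_add]
    refine ⟨h0, fun g θ => ?_⟩
    rw [Zg_succ, h0, ih.2, sum_range_succ' _ (n + 1), add_comm]
    refine congrArg₂ (· + ·) (sum_congr rfl fun k _ => ?_) rfl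
    rw [MP_daa227_pr.shift_shift, MP_daa227_pr.shift_apply]
    have e1 : g + 1 + k + 1 = g + (k + 1) + 1 := by ring
    have e2 : n + 1 - (k + 1) = n - k := by omega
    rw [e1, e2]

theorem wB_nonneg {K : ℕ → ℝ} (hK : KerP K) (n : ℕ) : ∀ (g : ℕ) (s : Fin n → Bool),
    0 ≤ wB K n g s := by
  induction n with
  | zero =>
    intro g s
    rw [wB]
    split_ifs <;> norm_num
  | succ n ih =>
    intro g s
    rw [wB]
    split_ifs
    · exact mul_nonneg (hK.pos _ (by omega)).le (ih _ _)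
    · exact ih _ _

theorem spB_zero_one (n : ℕ) (s : Fin n → Bool) (i : Fin n) :
    spB n s i = 0 ∨ spB n s i = 1 := by
  unfold spB
  split_ifs
  · exact Or.inr rfl
  · exact Or.inl rfl

theorem spB_nonneg (n : ℕ) (s : Fin n → Bool) (i : Fin n) : 0 ≤ spB n s i := by
  rcases spB_zero_one n s i with h | h <;> rw [h] ; norm_num

theorem spB_le (n : ℕ) (s : Fin n → Bool) (i : Fin n) : spB n s i ≤ 1 := by
  rcases spB_zero_one n s i with h | h <;> rw [h] ; norm_num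

end ZE

theorem ZE_eq_Zp (K : ℕ → ℝ) (n : ℕ) (θ : ℕ → ℝ) :
    ZE (wB K n 0) (spB n) (tr n θ) = Zp K n θ := (ZE.Zg_main K n).1 θ

theorem pE_eq_prp {K : ℕ → ℝ} (hK : KerP K) {n j : ℕ} (hj1 : 1 ≤ j) (hj : j ≤ n) (θ : ℕ → ℝ) :
    pE (wB K n 0) (spB n) (tr n θ) ⟨j - 1, by omega⟩ = prp K n j θ := by
  set i₀ : Fin n := ⟨j - 1, by omega⟩ with hi₀
  have h1 := OT.I4.ZE_update (w := wB K n 0) (x := spB n) (ZE.spB_zero_one n) (tr n θ) i₀ 1
  set θ' : ℕ → ℝ := Function.update θ (j - 1) (θ (j - 1) + 1) with hθ'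
  have h2 : Function.update (tr n θ) i₀ (tr n θ i₀ + 1) = tr n θ' := by
    funext i
    by_cases h : i = i₀
    · subst h
      simp [tr, hθ', hi₀]
    · have h3 : (i : ℕ) ≠ j - 1 := fun h4 => h (Fin.ext h4)
      simp [tr, hθ', h, h3]
  rw [h2, ZE_eq_Zp, ZE_eq_Zp, Zp_split hj1 hj θ, Zp_split hj1 hj θ'] at h1
  have hag : ∀ i, i ≠ j - 1 → θ' i = θ i := fun i hi => by simp [hθ', hi]
  have h3 := Zout_indep (K := K) hj1 hj hag
  have h4 := Zin_indep (K := K) hj1 hj hag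
  have h5 : θ' (j - 1) = θ (j - 1) + 1 := by simp [hθ']
  have h6 : Zin K n j θ' = Zin K n j θ * Real.exp 1 := by
    have h7 : Real.exp (-θ' (j - 1)) ≠ 0 := (Real.exp_pos _).ne'
    apply mul_right_cancel₀ h7
    rw [h4, mul_assoc, ← Real.exp_add, h5]
    congr 2
    ring
  rw [h3, h6] at h1
  have h8 : Real.exp 1 - 1 ≠ 0 := by
    have := Real.add_one_lt_exp (one_ne_zero : (1 : ℝ) ≠ 0)
    linarith
  have h9 : ∑ s, wB K n 0 s * Real.exp (∑ i, tr n θ i * spB n s i) * spB n s i₀ =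
      Zin K n j θ := by
    apply mul_left_cancel₀ h8
    linarith
  rw [pE, AE, h9, ZE_eq_Zp]
  rfl

namespace ZE

/-- local density as a function on `ℕ` -/
def pN (K : ℕ → ℝ) (n : ℕ) (θ : ℕ → ℝ) (i : ℕ) : ℝ :=
  if h : i < n then pE (wB K n 0) (spB n) (tr n θ) ⟨i, h⟩ else 0

theorem pN_fin (K : ℕ → ℝ) (n : ℕ) (θ : ℕ → ℝ) (i : Fin n) :
    pE (wB K n 0) (spB n) (tr n θ) i = pN K n θ i := by
  rw [pN, dif_pos i.2]

theorem pN_nonneg {K : ℕ → ℝ} (hK : KerP K) (n : ℕ) (θ : ℕ → ℝ) (i : ℕ) : 0 ≤ pN K n θ i := by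
  unfold pN
  split_ifs
  · exact OT.I4.pE_nn (wB_nonneg hK n 0) (spB_nonneg n) _ _
  · exact le_rfl

theorem pN_le {K : ℕ → ℝ} (hK : KerP K) (n : ℕ) (θ : ℕ → ℝ) (i : ℕ) : pN K n θ i ≤ 1 := by
  unfold pN
  split_ifs
  · exact OT.I4.pE_le1 (wB_nonneg hK n 0) (spB_le n) _ _
  · exact zero_le_one

theorem pN_eq {K : ℕ → ℝ} (hK : KerP K) {n i : ℕ} (hi : i < n) (θ : ℕ → ℝ) :
    pN K n θ i = prp K n (i + 1) θ := by
  rw [pN, dif_pos hi, ← pE_eq_prp hK (Nat.succ_le_succ (Nat.zero_le i)) hi]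
  rfl

theorem pN_meas (K : ℕ → ℝ) (β h : ℝ) (n i : ℕ) :
    Measurable fun ω : ℕ → ℝ => pN K n (en β h ω) i := by
  unfold pN
  split_ifs
  · unfold pE AE OT.ZE tr en
    fun_prop
  · exact measurable_const

theorem pN_int {K : ℕ → ℝ} (hK : KerP K) (μ : Measure ℝ) [IsProbabilityMeasure μ] (β h : ℝ)
    (n i : ℕ) : Integrable (fun ω : ℕ → ℝ => pN K n (en β h ω) i) (seqLaw μ) :=
  OT.I4.integ μ (pN_meas K β h n i) (fun _ => pN_nonneg hK _ _ _) fun _ => pN_le hK _ _ _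

theorem pN_sq_int {K : ℕ → ℝ} (hK : KerP K) (μ : Measure ℝ) [IsProbabilityMeasure μ] (β h : ℝ)
    (n i : ℕ) : Integrable (fun ω : ℕ → ℝ => pN K n (en β h ω) i ^ 2) (seqLaw μ) :=
  OT.I4.integ μ ((pN_meas K β h n i).pow_const 2) (fun _ => sq_nonneg _) fun _ =>
    pow_le_one₀ (pN_nonneg hK _ _ _) (pN_le hK _ _ _)

theorem int_sum (μ : Measure ℝ) [IsProbabilityMeasure μ] (n : ℕ) (f : (ℕ → ℝ) → ℕ → ℝ)
    (hf : ∀ i, Integrable (fun ω => f ω i) (seqLaw μ)) :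
    ∫ ω, ∑ i : Fin n, f ω i ∂seqLaw μ = ∑ j ∈ range n, ∫ ω, f ω j ∂seqLaw μ := by
  have h1 : ∀ ω, ∑ i : Fin n, f ω i = ∑ j ∈ range n, f ω j :=
    fun ω => Fin.sum_univ_eq_sum_range (fun i => f ω i) n
  simp only [h1]
  exact integral_finsetSum (range n) (f := fun j ω => f ω j) fun j _ => hf j

theorem MP_eq {K : ℕ → ℝ} (hK : KerP K) (μ : Measure ℝ) [IsProbabilityMeasure μ] (β h : ℝ)
    (n : ℕ) : MP K μ β h n = ∑ j ∈ range n, ∫ ω, pN K n (en β h ω) j ∂seqLaw μ := by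
  unfold MP
  simp only [pN_fin]
  exact int_sum μ n (fun ω => pN K n (en β h ω)) (pN_int hK μ β h n)

theorem RP_eq {K : ℕ → ℝ} (hK : KerP K) (μ : Measure ℝ) [IsProbabilityMeasure μ] (β h : ℝ)
    (n : ℕ) : RP K μ β h n = ∑ j ∈ range n, ∫ ω, pN K n (en β h ω) j ^ 2 ∂seqLaw μ := by
  unfold RP
  simp only [pN_fin]
  exact int_sum μ n (fun ω i => pN K n (en β h ω) i ^ 2) (pN_sq_int hK μ β h n)

end ZE

theorem MP_le {K : ℕ → ℝ} (hK : KerP K) (μ : Measure ℝ) [IsProbabilityMeasure μ] (β h : ℝ)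
    (n : ℕ) :
    MP K μ β h n ≤ (∑ j ∈ Ico 1 n, ∫ ω, prp K n j (en β h ω) ∂seqLaw μ) + 1 := by
  rcases Nat.eq_zero_or_pos n with rfl | hn
  · simp [MP]
  obtain ⟨m, rfl⟩ : ∃ m, n = m + 1 := ⟨n - 1, by omega⟩
  rw [ZE.MP_eq hK, OT.I4.sum_shift, Nat.add_sub_cancel, sum_range_succ]
  have h2 : ∫ ω, ZE.pN K (m + 1) (en β h ω) m ∂seqLaw μ ≤ 1 := by
    have := integral_mono (ZE.pN_int hK μ β h (m + 1) m) (integrable_const (1 : ℝ))
      fun ω => ZE.pN_le hK (m + 1) (en β h ω) m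
    simpa using this
  have h3 : ∀ j ∈ range m, ∫ ω, ZE.pN K (m + 1) (en β h ω) j ∂seqLaw μ =
      ∫ ω, prp K (m + 1) (j + 1) (en β h ω) ∂seqLaw μ := by
    intro j hj
    rw [mem_range] at hj
    simp only [ZE.pN_eq hK (show j < m + 1 by omega)]
  rw [sum_congr rfl h3]
  linarith

theorem MP_ge {K : ℕ → ℝ} (hK : KerP K) (μ : Measure ℝ) [IsProbabilityMeasure μ] (β h : ℝ)
    (n m : ℕ) (hm : m ≤ n) :
    ∑ j ∈ Ico 1 m, ∫ ω, prp K n j (en β h ω) ∂seqLaw μ ≤ MP K μ β h n := by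
  rw [ZE.MP_eq hK, OT.I4.sum_shift]
  have h0 : ∀ i, 0 ≤ ∫ ω, ZE.pN K n (en β h ω) i ∂seqLaw μ := fun i =>
    integral_nonneg fun ω => ZE.pN_nonneg hK _ _ _
  calc ∑ j ∈ range (m - 1), ∫ ω, prp K n (j + 1) (en β h ω) ∂seqLaw μ
      = ∑ j ∈ range (m - 1), ∫ ω, ZE.pN K n (en β h ω) j ∂seqLaw μ := by
        refine sum_congr rfl fun j hj => ?_
        rw [mem_range] at hj
        simp only [ZE.pN_eq hK (show j < n by omega)]
    _ ≤ _ := sum_le_sum_of_subset_of_nonneg (range_subset_range.mpr (by omega)) fun j _ _ => h0 _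

theorem RP_ge {K : ℕ → ℝ} (hK : KerP K) (μ : Measure ℝ) [IsProbabilityMeasure μ] (β h : ℝ)
    (n : ℕ) :
    ∑ j ∈ Ico 1 n, ∫ ω, prp K n j (en β h ω) ^ 2 ∂seqLaw μ ≤ RP K μ β h n := by
  rw [ZE.RP_eq hK, OT.I4.sum_shift]
  have h0 : ∀ i, 0 ≤ ∫ ω, ZE.pN K n (en β h ω) i ^ 2 ∂seqLaw μ := fun i =>
    integral_nonneg fun ω => sq_nonneg _
  calc ∑ j ∈ range (n - 1), ∫ ω, prp K n (j + 1) (en β h ω) ^ 2 ∂seqLaw μ
      = ∑ j ∈ range (n - 1), ∫ ω, ZE.pN K n (en β h ω) j ^ 2 ∂seqLaw μ := by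
        refine sum_congr rfl fun j hj => ?_
        rw [mem_range] at hj
        simp only [ZE.pN_eq hK (show j < n by omega)]
    _ ≤ _ := sum_le_sum_of_subset_of_nonneg (range_subset_range.mpr (by omega)) fun j _ _ => h0 _

end

end Pool.Agent.OTP
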