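import Mathlib
import Pool.Agent.Lib.MP_daa227_pr_OTP.Defs
import Pool.Agent.Lib.MP_daa227_pr_OTP.Dec
import Pool.Agent.Lib.MP_daa227_pr_OT.Strict
import Pool.Agent.Lib.MP_daa227_pr.Mom

/-!
# Module R2: recursion for fractional moments
-/

set_option autoImplicit false

namespace Pool.Agent.OTP

open MeasureTheory ProbabilityTheory Finset Filter Topology
open MP_daa227_pr (Chain Zk Zf K0 shift seqLaw ExpMom)
open Pool.Agent.OT (Kp Km en tr ZE AE pE cE EFam gP LE ME RE dy ins lmg)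

noncomputable section

namespace R2

theorem Zp_zero (K : ℕ → ℝ) (θ : ℕ → ℝ) : Zp K 0 θ = 1 := by
  rw [Zp]

theorem meas_Zp (K : ℕ → ℝ) (β h : ℝ) (n : ℕ) :
    Measurable fun ω : ℕ → ℝ => Zp K n (en β h ω) := by
  induction n using Nat.strong_induction_on with
  | _ n ih =>
    cases n with
    | zero =>
      simp only [Zp_zero]
      exact measurable_const
    | succ n =>
      have h1 : (fun ω : ℕ → ℝ => Zp K (n + 1) (en β h ω)) = fun ω =>
          ∑ k : Fin (n + 1), K (k + 1) * Real.exp (en β h ω k) *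
            Zp K (n - k) (en β h (shift (k + 1) ω)) := by
        funext ω
        rw [Zp]
        simp only [OT.X1.shift_en]
      rw [h1]
      refine Finset.measurable_sum _ fun k _ => Measurable.mul ?_ ?_
      · exact ((OT.X1.meas_en β h k).exp).const_mul _
      · exact (ih (n - k) (by omega)).comp (MP_daa227_pr.measurable_shift _)

/-- the weight of one jump -/
theorem mom_G2 {K : ℕ → ℝ} (hK : KerP K) {μ : Measure ℝ} [IsProbabilityMeasure μ] (hμ : ExpMom μ)
    (β h : ℝ) {γ : ℝ} (h0 : 0 < γ) {m : ℕ} (hm : 1 ≤ m) (i : ℕ) :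
    MP_daa227_pr.mom μ γ (fun ω => K m * Real.exp (en β h ω i)) =
      ENNReal.ofReal (K m ^ γ) * ENNReal.ofReal (OT.X1.qq μ β h γ) := by
  rw [MP_daa227_pr.mom_const_mul h0.le (hK.pos m hm).le (OT.X1.meas_en β h i).exp,
    OT.X1.mom_site hμ, ENNReal.ofReal_rpow_of_nonneg (hK.pos m hm).le h0.le]

theorem mom_term {K : ℕ → ℝ} (hK : KerP K) {μ : Measure ℝ} [IsProbabilityMeasure μ]
    (hμ : ExpMom μ) (β h : ℝ) {γ : ℝ} (h0 : 0 < γ) {x y : ℕ} (hxy : x < y) (r : ℕ) :
    MP_daa227_pr.mom μ γ (fun ω => Zp K x (en β h ω) * (K (y - x) *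
      Real.exp (en β h ω (y - 1))) * Zp K r (shift y (en β h ω))) =
      MP_daa227_pr.mom μ γ (fun ω => Zp K x (en β h ω)) *
        (ENNReal.ofReal (K (y - x) ^ γ) * ENNReal.ofReal (OT.X1.qq μ β h γ)) *
        MP_daa227_pr.mom μ γ (fun ω => Zp K r (en β h ω)) := by
  have e1 : ∀ ω : ℕ → ℝ, Zp K x (en β h ω) * (K (y - x) *
      Real.exp (en β h ω (y - 1))) * Zp K r (shift y (en β h ω)) =
      (fun ω => Zp K x (en β h ω) * (K (y - x) * Real.exp (en β h ω (y - 1)))) ω *
        (fun ω => Zp K r (en β h ω)) (shift y ω) := by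
    intro ω
    simp only [OT.X1.shift_en]
  have e2 : ∀ ω : ℕ → ℝ, Zp K x (en β h ω) * (K (y - x) * Real.exp (en β h ω (y - 1))) =
      (fun ω => Zp K x (en β h ω)) ω *
        (fun ω => K (y - x) * Real.exp (en β h ω (y - 1 - x))) (shift x ω) := by
    intro ω
    have h2 : y - 1 - x + x = y - 1 := by omega
    simp only [en, MP_daa227_pr.shift_apply, h2]
  rw [MP_daa227_pr.mom_congr e1, MP_daa227_pr.mom_mul_shift h0.le
    (F := fun ω => Zp K x (en β h ω) * (K (y - x) * Real.exp (en β h ω (y - 1))))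
    (G := fun ω => Zp K r (en β h ω)), MP_daa227_pr.mom_congr e2,
    MP_daa227_pr.mom_mul_shift h0.le (F := fun ω => Zp K x (en β h ω))
    (G := fun ω => K (y - x) * Real.exp (en β h ω (y - 1 - x))),
    mom_G2 hK hμ β h h0 (by omega)]
  · exact meas_Zp K β h x
  · exact ((OT.X1.meas_en β h _).exp).const_mul _
  · intro ω ω' hω
    refine Zp_congr K x fun i hi => ?_
    simp only [en, hω i hi]
  · exact fun ω => (Zp_pos hK _ _).le
  · exact (meas_Zp K β h x).mul (((OT.X1.meas_en β h _).exp).const_mul _)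
  · exact meas_Zp K β h r
  · intro ω ω' hω
    have h3 : Zp K x (en β h ω) = Zp K x (en β h ω') := by
      refine Zp_congr K x fun i hi => ?_
      simp only [en, hω i (by omega)]
    simp only [h3, en, hω (y - 1) (by omega)]
  · exact fun ω => mul_nonneg (Zp_pos hK _ _).le (mul_nonneg (hK.pos _ (by omega)).le
      (Real.exp_pos _).le)

theorem mom_cross {K : ℕ → ℝ} (hK : KerP K) {μ : Measure ℝ} [IsProbabilityMeasure μ]
    (hμ : ExpMom μ) (β h : ℝ) {γ : ℝ} (h0 : 0 < γ) (h1 : γ ≤ 1) {n j : ℕ} (hj : j < n) :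
    MP_daa227_pr.mom μ γ (fun ω => Zp K n (en β h ω)) ≤
      ∑ x ∈ range (j + 1), ∑ y ∈ Ioc j n,
        MP_daa227_pr.mom μ γ (fun ω => Zp K x (en β h ω)) *
        (ENNReal.ofReal (K (y - x) ^ γ) * ENNReal.ofReal (OT.X1.qq μ β h γ)) *
        MP_daa227_pr.mom μ γ (fun ω => Zp K (n - y) (en β h ω)) := by
  rw [MP_daa227_pr.mom_congr fun ω => Zp_cross K hj (en β h ω)]
  have hm : ∀ x y, Measurable fun ω : ℕ → ℝ => Zp K x (en β h ω) * (K (y - x) *
      Real.exp (en β h ω (y - 1))) * Zp K (n - y) (shift y (en β h ω)) := by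
    intro x y
    simp only [OT.X1.shift_en]
    exact ((meas_Zp K β h x).mul (((OT.X1.meas_en β h _).exp).const_mul _)).mul
      ((meas_Zp K β h _).comp (MP_daa227_pr.measurable_shift _))
  have hp : ∀ x ∈ range (j + 1), ∀ y ∈ Ioc j n, ∀ ω : ℕ → ℝ, 0 ≤ Zp K x (en β h ω) * (K (y - x) *
      Real.exp (en β h ω (y - 1))) * Zp K (n - y) (shift y (en β h ω)) := by
    intro x hx y hy ω
    rw [Finset.mem_range] at hx
    rw [Finset.mem_Ioc] at hy
    exact mul_nonneg (mul_nonneg (Zp_pos hK _ _).le (mul_nonneg (hK.pos _ (by omega)).le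
      (Real.exp_pos _).le)) (Zp_pos hK _ _).le
  refine (MP_daa227_pr.mom_sum_le h0 h1 _
    (fun x _ => Finset.measurable_sum _ fun y _ => hm x y)
    (fun x hx ω => Finset.sum_nonneg fun y hy => hp x hx y hy ω)).trans ?_
  refine Finset.sum_le_sum fun x hx => ?_
  refine (MP_daa227_pr.mom_sum_le h0 h1 _ (fun y _ => hm x y) (fun y hy ω => hp x hx y hy ω)).trans ?_
  refine Finset.sum_le_sum fun y hy => ?_
  rw [Finset.mem_range] at hx
  rw [Finset.mem_Ioc] at hy
  exact (mom_term hK hμ β h h0 (by omega) _).le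

theorem mom_fin {K : ℕ → ℝ} (hK : KerP K) {μ : Measure ℝ} [IsProbabilityMeasure μ]
    (hμ : ExpMom μ) (β h : ℝ) {γ : ℝ} (h0 : 0 < γ) (h1 : γ ≤ 1) (n : ℕ) :
    MP_daa227_pr.mom μ γ (fun ω => Zp K n (en β h ω)) ≠ ⊤ := by
  induction n using Nat.strong_induction_on with
  | _ n ih =>
    rcases Nat.eq_zero_or_pos n with rfl | hn
    · simp only [Zp_zero, MP_daa227_pr.mom_const, ENNReal.ofReal_one, ENNReal.one_rpow]
      exact ENNReal.one_ne_top
    · refine ne_top_of_le_ne_top ?_ (mom_cross hK hμ β h h0 h1 (j := 0) hn)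
      refine ENNReal.sum_ne_top.2 fun x hx => ENNReal.sum_ne_top.2 fun y hy => ?_
      rw [Finset.mem_range] at hx
      rw [Finset.mem_Ioc] at hy
      exact ENNReal.mul_ne_top (ENNReal.mul_ne_top (ih x (by omega))
        (ENNReal.mul_ne_top ENNReal.ofReal_ne_top ENNReal.ofReal_ne_top)) (ih _ (by omega))

theorem mom_toReal {K : ℕ → ℝ} (hK : KerP K) {μ : Measure ℝ} [IsProbabilityMeasure μ]
    (β h : ℝ) {γ : ℝ} (n : ℕ) :
    ∫ ω, Zp K n (en β h ω) ^ γ ∂seqLaw μ =
      (MP_daa227_pr.mom μ γ (fun ω => Zp K n (en β h ω))).toReal := by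
  rw [integral_eq_lintegral_of_nonneg_ae]
  · unfold MP_daa227_pr.mom
    congr 2
    funext ω
    rw [ENNReal.ofReal_rpow_of_pos (Zp_pos hK _ _)]
  · exact ae_of_all _ fun ω => Real.rpow_nonneg (Zp_pos hK _ _).le _
  · exact ((meas_Zp K β h n).pow_const γ).aestronglyMeasurable

theorem sum_Ioc_flip {M : Type*} [AddCommMonoid M] (f : ℕ → M) {n k : ℕ} (hk : k ≤ n) :
    ∑ y ∈ Ioc (n - k) n, f y = ∑ j ∈ range k, f (n - j) := by
  refine Finset.sum_bij' (fun y _ => n - y) (fun j _ => n - j) ?_ ?_ ?_ ?_ ?_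
  · intro y hy
    rw [Finset.mem_Ioc] at hy
    rw [Finset.mem_range]
    omega
  · intro j hj
    rw [Finset.mem_range] at hj
    rw [Finset.mem_Ioc]
    omega
  · intro y hy
    rw [Finset.mem_Ioc] at hy
    omega
  · intro j hj
    rw [Finset.mem_range] at hj
    omega
  · intro y hy
    rw [Finset.mem_Ioc] at hy
    congr 1
    omega

theorem tail_le {K : ℕ → ℝ} (hK : KerP K) {γ : ℝ} (hs : Summable (fun n => K n ^ γ)) {n k j : ℕ}
    (hk : k ≤ n) (hj : j < k) :
    ∑ x ∈ range (n - k + 1), K (n - j - x) ^ γ ≤ ∑' m, K (m + (k - j)) ^ γ := by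
  have hs2 : Summable (fun m => K (m + (k - j)) ^ γ) :=
    (summable_nat_add_iff (f := fun n => K n ^ γ) (k - j)).2 hs
  have h1 : ∑ x ∈ range (n - k + 1), K (n - j - x) ^ γ =
      ∑ x ∈ range (n - k + 1), K (x + (k - j)) ^ γ := by
    rw [← Finset.sum_range_reflect (fun x => K (x + (k - j)) ^ γ)]
    refine Finset.sum_congr rfl fun x hx => ?_
    rw [Finset.mem_range] at hx
    congr 2
    omega
  rw [h1]
  exact hs2.sum_le_tsum _ fun m _ => Real.rpow_nonneg (hK.pos _ (by omega)).le _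

theorem mom_bound {K : ℕ → ℝ} (hK : KerP K) {μ : Measure ℝ} [IsProbabilityMeasure μ]
    (hμ : ExpMom μ) {β h γ : ℝ} (h0 : 0 < γ) (h1 : γ ≤ 1) (hs : Summable (fun n => K n ^ γ))
    {k : ℕ} (hk : 1 ≤ k) (A : ℕ → ℝ)
    (hA : ∀ j < k, ∫ ω, Zp K j (en β h ω) ^ γ ∂seqLaw μ ≤ A j)
    (hsum : (∫ x, Real.exp (γ * (β * x - h)) ∂μ) *
      ∑ j ∈ range k, (∑' n, K (n + (k - j)) ^ γ) * A j ≤ 1) :
    ∃ B : ENNReal, B ≠ ⊤ ∧ ∀ n, MP_daa227_pr.mom μ γ (fun ω => Zp K n (en β h ω)) ≤ B := by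
  classical
  have hAm : ∀ j < k, MP_daa227_pr.mom μ γ (fun ω => Zp K j (en β h ω)) ≤
      ENNReal.ofReal (A j) := by
    intro j hj
    have h2 := hA j hj
    rw [mom_toReal hK] at h2
    rw [← ENNReal.ofReal_toReal (mom_fin hK hμ β h h0 h1 j)]
    exact ENNReal.ofReal_le_ofReal h2
  have hA0 : ∀ j < k, 0 ≤ A j := by
    intro j hj
    refine le_trans ?_ (hA j hj)
    exact integral_nonneg fun ω => Real.rpow_nonneg (Zp_pos hK _ _).le _
  have hq0 : 0 ≤ OT.X1.qq μ β h γ := integral_nonneg fun _ => (Real.exp_pos _).le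
  have ht0 : ∀ j < k, 0 ≤ ∑' n, K (n + (k - j)) ^ γ := fun j hj =>
    tsum_nonneg fun m => Real.rpow_nonneg (hK.pos _ (by omega)).le _
  refine ⟨∑ i ∈ range k, MP_daa227_pr.mom μ γ (fun ω => Zp K i (en β h ω)), ?_, ?_⟩
  · exact ENNReal.sum_ne_top.2 fun i _ => mom_fin hK hμ β h h0 h1 i
  intro n
  set B := ∑ i ∈ range k, MP_daa227_pr.mom μ γ (fun ω => Zp K i (en β h ω)) with hB
  induction n using Nat.strong_induction_on with
  | _ n ih =>
    rcases lt_or_ge n k with hn | hn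
    · exact Finset.single_le_sum (f := fun i => MP_daa227_pr.mom μ γ (fun ω => Zp K i (en β h ω)))
        (fun _ _ => zero_le) (Finset.mem_range.2 hn)
    · refine (mom_cross hK hμ β h h0 h1 (n := n) (j := n - k) (by omega)).trans ?_
      have e1 : ∀ x ∈ range (n - k + 1), ∑ y ∈ Ioc (n - k) n,
          MP_daa227_pr.mom μ γ (fun ω => Zp K x (en β h ω)) *
          (ENNReal.ofReal (K (y - x) ^ γ) * ENNReal.ofReal (OT.X1.qq μ β h γ)) *
          MP_daa227_pr.mom μ γ (fun ω => Zp K (n - y) (en β h ω)) ≤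
          ∑ j ∈ range k, B * ENNReal.ofReal (OT.X1.qq μ β h γ * (K (n - j - x) ^ γ * A j)) := by
        intro x hx
        rw [Finset.mem_range] at hx
        rw [sum_Ioc_flip _ hn]
        refine Finset.sum_le_sum fun j hj => ?_
        rw [Finset.mem_range] at hj
        have e2 : n - (n - j) = j := by omega
        rw [e2]
        have hKn : 0 ≤ K (n - j - x) ^ γ := Real.rpow_nonneg (hK.pos _ (by omega)).le _
        calc MP_daa227_pr.mom μ γ (fun ω => Zp K x (en β h ω)) *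
              (ENNReal.ofReal (K (n - j - x) ^ γ) * ENNReal.ofReal (OT.X1.qq μ β h γ)) *
              MP_daa227_pr.mom μ γ (fun ω => Zp K j (en β h ω))
            ≤ B * (ENNReal.ofReal (K (n - j - x) ^ γ) * ENNReal.ofReal (OT.X1.qq μ β h γ)) *
              ENNReal.ofReal (A j) := by
              gcongr
              · exact ih x (by omega)
              · exact hAm j hj
          _ = B * ENNReal.ofReal (OT.X1.qq μ β h γ * (K (n - j - x) ^ γ * A j)) := by
              rw [ENNReal.ofReal_mul hq0, ENNReal.ofReal_mul hKn]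
              ring
      refine (Finset.sum_le_sum e1).trans ?_
      rw [Finset.sum_comm]
      simp_rw [← Finset.mul_sum]
      have e3 : ∑ j ∈ range k, ∑ x ∈ range (n - k + 1),
          ENNReal.ofReal (OT.X1.qq μ β h γ * (K (n - j - x) ^ γ * A j)) ≤ 1 := by
        have e4 : ∀ j ∈ range k, ∑ x ∈ range (n - k + 1),
            ENNReal.ofReal (OT.X1.qq μ β h γ * (K (n - j - x) ^ γ * A j)) ≤
            ENNReal.ofReal (OT.X1.qq μ β h γ * ((∑' m, K (m + (k - j)) ^ γ) * A j)) := by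
          intro j hj
          rw [Finset.mem_range] at hj
          rw [← ENNReal.ofReal_sum_of_nonneg]
          · refine ENNReal.ofReal_le_ofReal ?_
            rw [← Finset.mul_sum, ← Finset.sum_mul]
            exact mul_le_mul_of_nonneg_left (mul_le_mul_of_nonneg_right (tail_le hK hs hn hj)
              (hA0 j hj)) hq0
          · intro x hx
            rw [Finset.mem_range] at hx
            exact mul_nonneg hq0 (mul_nonneg (Real.rpow_nonneg (hK.pos _ (by omega)).le _)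
              (hA0 j hj))
        refine (Finset.sum_le_sum e4).trans ?_
        rw [← ENNReal.ofReal_sum_of_nonneg, ← Finset.mul_sum, ← ENNReal.ofReal_one]
        · exact ENNReal.ofReal_le_ofReal hsum
        · intro j hj
          rw [Finset.mem_range] at hj
          exact mul_nonneg hq0 (mul_nonneg (ht0 j hj) (hA0 j hj))
      calc B * ∑ j ∈ range k, ∑ x ∈ range (n - k + 1),
            ENNReal.ofReal (OT.X1.qq μ β h γ * (K (n - j - x) ^ γ * A j)) ≤ B * 1 := by
            gcongr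
        _ = B := mul_one B

end R2

theorem frac_bound {K : ℕ → ℝ} (hK : KerP K) (μ : Measure ℝ) [IsProbabilityMeasure μ]
    (hμ : ExpMom μ) {β h γ : ℝ} (hγ0 : 0 < γ) (hγ1 : γ < 1) (hs : Summable (fun n => K n ^ γ))
    {k : ℕ} (hk : 1 ≤ k) (A : ℕ → ℝ)
    (hA : ∀ j < k, ∫ ω, Zp K j (en β h ω) ^ γ ∂seqLaw μ ≤ A j)
    (hsum : (∫ x, Real.exp (γ * (β * x - h)) ∂μ) *
      ∑ j ∈ range k, (∑' n, K (n + (k - j)) ^ γ) * A j ≤ 1) :
    ∃ B : ℝ, ∀ n, LP K μ β h n ≤ B := by
  obtain ⟨B, hB, hb⟩ := R2.mom_bound hK hμ hγ0 hγ1.le hs hk A hA hsum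
  refine ⟨max 0 (Real.log (B.toReal + 1) / γ), fun n => ?_⟩
  unfold LP
  by_cases hi : Integrable (fun ω => Real.log (Zp K n (en β h ω))) (seqLaw μ)
  · have h2 := (MP_daa227_pr.exp_le_mom hγ0.le (R2.meas_Zp K β h n) (fun ω => Zp_pos hK _ _)
      hi).trans (hb n)
    rw [← ENNReal.ofReal_toReal hB, ENNReal.ofReal_le_ofReal_iff ENNReal.toReal_nonneg] at h2
    have h3 : Real.exp (γ * ∫ ω, Real.log (Zp K n (en β h ω)) ∂seqLaw μ) ≤ B.toReal + 1 := by
      linarith
    rw [← Real.le_log_iff_exp_le (by positivity)] at h3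
    refine le_max_of_le_right ?_
    rw [le_div_iff₀ hγ0, mul_comm]
    exact h3
  · rw [integral_undef hi]
    exact le_max_left _ _

end

end Pool.Agent.OTP
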