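import Mathlib
import Pool.Agent.Lib.MP_daa227_pr_OTP.Defs
import Pool.Agent.Lib.MP_daa227_pr_OT.KConv

/-!
# A renewal estimate
-/

namespace Pool.Agent.OTP

open MeasureTheory ProbabilityTheory Finset Filter Topology
open MP_daa227_pr (Chain Zk Zf K0 shift seqLaw ExpMom)
open Pool.Agent.OT (Kp Km en tr ZE AE pE cE EFam gP LE ME RE dy ins lmg)

noncomputable section

namespace R1

/-! ### Renewal sequences with a log-convex kernel -/

/-- a renewal sequence with a log-convex kernel has nondecreasing ratios -/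
theorem ratio_mono {f v : ℕ → ℝ} (hf : ∀ k, 0 < f k) (hv : ∀ k, 0 < v k)
    (hfc : ∀ n k, k < n → f (k + 1) * f n ≤ f k * f (n + 1))
    (hrec : ∀ n, v (n + 1) = ∑ k ∈ range (n + 1), f k * v (n - k)) (hv0 : v 0 = 1) :
    ∀ n m, m ≤ n → v n * v (m + 1) ≤ v (n + 1) * v m := by
  intro n
  induction n with
  | zero =>
    intro m hm
    have h1 : m = 0 := by omega
    subst h1
    rw [mul_comm]
  | succ n ih =>
    -- the differences
    have hD : ∀ k, k ≤ n → 0 ≤ v (n + 1) * v (n - k) - v n * v (n + 1 - k) := by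
      intro k hk
      have h1 := ih (n - k) (by omega)
      have h2 : n - k + 1 = n + 1 - k := by omega
      rw [h2] at h1
      linarith
    have hD0 : v (n + 1) * v (n - 0) - v n * v (n + 1 - 0) = 0 := by
      rw [Nat.sub_zero, Nat.sub_zero]
      ring
    -- key identity
    have key : v (n + 1) * v (n + 1) ≤ v n * v (n + 2) := by
      have e1 : v (n + 1) * v (n + 1) - v n * v (n + 2) =
          (∑ k ∈ range (n + 1), f k * (v (n + 1) * v (n - k) - v n * v (n + 1 - k))) -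
            f (n + 1) * v n := by
        have h1 : v (n + 1) * v (n + 1) =
            ∑ k ∈ range (n + 1), f k * (v (n + 1) * v (n - k)) := by
          conv_lhs => rw [show v (n + 1) * v (n + 1) = v (n + 1) *
            ∑ k ∈ range (n + 1), f k * v (n - k) by rw [← hrec n]]
          rw [Finset.mul_sum]
          refine Finset.sum_congr rfl fun k _ => by ring
        have h2 : v n * v (n + 2) =
            (∑ k ∈ range (n + 1), f k * (v n * v (n + 1 - k))) + f (n + 1) * v n := by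
          rw [hrec (n + 1), Finset.sum_range_succ, Nat.sub_self, hv0, mul_add, Finset.mul_sum]
          congr 1
          · refine Finset.sum_congr rfl fun k _ => by ring
          · ring
        rw [h1, h2]
        rw [← sub_sub, ← Finset.sum_sub_distrib]
        congr 1
        refine Finset.sum_congr rfl fun k _ => by ring
      have e2 : ∑ k ∈ range (n + 1), f k * (v (n + 1) * v (n - k) - v n * v (n + 1 - k)) =
          ∑ k ∈ range n, f (k + 1) *
            (v (n + 1) * v (n - (k + 1)) - v n * v (n + 1 - (k + 1))) := by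
        rw [Finset.sum_range_succ', hD0, mul_zero, add_zero]
      have e5 : ∑ k ∈ range n, f (k + 1) *
          (v (n + 1) * v (n - (k + 1)) - v n * v (n + 1 - (k + 1))) ≤ f (n + 1) * v n := by
        rcases Nat.eq_zero_or_pos n with hn | hn
        · subst hn
          rw [Finset.sum_range_zero]
          exact (mul_pos (hf _) (hv _)).le
        have e3 : f n * v n = ∑ k ∈ range n, f k *
            (v (n + 1) * v (n - (k + 1)) - v n * v (n + 1 - (k + 1))) := by
          obtain ⟨q, rfl⟩ : ∃ q, n = q + 1 := ⟨n - 1, by omega⟩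
          have h1 : v (q + 1 + 1) * v (q + 1) =
              ∑ k ∈ range (q + 1), f k * (v (q + 1 + 1) * v (q + 1 - (k + 1))) := by
            conv_lhs => rw [hrec q]
            rw [Finset.mul_sum]
            refine Finset.sum_congr rfl fun k _ => ?_
            rw [show q + 1 - (k + 1) = q - k by omega]
            ring
          have h2 : v (q + 1) * v (q + 1 + 1) =
              (∑ k ∈ range (q + 1), f k * (v (q + 1) * v (q + 1 + 1 - (k + 1)))) +
                f (q + 1) * v (q + 1) := by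
            conv_lhs => rw [hrec (q + 1), Finset.sum_range_succ, Nat.sub_self, hv0, mul_add,
              Finset.mul_sum]
            congr 1
            · refine Finset.sum_congr rfl fun k _ => ?_
              rw [show q + 1 + 1 - (k + 1) = q + 1 - k by omega]
              ring
            · ring
          have h3 : ∑ k ∈ range (q + 1), f k *
              (v (q + 1 + 1) * v (q + 1 - (k + 1)) - v (q + 1) * v (q + 1 + 1 - (k + 1))) =
              (∑ k ∈ range (q + 1), f k * (v (q + 1 + 1) * v (q + 1 - (k + 1)))) -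
              ∑ k ∈ range (q + 1), f k * (v (q + 1) * v (q + 1 + 1 - (k + 1))) := by
            rw [← Finset.sum_sub_distrib]
            refine Finset.sum_congr rfl fun k _ => by ring
          rw [h3, ← h1]
          linarith [mul_comm (v (q + 1)) (v (q + 1 + 1))]
        have e4 : f n * (∑ k ∈ range n, f (k + 1) *
            (v (n + 1) * v (n - (k + 1)) - v n * v (n + 1 - (k + 1)))) ≤
            f (n + 1) * (f n * v n) := by
          rw [e3, Finset.mul_sum, Finset.mul_sum]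
          refine Finset.sum_le_sum fun k hk => ?_
          rw [Finset.mem_range] at hk
          have h1 := hD (k + 1) (by omega)
          have h2 := hfc n k hk
          have h3 := mul_le_mul_of_nonneg_right h2 h1
          calc _ = f (k + 1) * f n *
                (v (n + 1) * v (n - (k + 1)) - v n * v (n + 1 - (k + 1))) := by ring
            _ ≤ _ := h3
            _ = _ := by ring
        have h1 : f (n + 1) * (f n * v n) = f n * (f (n + 1) * v n) := by ring
        rw [h1] at e4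
        exact le_of_mul_le_mul_left e4 (hf n)
      rw [e2] at e1
      linarith
    intro m hm
    rcases Nat.lt_or_ge n m with h | h
    · have h1 : m = n + 1 := by omega
      subst h1
      rw [mul_comm]
    · have h1 := ih m h
      have h2 := hv n
      have h3 := hv m
      have h4 := hv (n + 1)
      have h5 : v n * (v (n + 1) * v (m + 1)) ≤ v n * (v (n + 1 + 1) * v m) := by
        calc v n * (v (n + 1) * v (m + 1)) = v (n + 1) * (v n * v (m + 1)) := by ring
          _ ≤ v (n + 1) * (v (n + 1) * v m) := mul_le_mul_of_nonneg_left h1 h4.le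
          _ = (v (n + 1) * v (n + 1)) * v m := by ring
          _ ≤ (v n * v (n + 2)) * v m := mul_le_mul_of_nonneg_right key h3.le
          _ = _ := by ring
      exact le_of_mul_le_mul_left h5 h2

/-! ### The partition function in a constant field -/

theorem zp_rec (K : ℕ → ℝ) (c : ℝ) (n : ℕ) : Zp K (n + 1) (fun _ => -c) =
    ∑ k ∈ range (n + 1), (K (k + 1) * Real.exp (-c)) * Zp K (n - k) (fun _ => -c) := by
  rw [Zp, Finset.sum_range]
  rfl

theorem zp_zero (K : ℕ → ℝ) (θ : ℕ → ℝ) : Zp K 0 θ = 1 := by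
  rw [Zp]

theorem zp_pos {K : ℕ → ℝ} (hK : KerP K) (c : ℝ) (n : ℕ) : 0 < Zp K n (fun _ => -c) := by
  induction n using Nat.strong_induction_on with
  | _ n ih =>
    rcases n with _ | n
    · rw [zp_zero]; exact one_pos
    · rw [zp_rec]
      refine Finset.sum_pos (fun k hk => ?_) ⟨0, by simp⟩
      have h1 := hK.pos (k + 1) (by omega)
      have h2 := ih (n - k) (by omega)
      have h3 := Real.exp_pos (-c)
      positivity

theorem sum_K_le {K : ℕ → ℝ} (hK : KerP K) (n : ℕ) : ∑ k ∈ range n, K (k + 1) ≤ 1 := by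
  have h1 : ∑ k ∈ range (n + 1), K k ≤ 1 :=
    sum_le_hasSum (range (n + 1)) (fun k _ => by
      rcases Nat.eq_zero_or_pos k with h | h
      · rw [h, hK.zero]
      · exact (hK.pos k h).le) hK.sum_one
  rw [Finset.sum_range_succ', hK.zero, add_zero] at h1
  exact h1

theorem zp_le_one {K : ℕ → ℝ} (hK : KerP K) {c : ℝ} (hc : 0 ≤ c) (n : ℕ) :
    Zp K n (fun _ => -c) ≤ 1 := by
  induction n using Nat.strong_induction_on with
  | _ n ih =>
    rcases n with _ | n
    · rw [zp_zero]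
    · rw [zp_rec]
      calc _ ≤ ∑ k ∈ range (n + 1), K (k + 1) := by
            refine Finset.sum_le_sum fun k hk => ?_
            have h1 := hK.pos (k + 1) (by omega)
            have h2 := ih (n - k) (by omega)
            have h3 : Real.exp (-c) ≤ 1 := by
              rw [Real.exp_le_one_iff]; linarith
            have h4 := zp_pos hK c (n - k)
            have h5 := Real.exp_pos (-c)
            have h6 : K (k + 1) * Real.exp (-c) ≤ K (k + 1) := by nlinarith
            calc _ ≤ K (k + 1) * 1 := mul_le_mul h6 h2 h4.le h1.le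
              _ = _ := mul_one _
        _ ≤ 1 := sum_K_le hK (n + 1)

end R1

theorem Zp_const_anti {K : ℕ → ℝ} (hK : KerP K) {c : ℝ} (hc : 0 ≤ c) (n : ℕ) :
    Zp K (n + 1) (fun _ => -c) ≤ Zp K n (fun _ => -c) := by
  have hv := R1.zp_pos hK c
  have hr := R1.ratio_mono (f := fun k => K (k + 1) * Real.exp (-c))
    (v := fun n => Zp K n (fun _ => -c))
    (fun k => mul_pos (hK.pos (k + 1) (by omega)) (Real.exp_pos _)) hv
    (fun m k hkm => by
      have h1 := hK.conv (k + 1) 1 (m - k) (by omega)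
      rw [show k + 1 + (m - k) = m + 1 by omega, show k + 1 + 1 + (m - k) = m + 1 + 1 by omega] at h1
      have h2 := Real.exp_pos (-c)
      have h3 := mul_le_mul_of_nonneg_right h1 (mul_pos h2 h2).le
      calc _ = K (k + 1 + 1) * K (m + 1) * (Real.exp (-c) * Real.exp (-c)) := by ring
        _ ≤ _ := h3
        _ = _ := by ring)
    (fun m => R1.zp_rec K c m) (R1.zp_zero K _)
  refine Pool.Agent.OT.K1.anti (f := fun n => Zp K n (fun _ => -c)) hv (fun k => ?_)
    (R1.zp_le_one hK hc) n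
  have h1 := hr (k + 1) k (by omega)
  calc Zp K (k + 1) (fun _ => -c) ^ 2 = Zp K (k + 1) (fun _ => -c) * Zp K (k + 1) (fun _ => -c) :=
        sq _
    _ ≤ Zp K (k + 1 + 1) (fun _ => -c) * Zp K k (fun _ => -c) := h1
    _ = _ := mul_comm _ _

theorem Zp_const_sum {K : ℕ → ℝ} (hK : KerP K) {c : ℝ} (hc : 0 < c) (n : ℕ) :
    ∑ j ∈ range n, Zp K j (fun _ => -c) ≤ 1 / (1 - Real.exp (-c)) := by
  have he : Real.exp (-c) < 1 := by rw [Real.exp_lt_one_iff]; linarith
  have he0 := Real.exp_pos (-c)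
  induction n with
  | zero =>
    rw [Finset.sum_range_zero]
    exact div_nonneg zero_le_one (by linarith)
  | succ n ih =>
    have h1 : ∑ j ∈ range (n + 1), Zp K j (fun _ => -c) =
        (∑ m ∈ range n, ∑ k ∈ range (m + 1),
          (K (k + 1) * Real.exp (-c)) * Zp K (m - k) (fun _ => -c)) + 1 := by
      rw [Finset.sum_range_succ', R1.zp_zero]
      congr 1
      exact Finset.sum_congr rfl fun m _ => R1.zp_rec K c m
    have h2 : ∑ m ∈ range n, ∑ k ∈ range (m + 1),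
          (K (k + 1) * Real.exp (-c)) * Zp K (m - k) (fun _ => -c) =
        ∑ k ∈ range n, ∑ j ∈ range (n - k),
          (K (k + 1) * Real.exp (-c)) * Zp K j (fun _ => -c) := by
      exact Finset.sum_range_diag_flip n
        (fun k j => (K (k + 1) * Real.exp (-c)) * Zp K j (fun _ => -c))
    have h3 : ∑ k ∈ range n, ∑ j ∈ range (n - k),
          (K (k + 1) * Real.exp (-c)) * Zp K j (fun _ => -c) ≤
        ∑ k ∈ range n, (K (k + 1) * Real.exp (-c)) * ∑ j ∈ range n, Zp K j (fun _ => -c) := by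
      refine Finset.sum_le_sum fun k _ => ?_
      rw [← Finset.mul_sum]
      refine mul_le_mul_of_nonneg_left ?_
        (mul_pos (hK.pos (k + 1) (by omega)) he0).le
      refine Finset.sum_le_sum_of_subset_of_nonneg ?_ fun j _ _ => (R1.zp_pos hK c j).le
      exact Finset.range_mono (by omega)
    have h4 : ∑ k ∈ range n, (K (k + 1) * Real.exp (-c)) * ∑ j ∈ range n, Zp K j (fun _ => -c) =
        (∑ k ∈ range n, K (k + 1)) * (Real.exp (-c) * ∑ j ∈ range n, Zp K j (fun _ => -c)) := by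
      rw [Finset.sum_mul]
      exact Finset.sum_congr rfl fun k _ => by ring
    have h5 := R1.sum_K_le hK n
    have h6 : 0 ≤ ∑ j ∈ range n, Zp K j (fun _ => -c) :=
      Finset.sum_nonneg fun j _ => (R1.zp_pos hK c j).le
    have h7 : (∑ k ∈ range n, K (k + 1)) *
        (Real.exp (-c) * ∑ j ∈ range n, Zp K j (fun _ => -c)) ≤
        1 * (Real.exp (-c) * (1 / (1 - Real.exp (-c)))) :=
      mul_le_mul h5 (mul_le_mul_of_nonneg_left ih he0.le) (mul_nonneg he0.le h6) zero_le_one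
    have h8 : 1 * (Real.exp (-c) * (1 / (1 - Real.exp (-c)))) + 1 = 1 / (1 - Real.exp (-c)) := by
      have : 1 - Real.exp (-c) ≠ 0 := by linarith
      field_simp
      ring
    rw [h1, h2]
    linarith

namespace R1

/-! ### Sums of powers -/

theorem bern {b : ℝ} (hb0 : 0 < b) (hb1 : b < 1) {x : ℝ} (hx : 0 ≤ x) :
    x ^ b ≤ (x + 1) ^ b - b * (x + 1) ^ (b - 1) := by
  have hx1 : 0 < x + 1 := by linarith
  have h1 := rpow_one_add_le_one_add_mul_self (s := -(1 / (x + 1))) (by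
    rw [neg_le_neg_iff, div_le_one hx1]; linarith) hb0.le hb1.le
  have h2 : (1 + -(1 / (x + 1))) = x / (x + 1) := by field_simp; ring
  rw [h2] at h1
  have h3 : x ^ b = (x + 1) ^ b * (x / (x + 1)) ^ b := by
    rw [← Real.mul_rpow hx1.le (by positivity)]
    congr 1
    field_simp
  have h4 : (x + 1) ^ (b - 1) = (x + 1) ^ b * (1 / (x + 1)) := by
    rw [Real.rpow_sub_one hx1.ne']
    ring
  have h5 : 0 < (x + 1) ^ b := Real.rpow_pos_of_pos hx1 _
  rw [h3, h4]
  nlinarith [mul_le_mul_of_nonneg_left h1 h5.le]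

theorem sum_rpow_le {b : ℝ} (hb0 : 0 < b) (hb1 : b < 1) (k : ℕ) :
    ∑ j ∈ range k, ((j : ℝ) + 1) ^ (-b) ≤ (k : ℝ) ^ (1 - b) / (1 - b) := by
  have hb : 0 < 1 - b := by linarith
  induction k with
  | zero =>
    rw [Finset.sum_range_zero]
    positivity
  | succ k ih =>
    rw [Finset.sum_range_succ]
    have h1 := bern hb (by linarith) (Nat.cast_nonneg (α := ℝ) k)
    rw [show 1 - b - 1 = -b by ring] at h1
    have h2 : (k : ℝ) ^ (1 - b) / (1 - b) ≤
        ((k : ℝ) + 1) ^ (1 - b) / (1 - b) - ((k : ℝ) + 1) ^ (-b) := by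
      rw [div_le_iff₀ hb, sub_mul, div_mul_cancel₀ _ hb.ne']
      linarith
    push_cast
    linarith

theorem tail_step {a : ℝ} (ha0 : 0 < a) (ha1 : a < 1) {x : ℝ} (hx : 1 ≤ x) :
    x ^ (-(1 + a)) ≤ 4 / a * (x ^ (-a) - (x + 1) ^ (-a)) := by
  have hx0 : 0 < x := by linarith
  have hx1 : 0 < x + 1 := by linarith
  have h1 := bern ha0 ha1 hx0.le
  have h2 : 0 < x ^ a := Real.rpow_pos_of_pos hx0 _
  have h3 : 0 < (x + 1) ^ a := Real.rpow_pos_of_pos hx1 _
  have h4 : (x + 1) ^ (a - 1) = (x + 1) ^ a / (x + 1) := Real.rpow_sub_one hx1.ne' _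
  have h5 : x ^ (-(1 + a)) = 1 / (x ^ a * x) := by
    rw [Real.rpow_neg hx0.le, Real.rpow_add hx0, Real.rpow_one, one_div, mul_comm]
  have h6 : x ^ (-a) = 1 / x ^ a := by rw [Real.rpow_neg hx0.le, one_div]
  have h7 : (x + 1) ^ (-a) = 1 / (x + 1) ^ a := by rw [Real.rpow_neg hx1.le, one_div]
  rw [h5, h6, h7]
  rw [h4] at h1
  -- 1/x^a - 1/(x+1)^a = ((x+1)^a - x^a)/(x^a (x+1)^a) ≥ a/(x^a (x+1))
  have h8 : 1 / x ^ a - 1 / (x + 1) ^ a = ((x + 1) ^ a - x ^ a) / (x ^ a * (x + 1) ^ a) := by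
    field_simp
  have h9 : a / (x ^ a * (x + 1)) ≤ 1 / x ^ a - 1 / (x + 1) ^ a := by
    rw [h8, div_le_div_iff₀ (by positivity) (by positivity)]
    have h10 : a * (x + 1) ^ a ≤ ((x + 1) ^ a - x ^ a) * (x + 1) := by
      have h11 : a * ((x + 1) ^ a / (x + 1)) * (x + 1) = a * (x + 1) ^ a := by
        field_simp
      nlinarith
    nlinarith
  have h10 : 1 / (x ^ a * x) ≤ 4 / a * (a / (x ^ a * (x + 1))) := by
    rw [show 4 / a * (a / (x ^ a * (x + 1))) = 4 / (x ^ a * (x + 1)) by field_simp]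
    rw [div_le_div_iff₀ (by positivity) (by positivity)]
    nlinarith
  calc _ ≤ 4 / a * (a / (x ^ a * (x + 1))) := h10
    _ ≤ _ := mul_le_mul_of_nonneg_left h9 (by positivity)

theorem tail_sum {a : ℝ} (ha0 : 0 < a) (ha1 : a < 1) {i : ℕ} (hi : 1 ≤ i) (N : ℕ) :
    ∑ n ∈ range N, ((n + i : ℕ) : ℝ) ^ (-(1 + a)) ≤ 4 / a * (i : ℝ) ^ (-a) := by
  have h1 : ∑ n ∈ range N, ((n + i : ℕ) : ℝ) ^ (-(1 + a)) ≤
      4 / a * ((i : ℝ) ^ (-a) - ((N + i : ℕ) : ℝ) ^ (-a)) := by
    induction N with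
    | zero => simp
    | succ N ih =>
      rw [Finset.sum_range_succ]
      have h2 := tail_step ha0 ha1 (x := ((N + i : ℕ) : ℝ)) (by
        exact_mod_cast (by omega : 1 ≤ N + i))
      have h3 : ((N + i : ℕ) : ℝ) + 1 = ((N + 1 + i : ℕ) : ℝ) := by push_cast; ring
      rw [h3] at h2
      have h4 : 4 / a * ((i : ℝ) ^ (-a) - ((N + 1 + i : ℕ) : ℝ) ^ (-a)) =
        4 / a * ((i : ℝ) ^ (-a) - ((N + i : ℕ) : ℝ) ^ (-a)) +
        4 / a * (((N + i : ℕ) : ℝ) ^ (-a) - ((N + 1 + i : ℕ) : ℝ) ^ (-a)) := by ring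
      rw [h4]
      linarith
  have h2 : 0 ≤ ((N + i : ℕ) : ℝ) ^ (-a) := Real.rpow_nonneg (Nat.cast_nonneg _) _
  have h3 : 4 / a * ((i : ℝ) ^ (-a) - ((N + i : ℕ) : ℝ) ^ (-a)) ≤ 4 / a * (i : ℝ) ^ (-a) :=
    mul_le_mul_of_nonneg_left (by linarith) (by positivity)
  exact h1.trans h3

theorem exp_bound {x : ℝ} (hx0 : 0 < x) (hx1 : x ≤ 1) : 1 / (1 - Real.exp (-x)) ≤ 2 / x := by
  have h1 : Real.exp (-x) ≤ 1 / (1 + x) := by
    rw [Real.exp_neg, one_div]
    apply inv_anti₀ (by linarith)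
    linarith [Real.add_one_le_exp x]
  have h2 : x / 2 ≤ 1 - Real.exp (-x) := by
    have h3 : x / 2 ≤ 1 - 1 / (1 + x) := by
      have h4 : 1 - 1 / (1 + x) = x / (1 + x) := by
        have : (1 + x) ≠ 0 := by linarith
        field_simp
        ring
      rw [h4, div_le_div_iff₀ (by norm_num) (by linarith)]
      nlinarith
    linarith
  calc 1 / (1 - Real.exp (-x)) ≤ 1 / (x / 2) := one_div_le_one_div_of_le (by positivity) h2
    _ = 2 / x := by field_simp

/-- convolution of two powers -/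
theorem conv_sum {a g : ℝ} (ha0 : 0 < a) (ha1 : a < 1) (hg0 : 0 < g) (hg1 : g < 1) {k : ℕ}
    (hk : 1 ≤ k) :
    ∑ j ∈ range k, ((k - j : ℕ) : ℝ) ^ (-a) * ((j : ℝ) + 1) ^ (-g) ≤
      (2 / (1 - g) + 2 / (1 - a)) * (k : ℝ) ^ (1 - a - g) := by
  have hk0 : (0 : ℝ) < k := by exact_mod_cast hk
  have key : ∀ j ∈ range k, ((k - j : ℕ) : ℝ) ^ (-a) * ((j : ℝ) + 1) ^ (-g) ≤
      2 * (k : ℝ) ^ (-a) * ((j : ℝ) + 1) ^ (-g) +
        2 * (k : ℝ) ^ (-g) * ((k - j : ℕ) : ℝ) ^ (-a) := by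
    intro j hj
    rw [Finset.mem_range] at hj
    have h1 : (0 : ℝ) < ((k - j : ℕ) : ℝ) := by exact_mod_cast (by omega : 0 < k - j)
    have h2 : (0 : ℝ) < (j : ℝ) + 1 := by positivity
    have h3 : 0 ≤ ((k - j : ℕ) : ℝ) ^ (-a) := Real.rpow_nonneg h1.le _
    have h4 : 0 ≤ ((j : ℝ) + 1) ^ (-g) := Real.rpow_nonneg h2.le _
    have h5 : 0 ≤ (k : ℝ) ^ (-a) := Real.rpow_nonneg hk0.le _
    have h6 : 0 ≤ (k : ℝ) ^ (-g) := Real.rpow_nonneg hk0.le _
    have half : ∀ {y e : ℝ}, 0 < e → e < 1 → 0 < y → (k : ℝ) / 2 ≤ y →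
        y ^ (-e) ≤ 2 * (k : ℝ) ^ (-e) := by
      intro y e he0 he1 hy0 hy
      have h7 : y ^ (-e) ≤ ((k : ℝ) / 2) ^ (-e) :=
        Real.rpow_le_rpow_of_nonpos (by positivity) hy (by linarith)
      have h8 : ((k : ℝ) / 2) ^ (-e) = 2 ^ e * (k : ℝ) ^ (-e) := by
        rw [Real.div_rpow hk0.le (by norm_num), Real.rpow_neg (by norm_num : (0 : ℝ) ≤ 2)]
        field_simp
      have h9 : (2 : ℝ) ^ e ≤ 2 := by
        calc (2 : ℝ) ^ e ≤ 2 ^ (1 : ℝ) :=
              Real.rpow_le_rpow_of_exponent_le (by norm_num) he1.le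
          _ = 2 := Real.rpow_one _
      have h10 : 0 ≤ (k : ℝ) ^ (-e) := Real.rpow_nonneg hk0.le _
      rw [h8] at h7
      exact h7.trans (mul_le_mul_of_nonneg_right h9 h10)
    rcases le_total (2 * j) k with h | h
    · have h7 : (k : ℝ) / 2 ≤ ((k - j : ℕ) : ℝ) := by
        rw [Nat.cast_sub hj.le]
        have : (2 : ℝ) * j ≤ k := by exact_mod_cast h
        linarith
      have h8 := half ha0 ha1 h1 h7
      have h9 := mul_le_mul_of_nonneg_right h8 h4
      have h10 : 0 ≤ 2 * (k : ℝ) ^ (-g) * ((k - j : ℕ) : ℝ) ^ (-a) := by positivity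
      linarith
    · have h7 : (k : ℝ) / 2 ≤ (j : ℝ) + 1 := by
        have : (k : ℝ) ≤ 2 * j := by exact_mod_cast h
        linarith
      have h8 := half hg0 hg1 h2 h7
      have h9 := mul_le_mul_of_nonneg_left h8 h3
      have h10 : 0 ≤ 2 * (k : ℝ) ^ (-a) * ((j : ℝ) + 1) ^ (-g) := by positivity
      nlinarith
  have hs1 := sum_rpow_le hg0 hg1 k
  have hs2 : ∑ j ∈ range k, ((k - j : ℕ) : ℝ) ^ (-a) ≤ (k : ℝ) ^ (1 - a) / (1 - a) := by
    rw [← Finset.sum_range_reflect]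
    refine le_trans (le_of_eq (Finset.sum_congr rfl fun j hj => ?_)) (sum_rpow_le ha0 ha1 k)
    rw [Finset.mem_range] at hj
    rw [show k - (k - 1 - j) = j + 1 by omega]
    push_cast
    rfl
  have h5 : 0 ≤ (k : ℝ) ^ (-a) := Real.rpow_nonneg hk0.le _
  have h6 : 0 ≤ (k : ℝ) ^ (-g) := Real.rpow_nonneg hk0.le _
  have e1 : (k : ℝ) ^ (-a) * (k : ℝ) ^ (1 - g) = (k : ℝ) ^ (1 - a - g) := by
    rw [← Real.rpow_add hk0]; congr 1; ring
  have e2 : (k : ℝ) ^ (-g) * (k : ℝ) ^ (1 - a) = (k : ℝ) ^ (1 - a - g) := by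
    rw [← Real.rpow_add hk0]; congr 1; ring
  calc _ ≤ ∑ j ∈ range k, (2 * (k : ℝ) ^ (-a) * ((j : ℝ) + 1) ^ (-g) +
        2 * (k : ℝ) ^ (-g) * ((k - j : ℕ) : ℝ) ^ (-a)) := Finset.sum_le_sum key
    _ = 2 * (k : ℝ) ^ (-a) * (∑ j ∈ range k, ((j : ℝ) + 1) ^ (-g)) +
        2 * (k : ℝ) ^ (-g) * ∑ j ∈ range k, ((k - j : ℕ) : ℝ) ^ (-a) := by
      rw [Finset.sum_add_distrib, Finset.mul_sum, Finset.mul_sum]
    _ ≤ 2 * (k : ℝ) ^ (-a) * ((k : ℝ) ^ (1 - g) / (1 - g)) +
        2 * (k : ℝ) ^ (-g) * ((k : ℝ) ^ (1 - a) / (1 - a)) :=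
      add_le_add (mul_le_mul_of_nonneg_left hs1 (by positivity))
        (mul_le_mul_of_nonneg_left hs2 (by positivity))
    _ = 2 / (1 - g) * ((k : ℝ) ^ (-a) * (k : ℝ) ^ (1 - g)) +
        2 / (1 - a) * ((k : ℝ) ^ (-g) * (k : ℝ) ^ (1 - a)) := by ring
    _ = _ := by rw [e1, e2]; ring

end R1

theorem ren_est {K : ℕ → ℝ} (hK : KerP K) {α : ℝ} (hα : 1 / 2 < α) (hα1 : α < 1)
    (hup : ∃ C : ℝ, ∀ k : ℕ, 1 ≤ k → K k ≤ C * (k : ℝ) ^ (-(1 + α))) :
    ∃ γ : ℝ, 0 < γ ∧ γ < 1 ∧ Summable (fun n => K n ^ γ) ∧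
      ∀ c A : ℝ, 0 < c → 0 ≤ A → ∀ k₀ : ℕ, ∃ k : ℕ, k₀ ≤ k ∧ 1 ≤ k ∧
        A * ∑ j ∈ range k, (∑' n, K (n + (k - j)) ^ γ) *
          Zp K j (fun _ => -(c / Real.sqrt k)) ^ γ ≤ 1 := by
  obtain ⟨C, hC⟩ := hup
  have hC0 : 0 < C := by
    have h1 := hC 1 le_rfl
    rw [Nat.cast_one, Real.one_rpow, mul_one] at h1
    exact (hK.pos 1 le_rfl).trans_le h1
  have hs : 0 < α + 3 / 2 := by linarith
  have hγ1 : 2 / (α + 3 / 2) < 1 := by rw [div_lt_one hs]; linarith
  obtain ⟨γ, hγl, hγu⟩ := exists_between hγ1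
  have hγ0 : 0 < γ := lt_trans (by positivity) hγl
  have hγs : 2 < γ * (α + 3 / 2) := by rwa [div_lt_iff₀ hs] at hγl
  set a : ℝ := (1 + α) * γ - 1 with ha
  have ha0 : 0 < a := by nlinarith
  have ha1 : a < 1 := by nlinarith
  -- powers of the kernel
  have hKγ : ∀ n : ℕ, 1 ≤ n → K n ^ γ ≤ C ^ γ * (n : ℝ) ^ (-(1 + a)) := by
    intro n hn
    have hn0 : (0 : ℝ) < n := by exact_mod_cast hn
    calc K n ^ γ ≤ (C * (n : ℝ) ^ (-(1 + α))) ^ γ :=
          Real.rpow_le_rpow (hK.pos n hn).le (hC n hn) hγ0.le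
      _ = C ^ γ * ((n : ℝ) ^ (-(1 + α))) ^ γ :=
          Real.mul_rpow hC0.le (Real.rpow_nonneg hn0.le _)
      _ = C ^ γ * (n : ℝ) ^ (-(1 + a)) := by
          rw [← Real.rpow_mul hn0.le]
          congr 2
          rw [ha]; ring
  have hCγ : 0 < C ^ γ := Real.rpow_pos_of_pos hC0 _
  have hsum : Summable (fun n => K n ^ γ) := by
    have h1 : Summable (fun n : ℕ => C ^ γ * (n : ℝ) ^ (-(1 + a))) :=
      (Real.summable_nat_rpow.mpr (by linarith)).mul_left _
    refine Summable.of_nonneg_of_le (fun n => ?_) (fun n => ?_) h1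
    · rcases Nat.eq_zero_or_pos n with h | h
      · rw [h, hK.zero, Real.zero_rpow hγ0.ne']
      · exact Real.rpow_nonneg (hK.pos n h).le _
    · rcases Nat.eq_zero_or_pos n with h | h
      · rw [h, hK.zero, Real.zero_rpow hγ0.ne']
        positivity
      · exact hKγ n h
  -- tails
  have htail : ∀ i : ℕ, 1 ≤ i → ∑' n, K (n + i) ^ γ ≤ C ^ γ * (4 / a) * (i : ℝ) ^ (-a) := by
    intro i hi
    refine Real.tsum_le_of_sum_range_le (fun n => Real.rpow_nonneg (hK.pos _ (by omega)).le _)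
      fun N => ?_
    calc ∑ n ∈ range N, K (n + i) ^ γ ≤
          ∑ n ∈ range N, C ^ γ * ((n + i : ℕ) : ℝ) ^ (-(1 + a)) :=
          Finset.sum_le_sum fun n _ => hKγ (n + i) (by omega)
      _ = C ^ γ * ∑ n ∈ range N, ((n + i : ℕ) : ℝ) ^ (-(1 + a)) := by rw [Finset.mul_sum]
      _ ≤ C ^ γ * (4 / a * (i : ℝ) ^ (-a)) :=
          mul_le_mul_of_nonneg_left (R1.tail_sum ha0 ha1 hi N) hCγ.le
      _ = _ := by ring
  refine ⟨γ, hγ0, hγu, hsum, ?_⟩
  intro c A hc hA k₀
  -- constants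
  set D : ℝ := A * (C ^ γ * (4 / a)) * (2 / (1 - γ) + 2 / (1 - a)) * (2 / c) ^ γ with hD
  have hD0 : 0 ≤ D := by
    have h1 : 0 < 1 - γ := by linarith
    have h2 : 0 < 1 - a := by linarith
    positivity
  set e : ℝ := γ * (α + 3 / 2) - 2 with he
  have he0 : 0 < e := by linarith
  have hlim : Tendsto (fun k : ℕ => D * (k : ℝ) ^ (-e)) atTop (𝓝 (D * 0)) :=
    ((tendsto_rpow_neg_atTop he0).comp tendsto_natCast_atTop_atTop).const_mul D
  rw [mul_zero] at hlim
  have hev := (hlim.eventually (gt_mem_nhds zero_lt_one)).and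
    ((eventually_ge_atTop (max k₀ 1)).and (eventually_ge_atTop (⌈c ^ 2⌉₊)))
  obtain ⟨k, hk1, hk2, hk3⟩ := hev.exists
  have hkk0 : k₀ ≤ k := le_trans (le_max_left _ _) hk2
  have hk : 1 ≤ k := le_trans (le_max_right _ _) hk2
  have hkr : (0 : ℝ) < k := by exact_mod_cast hk
  refine ⟨k, hkk0, hk, ?_⟩
  set x : ℝ := c / Real.sqrt k with hx
  have hsq : 0 < Real.sqrt k := Real.sqrt_pos.mpr hkr
  have hx0 : 0 < x := by positivity
  have hx1 : x ≤ 1 := by
    rw [hx, div_le_one hsq]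
    apply Real.le_sqrt_of_sq_le
    exact (Nat.le_ceil _).trans (by exact_mod_cast hk3)
  have hT : 1 / (1 - Real.exp (-x)) ≤ 2 / c * (k : ℝ) ^ (1 / 2 : ℝ) := by
    refine (R1.exp_bound hx0 hx1).trans (le_of_eq ?_)
    rw [hx, ← Real.sqrt_eq_rpow]
    field_simp
  -- bound on the partition function
  have hZ : ∀ j : ℕ, Zp K j (fun _ => -x) ≤
      (2 / c * (k : ℝ) ^ (1 / 2 : ℝ)) * ((j : ℝ) + 1) ^ (-1 : ℝ) := by
    intro j
    have h1 : ((j : ℝ) + 1) * Zp K j (fun _ => -x) ≤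
        ∑ i ∈ range (j + 1), Zp K i (fun _ => -x) := by
      have h2 : ∀ i ∈ range (j + 1), Zp K j (fun _ => -x) ≤ Zp K i (fun _ => -x) := by
        intro i hi
        rw [Finset.mem_range] at hi
        have h3 : Antitone (fun n => Zp K n (fun _ => -x)) :=
          antitone_nat_of_succ_le fun n => Zp_const_anti hK hx0.le n
        exact h3 (by omega)
      have h3 := Finset.card_nsmul_le_sum (range (j + 1)) _ _ h2
      rw [Finset.card_range, nsmul_eq_mul] at h3
      push_cast at h3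
      exact h3
    have h2 := (h1.trans (Zp_const_sum hK hx0 (j + 1))).trans hT
    have hj : (0 : ℝ) < (j : ℝ) + 1 := by positivity
    rw [Real.rpow_neg_one, ← div_eq_mul_inv, le_div_iff₀ hj]
    linarith
  have hZγ : ∀ j : ℕ, Zp K j (fun _ => -x) ^ γ ≤
      ((2 / c) ^ γ * (k : ℝ) ^ (γ / 2)) * ((j : ℝ) + 1) ^ (-γ) := by
    intro j
    have hj : (0 : ℝ) < (j : ℝ) + 1 := by positivity
    have h2c : (0 : ℝ) ≤ 2 / c := by positivity
    calc Zp K j (fun _ => -x) ^ γ ≤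
          ((2 / c * (k : ℝ) ^ (1 / 2 : ℝ)) * ((j : ℝ) + 1) ^ (-1 : ℝ)) ^ γ :=
          Real.rpow_le_rpow (R1.zp_pos hK x j).le (hZ j) hγ0.le
      _ = _ := by
        rw [Real.mul_rpow (by positivity) (by positivity),
          Real.mul_rpow (by positivity) (by positivity), ← Real.rpow_mul hkr.le,
          ← Real.rpow_mul hj.le]
        congr 2
        · congr 1; ring
        · ring
  have hterm : ∀ j ∈ range k, (∑' n, K (n + (k - j)) ^ γ) * Zp K j (fun _ => -x) ^ γ ≤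
      (C ^ γ * (4 / a)) * ((2 / c) ^ γ * (k : ℝ) ^ (γ / 2)) *
        (((k - j : ℕ) : ℝ) ^ (-a) * ((j : ℝ) + 1) ^ (-γ)) := by
    intro j hj
    rw [Finset.mem_range] at hj
    have h1 := htail (k - j) (by omega)
    have h2 := hZγ j
    have h3 : 0 ≤ Zp K j (fun _ => -x) ^ γ := Real.rpow_nonneg (R1.zp_pos hK x j).le _
    have h4 : 0 ≤ C ^ γ * (4 / a) * ((k - j : ℕ) : ℝ) ^ (-a) := by positivity
    calc _ ≤ (C ^ γ * (4 / a) * ((k - j : ℕ) : ℝ) ^ (-a)) *
          (((2 / c) ^ γ * (k : ℝ) ^ (γ / 2)) * ((j : ℝ) + 1) ^ (-γ)) :=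
          mul_le_mul h1 h2 h3 h4
      _ = _ := by ring
  have hfin : ∑ j ∈ range k, (∑' n, K (n + (k - j)) ^ γ) * Zp K j (fun _ => -x) ^ γ ≤
      (C ^ γ * (4 / a)) * ((2 / c) ^ γ * (k : ℝ) ^ (γ / 2)) *
        ((2 / (1 - γ) + 2 / (1 - a)) * (k : ℝ) ^ (1 - a - γ)) := by
    refine (Finset.sum_le_sum hterm).trans ?_
    rw [← Finset.mul_sum]
    exact mul_le_mul_of_nonneg_left (R1.conv_sum ha0 ha1 hγ0 hγu hk) (by positivity)
  have hpow : (k : ℝ) ^ (γ / 2) * (k : ℝ) ^ (1 - a - γ) = (k : ℝ) ^ (-e) := by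
    rw [← Real.rpow_add hkr]
    congr 1
    rw [he, ha]; ring
  calc _ ≤ A * ((C ^ γ * (4 / a)) * ((2 / c) ^ γ * (k : ℝ) ^ (γ / 2)) *
        ((2 / (1 - γ) + 2 / (1 - a)) * (k : ℝ) ^ (1 - a - γ))) :=
        mul_le_mul_of_nonneg_left hfin hA
    _ = D * ((k : ℝ) ^ (γ / 2) * (k : ℝ) ^ (1 - a - γ)) := by rw [hD]; ring
    _ = D * (k : ℝ) ^ (-e) := by rw [hpow]
    _ ≤ 1 := hk1.le

end

end Pool.Agent.OTP
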