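import Mathlib
import Pool.Agent.Lib.MP_daa227_pr_OTP.Defs

/-!
# Pinning: positive correlations of the renewal configurations (module FK)
-/

namespace Pool.Agent.OTP

open MeasureTheory ProbabilityTheory Finset Filter Topology
open MP_daa227_pr (Chain Zk Zf K0 shift seqLaw ExpMom)
open Pool.Agent.OT (Kp Km en tr ZE AE pE cE EFam gP LE ME RE dy ins lmg)

noncomputable section

namespace FK

theorem K_nonneg {K : ℕ → ℝ} (hK : KerP K) (k : ℕ) : 0 ≤ K k := by
  rcases Nat.eq_zero_or_pos k with h | h
  · rw [h, hK.zero]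
  · exact (hK.pos k h).le

theorem wB_nonneg {K : ℕ → ℝ} (hK : KerP K) : ∀ (n g : ℕ) (s : Fin n → Bool), 0 ≤ wB K n g s
  | 0, g, _ => by
    simp only [wB]
    split_ifs <;> norm_num
  | n + 1, g, s => by
    simp only [wB]
    split_ifs
    · exact mul_nonneg (K_nonneg hK _) (wB_nonneg hK n _ _)
    · exact wB_nonneg hK n _ _

theorem wB_true (K : ℕ → ℝ) (n g : ℕ) {s : Fin (n + 1) → Bool} (h : s 0 = true) :
    wB K (n + 1) g s = K (g + 1) * wB K n 0 (fun i => s i.succ) := by
  simp only [wB]
  rw [if_pos h]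

theorem wB_false (K : ℕ → ℝ) (n g : ℕ) {s : Fin (n + 1) → Bool} (h : s 0 = false) :
    wB K (n + 1) g s = wB K n (g + 1) (fun i => s i.succ) := by
  simp only [wB]
  rw [if_neg (by rw [h]; exact Bool.false_ne_true)]

/-- the general lattice inequality -/
theorem lattice {K : ℕ → ℝ} (hK : KerP K) : ∀ (n a b c : ℕ) (Φ : ℝ) (s t : Fin n → Bool),
    0 ≤ Φ → max a b ≤ c → (a = 0 → b = 0 → c = 0 ∧ 1 ≤ Φ) →
    (∀ r, 1 ≤ r → K (max a b + r) ≤ Φ * K (c + r)) →
    wB K n a s * wB K n b t ≤ Φ * (wB K n c (s ⊓ t) * wB K n (min a b) (s ⊔ t))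
  | 0, a, b, c, Φ, s, t, hΦ, hc, h0, _ => by
    simp only [wB]
    by_cases ha : a = 0
    · by_cases hb : b = 0
      · obtain ⟨h1, h2⟩ := h0 ha hb
        rw [ha, hb, h1]
        simpa using h2
      · rw [if_neg hb, mul_zero]
        refine mul_nonneg hΦ (mul_nonneg ?_ ?_) <;> split_ifs <;> norm_num
    · rw [if_neg ha, zero_mul]
      refine mul_nonneg hΦ (mul_nonneg ?_ ?_) <;> split_ifs <;> norm_num
  | n + 1, a, b, c, Φ, s, t, hΦ, hc, h0, hr => by
    have hKn := K_nonneg hK
    have hwn := wB_nonneg hK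
    have hinf : ∀ u v : Fin (n + 1) → Bool, (fun i : Fin n => (u ⊓ v) i.succ) =
        (fun i => u i.succ) ⊓ (fun i => v i.succ) := fun u v => rfl
    have hsup : ∀ u v : Fin (n + 1) → Bool, (fun i : Fin n => (u ⊔ v) i.succ) =
        (fun i => u i.succ) ⊔ (fun i => v i.succ) := fun u v => rfl
    cases hs : s 0 <;> cases ht : t 0
    · -- both free
      have hi : (s ⊓ t) 0 = false := by rw [Pi.inf_apply, hs, ht]; rfl
      have hu : (s ⊔ t) 0 = false := by rw [Pi.sup_apply, hs, ht]; rfl
      rw [wB_false K n a hs, wB_false K n b ht, wB_false K n c hi, wB_false K n _ hu, hinf, hsup]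
      have hmin : min a b + 1 = min (a + 1) (b + 1) := by omega
      rw [hmin]
      refine lattice hK n (a + 1) (b + 1) (c + 1) Φ _ _ hΦ (by omega) (by omega) ?_
      intro r hr1
      have h1 : max (a + 1) (b + 1) + r = max a b + (r + 1) := by omega
      have h2 : c + 1 + r = c + (r + 1) := by omega
      rw [h1, h2]
      exact hr (r + 1) (by omega)
    · -- s free, t occupied
      have hi : (s ⊓ t) 0 = false := by rw [Pi.inf_apply, hs, ht]; rfl
      have hu : (s ⊔ t) 0 = true := by rw [Pi.sup_apply, hs, ht]; rfl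
      rw [wB_false K n a hs, wB_true K n b ht, wB_false K n c hi, wB_true K n _ hu, hinf, hsup]
      have hKb : 0 < K (b + 1) := hK.pos _ (by omega)
      have key := lattice hK n (a + 1) 0 (c + 1) (Φ * K (min a b + 1) / K (b + 1))
        (fun i => s i.succ) (fun i => t i.succ)
        (div_nonneg (mul_nonneg hΦ (hKn _)) hKb.le) (by omega) (by omega) ?_
      · rw [show min (a + 1) 0 = 0 by omega] at key
        calc wB K n (a + 1) (fun i => s i.succ) * (K (b + 1) * wB K n 0 (fun i => t i.succ)) =
            K (b + 1) * (wB K n (a + 1) (fun i => s i.succ) * wB K n 0 (fun i => t i.succ)) := by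
              ring
          _ ≤ K (b + 1) * (Φ * K (min a b + 1) / K (b + 1) *
              (wB K n (c + 1) ((fun i => s i.succ) ⊓ (fun i => t i.succ)) *
                wB K n 0 ((fun i => s i.succ) ⊔ (fun i => t i.succ)))) :=
              mul_le_mul_of_nonneg_left key hKb.le
          _ = _ := by field_simp
      · intro r hr1
        rw [show max (a + 1) 0 + r = a + (r + 1) by omega, show c + 1 + r = c + (r + 1) by omega,
          div_mul_eq_mul_div, le_div_iff₀ hKb]
        rcases le_total b a with h | h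
        · rw [min_eq_right h]
          have h3 := hr (r + 1) (by omega)
          rw [max_eq_left h] at h3
          calc K (a + (r + 1)) * K (b + 1) ≤ Φ * K (c + (r + 1)) * K (b + 1) :=
                mul_le_mul_of_nonneg_right h3 (hKn _)
            _ = _ := by ring
        · rw [min_eq_left h]
          have h3 := hr (r + 1) (by omega)
          rw [max_eq_right h] at h3
          have h4 := hK.conv (a + 1) r (b - a) (by omega)
          rw [show a + 1 + r = a + (r + 1) by omega, show a + 1 + (b - a) = b + 1 by omega,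
            show a + (r + 1) + (b - a) = b + (r + 1) by omega] at h4
          calc K (a + (r + 1)) * K (b + 1) ≤ K (a + 1) * K (b + (r + 1)) := h4
            _ ≤ K (a + 1) * (Φ * K (c + (r + 1))) := mul_le_mul_of_nonneg_left h3 (hKn _)
            _ = _ := by ring
    · -- s occupied, t free
      have hi : (s ⊓ t) 0 = false := by rw [Pi.inf_apply, hs, ht]; rfl
      have hu : (s ⊔ t) 0 = true := by rw [Pi.sup_apply, hs, ht]; rfl
      rw [wB_true K n a hs, wB_false K n b ht, wB_false K n c hi, wB_true K n _ hu, hinf, hsup]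
      have hKa : 0 < K (a + 1) := hK.pos _ (by omega)
      have key := lattice hK n 0 (b + 1) (c + 1) (Φ * K (min a b + 1) / K (a + 1))
        (fun i => s i.succ) (fun i => t i.succ)
        (div_nonneg (mul_nonneg hΦ (hKn _)) hKa.le) (by omega) (by omega) ?_
      · rw [show min 0 (b + 1) = 0 by omega] at key
        calc K (a + 1) * wB K n 0 (fun i => s i.succ) * wB K n (b + 1) (fun i => t i.succ) =
            K (a + 1) * (wB K n 0 (fun i => s i.succ) * wB K n (b + 1) (fun i => t i.succ)) := by
              ring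
          _ ≤ K (a + 1) * (Φ * K (min a b + 1) / K (a + 1) *
              (wB K n (c + 1) ((fun i => s i.succ) ⊓ (fun i => t i.succ)) *
                wB K n 0 ((fun i => s i.succ) ⊔ (fun i => t i.succ)))) :=
              mul_le_mul_of_nonneg_left key hKa.le
          _ = _ := by field_simp
      · intro r hr1
        rw [show max 0 (b + 1) + r = b + (r + 1) by omega, show c + 1 + r = c + (r + 1) by omega,
          div_mul_eq_mul_div, le_div_iff₀ hKa]
        rcases le_total a b with h | h
        · rw [min_eq_left h]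
          have h3 := hr (r + 1) (by omega)
          rw [max_eq_right h] at h3
          calc K (b + (r + 1)) * K (a + 1) ≤ Φ * K (c + (r + 1)) * K (a + 1) :=
                mul_le_mul_of_nonneg_right h3 (hKn _)
            _ = _ := by ring
        · rw [min_eq_right h]
          have h3 := hr (r + 1) (by omega)
          rw [max_eq_left h] at h3
          have h4 := hK.conv (b + 1) r (a - b) (by omega)
          rw [show b + 1 + r = b + (r + 1) by omega, show b + 1 + (a - b) = a + 1 by omega,
            show b + (r + 1) + (a - b) = a + (r + 1) by omega] at h4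
          calc K (b + (r + 1)) * K (a + 1) ≤ K (b + 1) * K (a + (r + 1)) := h4
            _ ≤ K (b + 1) * (Φ * K (c + (r + 1))) := mul_le_mul_of_nonneg_left h3 (hKn _)
            _ = _ := by ring
    · -- both occupied
      have hi : (s ⊓ t) 0 = true := by rw [Pi.inf_apply, hs, ht]; rfl
      have hu : (s ⊔ t) 0 = true := by rw [Pi.sup_apply, hs, ht]; rfl
      rw [wB_true K n a hs, wB_true K n b ht, wB_true K n c hi, wB_true K n _ hu, hinf, hsup]
      have key := lattice hK n 0 0 0 1 (fun i => s i.succ) (fun i => t i.succ) zero_le_one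
        (by omega) (fun _ _ => ⟨rfl, le_rfl⟩) (fun r _ => by rw [one_mul, max_self])
      rw [one_mul, min_self] at key
      have h1 : K (a + 1) * K (b + 1) = K (max a b + 1) * K (min a b + 1) := by
        rcases le_total a b with h | h
        · rw [max_eq_right h, min_eq_left h, mul_comm]
        · rw [max_eq_left h, min_eq_right h]
      have h2 : K (a + 1) * K (b + 1) ≤ Φ * K (c + 1) * K (min a b + 1) := by
        rw [h1]
        exact mul_le_mul_of_nonneg_right (hr 1 le_rfl) (hKn _)
      calc K (a + 1) * wB K n 0 (fun i => s i.succ) * (K (b + 1) * wB K n 0 (fun i => t i.succ)) =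
          (K (a + 1) * K (b + 1)) *
            (wB K n 0 (fun i => s i.succ) * wB K n 0 (fun i => t i.succ)) := by ring
        _ ≤ (Φ * K (c + 1) * K (min a b + 1)) *
            (wB K n 0 ((fun i => s i.succ) ⊓ (fun i => t i.succ)) *
              wB K n 0 ((fun i => s i.succ) ⊔ (fun i => t i.succ))) :=
            mul_le_mul h2 key (mul_nonneg (hwn _ _ _) (hwn _ _ _))
              (mul_nonneg (mul_nonneg hΦ (hKn _)) (hKn _))
        _ = _ := by ring

theorem wB_all_true {K : ℕ → ℝ} (hK : KerP K) : ∀ n : ℕ, 0 < wB K n 0 (fun _ => true)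
  | 0 => by simp [wB]
  | n + 1 => by
    rw [wB_true K n 0 rfl]
    exact mul_pos (hK.pos _ (by omega)) (wB_all_true hK n)

theorem spB_nonneg (n : ℕ) (s : Fin n → Bool) (i : Fin n) : 0 ≤ spB n s i := by
  unfold spB; split_ifs <;> norm_num

theorem spB_le (n : ℕ) (s : Fin n → Bool) (i : Fin n) : spB n s i ≤ 1 := by
  unfold spB; split_ifs <;> norm_num

theorem spB_mono (n : ℕ) (i : Fin n) : Monotone (fun s : Fin n → Bool => spB n s i) := by
  intro s t h
  have h1 : s i ≤ t i := h i
  show (if s i then (1 : ℝ) else 0) ≤ if t i then 1 else 0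
  cases hs : s i
  · rw [if_neg Bool.false_ne_true]; split_ifs <;> norm_num
  · have h2 : t i = true := by
      rw [hs] at h1
      exact top_le_iff.mp h1
    rw [h2]

theorem spB_mod (n : ℕ) (s t : Fin n → Bool) (i : Fin n) :
    spB n s i + spB n t i = spB n (s ⊓ t) i + spB n (s ⊔ t) i := by
  unfold spB
  rw [Pi.inf_apply, Pi.sup_apply]
  cases s i <;> cases t i <;> simp

/-- the weight with energies `θ` -/
def vv (K : ℕ → ℝ) (n : ℕ) (θ : Fin n → ℝ) (s : Fin n → Bool) : ℝ :=
  wB K n 0 s * Real.exp (∑ i, θ i * spB n s i)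

theorem vv_nonneg {K : ℕ → ℝ} (hK : KerP K) (n : ℕ) (θ : Fin n → ℝ) (s : Fin n → Bool) :
    0 ≤ vv K n θ s := mul_nonneg (wB_nonneg hK _ _ _) (Real.exp_pos _).le

end FK

open FK

/-- the weight of the configurations is log-supermodular -/
theorem wB_lattice {K : ℕ → ℝ} (hK : KerP K) (n : ℕ) (s t : Fin n → Bool) :
    wB K n 0 s * wB K n 0 t ≤ wB K n 0 (s ⊓ t) * wB K n 0 (s ⊔ t) := by
  have key := lattice hK n 0 0 0 1 s t zero_le_one (by omega) (fun _ _ => ⟨rfl, le_rfl⟩)
    (fun r _ => by rw [one_mul, max_self])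
  rwa [one_mul, min_self] at key

theorem FK.vv_lattice {K : ℕ → ℝ} (hK : KerP K) (n : ℕ) (θ : Fin n → ℝ) (s t : Fin n → Bool) :
    vv K n θ s * vv K n θ t ≤ vv K n θ (s ⊓ t) * vv K n θ (s ⊔ t) := by
  have h2 : (∑ i, θ i * spB n s i) + (∑ i, θ i * spB n t i) =
      (∑ i, θ i * spB n (s ⊓ t) i) + (∑ i, θ i * spB n (s ⊔ t) i) := by
    rw [← Finset.sum_add_distrib, ← Finset.sum_add_distrib]
    refine Finset.sum_congr rfl fun i _ => ?_
    rw [← mul_add, ← mul_add, spB_mod]
  unfold vv
  calc wB K n 0 s * Real.exp (∑ i, θ i * spB n s i) *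
        (wB K n 0 t * Real.exp (∑ i, θ i * spB n t i)) =
        (wB K n 0 s * wB K n 0 t) *
          Real.exp ((∑ i, θ i * spB n s i) + (∑ i, θ i * spB n t i)) := by
          rw [Real.exp_add]; ring
    _ ≤ (wB K n 0 (s ⊓ t) * wB K n 0 (s ⊔ t)) *
          Real.exp ((∑ i, θ i * spB n s i) + (∑ i, θ i * spB n t i)) :=
          mul_le_mul_of_nonneg_right (wB_lattice hK n s t) (Real.exp_pos _).le
    _ = _ := by rw [h2, Real.exp_add]; ring

theorem bool_EFam {K : ℕ → ℝ} (hK : KerP K) (n : ℕ) : EFam (wB K n 0) (spB n) := by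
  refine ⟨wB_nonneg hK n 0, ⟨fun _ => true, wB_all_true hK n⟩, spB_nonneg n, spB_le n, ?_⟩
  intro θ i j
  have hv := vv_nonneg hK n θ
  have hfkg := fkg (μ := vv K n θ) (f := fun s => spB n s i) (g := fun s => spB n s j)
    hv (fun s => spB_nonneg n s i) (fun s => spB_nonneg n s j) (spB_mono n i) (spB_mono n j)
    (vv_lattice hK n θ)
  have hnn : 0 ≤ ∑ s, vv K n θ s := Finset.sum_nonneg fun s _ => hv s
  unfold cE pE AE ZE
  change 0 ≤ (∑ s, vv K n θ s * (spB n s i * spB n s j)) / (∑ s, vv K n θ s) -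
    (∑ s, vv K n θ s * spB n s i) / (∑ s, vv K n θ s) *
      ((∑ s, vv K n θ s * spB n s j) / (∑ s, vv K n θ s))
  rcases hnn.eq_or_lt with h0 | h0
  · rw [← h0]; simp
  · rw [div_mul_div_comm, sub_nonneg, div_le_div_iff₀ (mul_pos h0 h0) h0]
    calc _ ≤ ((∑ s, vv K n θ s) * ∑ s, vv K n θ s * (spB n s i * spB n s j)) *
          (∑ s, vv K n θ s) := mul_le_mul_of_nonneg_right hfkg hnn
      _ = _ := by ring

end

end Pool.Agent.OTP
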