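import Mathlib
import Pool.Agent.Lib.MP_daa227_pr_OTP.Defs
import Pool.Agent.Lib.MP_daa227_pr_OTP.FK
import Pool.Agent.Lib.MP_daa227_pr_OT.EFc
import Pool.Agent.Lib.MP_daa227_pr_OTP.ZEP
import Pool.Agent.Lib.MP_daa227_pr_OTP.Sup

/-!
# Pinning: convexity in the field
-/

namespace Pool.Agent.OTP

open MeasureTheory ProbabilityTheory Finset Filter Topology
open MP_daa227_pr (Chain Zk Zf K0 shift seqLaw ExpMom)
open Pool.Agent.OT (Kp Km en tr ZE AE pE cE EFam gP LE ME RE dy ins lmg pE_nonneg pE_le_one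
  continuous_pE log_tangent)

noncomputable section

namespace L2

lemma meas_tr_en (β h : ℝ) (n : ℕ) : Measurable fun ω : ℕ → ℝ => tr n (en β h ω) := by
  rw [measurable_pi_iff]
  intro i
  change Measurable fun ω : ℕ → ℝ => β * ω i - h
  fun_prop

lemma int_dens {K : ℕ → ℝ} (hK : KerP K) (μ : Measure ℝ) [IsProbabilityMeasure μ] (β h : ℝ)
    (n k : ℕ) : Integrable (fun ω => ∑ i, pE (wB K n 0) (spB n) (tr n (en β h ω)) i ^ k)
      (seqLaw μ) := by
  have hE := bool_EFam hK n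
  refine integrable_finsetSum _ fun i _ => ?_
  refine Integrable.of_bound (C := 1) ?_ (ae_of_all _ fun ω => ?_)
  · exact (((continuous_pE hE i).measurable.comp (meas_tr_en β h n)).pow_const k).aestronglyMeasurable
  · have h0 := pE_nonneg hE (tr n (en β h ω)) i
    have h1 := pE_le_one hE (tr n (en β h ω)) i
    rw [Real.norm_eq_abs, abs_of_nonneg (pow_nonneg h0 k)]
    exact pow_le_one₀ h0 h1

end L2

theorem LP_conv {K : ℕ → ℝ} (hK : KerP K) (μ : Measure ℝ) [IsProbabilityMeasure μ]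
    (hμ : ExpMom μ) (β h δ : ℝ) (hδ : 0 ≤ δ) (n : ℕ) :
    LP K μ β (h - δ) n ≤ LP K μ β h n + δ * MP K μ β (h - δ) n := by
  have hE := bool_EFam hK n
  have h1 := L2.int_dens hK μ β (h - δ) n 1
  simp only [pow_one] at h1
  unfold LP MP
  rw [← integral_const_mul, ← integral_add (integrable_logZp hK μ hμ β h n) (h1.const_mul δ)]
  apply integral_mono (integrable_logZp hK μ hμ β (h - δ) n)
    ((integrable_logZp hK μ hμ β h n).add (h1.const_mul δ))
  intro ω
  have h2 := log_tangent hE (tr n (en β (h - δ) ω)) (tr n (en β h ω))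
  rw [ZE_eq_Zp, ZE_eq_Zp] at h2
  have h3 : ∑ i, (tr n (en β h ω) i - tr n (en β (h - δ) ω) i) *
      pE (wB K n 0) (spB n) (tr n (en β (h - δ) ω)) i =
      -(δ * ∑ i, pE (wB K n 0) (spB n) (tr n (en β (h - δ) ω)) i) := by
    rw [mul_sum, ← sum_neg_distrib]
    refine sum_congr rfl fun i _ => ?_
    unfold tr en
    ring
  rw [h3] at h2
  change Real.log (Zp K n (en β (h - δ) ω)) ≤ Real.log (Zp K n (en β h ω)) +
    δ * ∑ i, pE (wB K n 0) (spB n) (tr n (en β (h - δ) ω)) i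
  linarith

theorem MP_bounds {K : ℕ → ℝ} (hK : KerP K) (μ : Measure ℝ) [IsProbabilityMeasure μ] (β h : ℝ)
    (n : ℕ) : 0 ≤ MP K μ β h n ∧ MP K μ β h n ≤ n ∧ 0 ≤ RP K μ β h n := by
  have hE := bool_EFam hK n
  refine ⟨integral_nonneg fun ω => sum_nonneg fun i _ => pE_nonneg hE _ i, ?_,
    integral_nonneg fun ω => sum_nonneg fun i _ => sq_nonneg _⟩
  have h1 := L2.int_dens hK μ β h n 1
  simp only [pow_one] at h1
  have h2 : MP K μ β h n ≤ ∫ _ω : ℕ → ℝ, (n : ℝ) ∂seqLaw μ := by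
    apply integral_mono h1 (integrable_const _)
    intro ω
    have h3 : ∑ i, pE (wB K n 0) (spB n) (tr n (en β h ω)) i ≤ ∑ _i : Fin n, (1 : ℝ) :=
      sum_le_sum fun i _ => pE_le_one hE _ i
    simpa using h3
  simpa using h2

end

end Pool.Agent.OTP
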