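import Mathlib
import Pool.Agent.Lib.MP_daa227_pr_OTP.Defs
import Pool.Agent.Lib.MP_daa227_pr_OTP.Dec

/-!
# Pinning: insertion of a block, pathwise estimates
-/

namespace Pool.Agent.OTP

open MeasureTheory ProbabilityTheory Finset Filter Topology
open MP_daa227_pr (Chain Zk Zf K0 shift seqLaw ExpMom)
open Pool.Agent.OT (Kp Km en tr ZE AE pE cE EFam gP LE ME RE dy ins lmg)

noncomputable section

namespace I1

lemma K_nonneg {K : ℕ → ℝ} (hK : KerP K) (k : ℕ) : 0 ≤ K k := by
  rcases Nat.eq_zero_or_pos k with h | h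
  · rw [h, hK.zero]
  · exact (hK.pos k h).le

lemma K_le_one {K : ℕ → ℝ} (hK : KerP K) (k : ℕ) : K k ≤ 1 :=
  le_hasSum hK.sum_one k (fun i _ => K_nonneg hK i)

section Step

variable {K : ℕ → ℝ} (hK : KerP K) {N p : ℕ} (hp : p < N) {η η' : ℕ → ℝ}
  (h1 : ∀ i < p, η' i = η i) (h2 : ∀ i, p ≤ i → η' (i + 1) = η i)

include hK hp h1 h2

/-- configurations without the new site -/
lemma step_out : Zout K (N + 1) (p + 1) η' ≤ Zp K N η := by
  rw [Zp_cross K hp η]
  unfold Zout
  refine sum_le_sum fun x hx => ?_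
  rw [mem_range] at hx
  have hI : Ioc (p + 1) (N + 1) = (Ioc p N).map ⟨fun i => i + 1, fun a b h => by simpa using h⟩ := by
    ext z
    simp only [mem_Ioc, Finset.mem_map, Function.Embedding.coeFn_mk]
    constructor
    · intro h
      exact ⟨z - 1, by omega, by omega⟩
    · rintro ⟨a, ha, rfl⟩
      omega
  rw [hI, sum_map]
  refine sum_le_sum fun y hy => ?_
  rw [mem_Ioc] at hy
  simp only [Function.Embedding.coeFn_mk, Nat.add_sub_cancel]
  have e1 : Zp K x η' = Zp K x η := Zp_congr K x fun i hi => h1 i (by omega)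
  obtain ⟨z, rfl⟩ : ∃ z, y = z + 1 := ⟨y - 1, by omega⟩
  have e2 : η' (z + 1) = η z := h2 z (by omega)
  have e3 : N + 1 - (z + 1 + 1) = N - (z + 1) := by omega
  have e4 : shift (z + 1 + 1) η' = shift (z + 1) η := by
    funext i
    rw [MP_daa227_pr.shift_apply, MP_daa227_pr.shift_apply]
    have : i + (z + 1 + 1) = (i + (z + 1)) + 1 := by ring
    rw [this, h2 _ (by omega)]
  rw [e1, e2, e3, e4, Nat.add_sub_cancel]
  have e5 : z + 1 + 1 - x = (z + 1 - x) + 1 := by omega
  have e6 : K (z + 1 + 1 - x) ≤ K (z + 1 - x) := by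
    rw [e5]; exact hK.anti _ (by omega)
  have hz1 := Zp_pos hK x η
  have hz2 := Zp_pos hK (N - (z + 1)) (shift (z + 1) η)
  refine mul_le_mul_of_nonneg_right (mul_le_mul_of_nonneg_left ?_ hz1.le) hz2.le
  exact mul_le_mul_of_nonneg_right e6 (Real.exp_pos _).le

/-- configurations with the new site -/
lemma step_in (hp1 : 1 ≤ p) : Zin K (N + 1) (p + 1) η' ≤
    2 * Real.exp (|η' p| + |η (p - 1)|) * Zin K N p η := by
  unfold Zin
  have e3 : N + 1 - (p + 1) = N - p := by omega
  have e4 : shift (p + 1) η' = shift p η := by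
    funext i
    rw [MP_daa227_pr.shift_apply, MP_daa227_pr.shift_apply]
    have : i + (p + 1) = (i + p) + 1 := by ring
    rw [this, h2 _ (by omega)]
  rw [e3, e4, ← mul_assoc]
  have hz2 := Zp_pos hK (N - p) (shift p η)
  refine mul_le_mul_of_nonneg_right ?_ hz2.le
  have hz1 := Zp_pos hK p η
  rw [Zp_last, sum_range_succ]
  have t1 : Zp K p η' * (K (p + 1 - p) * Real.exp (η' p)) ≤
      Real.exp (|η' p| + |η (p - 1)|) * Zp K p η := by
    rw [Zp_congr K p h1]
    have hk := K_le_one hK (p + 1 - p)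
    have hk0 := K_nonneg hK (p + 1 - p)
    have he : Real.exp (η' p) ≤ Real.exp (|η' p| + |η (p - 1)|) :=
      Real.exp_le_exp.mpr ((le_abs_self _).trans (le_add_of_nonneg_right (abs_nonneg _)))
    calc Zp K p η * (K (p + 1 - p) * Real.exp (η' p))
        ≤ Zp K p η * (1 * Real.exp (|η' p| + |η (p - 1)|)) := by
          refine mul_le_mul_of_nonneg_left ?_ hz1.le
          exact mul_le_mul hk he (Real.exp_pos _).le zero_le_one
      _ = Real.exp (|η' p| + |η (p - 1)|) * Zp K p η := by ring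
  have t2 : ∑ x ∈ range p, Zp K x η' * (K (p + 1 - x) * Real.exp (η' p)) ≤
      Real.exp (|η' p| + |η (p - 1)|) * Zp K p η := by
    obtain ⟨q, rfl⟩ : ∃ q, p = q + 1 := ⟨p - 1, by omega⟩
    rw [Zp_last K q η, mul_sum, Nat.add_sub_cancel]
    refine sum_le_sum fun x hx => ?_
    rw [mem_range] at hx
    rw [Zp_congr K x (θ := η') (θ' := η) fun i hi => h1 i (by omega)]
    have hk : K (q + 1 + 1 - x) ≤ K (q + 1 - x) := by
      have e5 : q + 1 + 1 - x = (q + 1 - x) + 1 := by omega
      rw [e5]; exact hK.anti _ (by omega)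
    have hk0 := K_nonneg hK (q + 1 - x)
    have he : Real.exp (η' (q + 1)) ≤ Real.exp (|η' (q + 1)| + |η q|) * Real.exp (η q) := by
      rw [← Real.exp_add]
      refine Real.exp_le_exp.mpr ?_
      have := le_abs_self (η' (q + 1))
      have := neg_abs_le (η q)
      linarith
    have hzx := Zp_pos hK x η
    calc Zp K x η * (K (q + 1 + 1 - x) * Real.exp (η' (q + 1)))
        ≤ Zp K x η * (K (q + 1 - x) * (Real.exp (|η' (q + 1)| + |η q|) * Real.exp (η q))) := by
          refine mul_le_mul_of_nonneg_left ?_ hzx.le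
          exact mul_le_mul hk he (Real.exp_pos _).le hk0
      _ = Real.exp (|η' (q + 1)| + |η q|) *
            (Zp K x η * (K (q + 1 - x) * Real.exp (η q))) := by ring
  calc ∑ x ∈ range p, Zp K x η' * (K (p + 1 - x) * Real.exp (η' p)) +
        Zp K p η' * (K (p + 1 - p) * Real.exp (η' p))
      ≤ Real.exp (|η' p| + |η (p - 1)|) * Zp K p η +
        Real.exp (|η' p| + |η (p - 1)|) * Zp K p η := add_le_add t2 t1
    _ = 2 * Real.exp (|η' p| + |η (p - 1)|) * Zp K p η := by ring

end Step

lemma ins_zero (j : ℕ) (θ B : ℕ → ℝ) : ins j 0 θ B = θ := by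
  funext i
  unfold ins
  split_ifs with h1 h2
  · rfl
  · omega
  · rfl

lemma ins_lt {j l : ℕ} (θ B : ℕ → ℝ) {i : ℕ} (hi : i < j + l) :
    ins j (l + 1) θ B i = ins j l θ B i := by
  unfold ins
  split_ifs <;> first | rfl | omega

lemma ins_gt {j l : ℕ} (θ B : ℕ → ℝ) {i : ℕ} (hi : j + l ≤ i) :
    ins j (l + 1) θ B (i + 1) = ins j l θ B i := by
  unfold ins
  split_ifs <;> first | omega | (congr 1; omega)

lemma ins_at (j l : ℕ) (θ B : ℕ → ℝ) : ins j (l + 1) θ B (j + l) = B l := by
  unfold ins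
  split_ifs <;> first | omega | (congr 1; omega)

/-- the energy before the place of the next insertion -/
lemma ins_prev {j : ℕ} (hj1 : 1 ≤ j) (l : ℕ) (θ B : ℕ → ℝ) :
    ins j l θ B (j + l - 1) = if l = 0 then θ (j - 1) else B (l - 1) := by
  unfold ins
  split_ifs <;> first | omega | (congr 1; omega)

/-- bound for the weight of the configurations containing the last inserted site -/
lemma Zin_bound {K : ℕ → ℝ} (hK : KerP K) {n j : ℕ} (hj1 : 1 ≤ j) (hj : j < n)
    (θ B : ℕ → ℝ) (l : ℕ) :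
    Zin K (n + l) (j + l) (ins j l θ B) ≤
      2 ^ l * Real.exp (∑ i ∈ range l, |B i| +
        ∑ i ∈ range l, |if i = 0 then θ (j - 1) else B (i - 1)|) * Zin K n j θ := by
  induction l with
  | zero => rw [ins_zero]; simp
  | succ l ih =>
    have h := step_in hK (N := n + l) (p := j + l) (by omega) (η := ins j l θ B)
      (η' := ins j (l + 1) θ B) (fun i hi => ins_lt θ B hi) (fun i hi => ins_gt θ B hi)
      (by omega)
    rw [ins_at, ins_prev hj1] at h
    have e1 : n + (l + 1) = n + l + 1 := by ring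
    have e2 : j + (l + 1) = j + l + 1 := by ring
    rw [e1, e2]
    refine h.trans ?_
    calc 2 * Real.exp (|B l| + |if l = 0 then θ (j - 1) else B (l - 1)|) *
          Zin K (n + l) (j + l) (ins j l θ B)
        ≤ 2 * Real.exp (|B l| + |if l = 0 then θ (j - 1) else B (l - 1)|) *
          (2 ^ l * Real.exp (∑ i ∈ range l, |B i| +
        ∑ i ∈ range l, |if i = 0 then θ (j - 1) else B (i - 1)|) * Zin K n j θ) :=
          mul_le_mul_of_nonneg_left ih (by positivity)
      _ = 2 ^ (l + 1) * (Real.exp (|B l| + |if l = 0 then θ (j - 1) else B (l - 1)|) *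
          Real.exp (∑ i ∈ range l, |B i| +
        ∑ i ∈ range l, |if i = 0 then θ (j - 1) else B (i - 1)|)) * Zin K n j θ := by ring
      _ = _ := by
          rw [← Real.exp_add, sum_range_succ, sum_range_succ]
          congr 3
          ring

lemma exp_bound (θ0 : ℝ) (B : ℕ → ℝ) {l L : ℕ} (hl : l ≤ L) :
    ∑ i ∈ range l, |B i| + ∑ i ∈ range l, |if i = 0 then θ0 else B (i - 1)| ≤
      |θ0| + 2 * ∑ i ∈ range L, |B i| := by
  have h1 : ∀ m : ℕ, ∑ i ∈ range m, |if i = 0 then θ0 else B (i - 1)| ≤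
      |θ0| + ∑ i ∈ range m, |B i| := by
    intro m
    cases m with
    | zero => simp
    | succ m =>
      rw [sum_range_succ', sum_range_succ]
      simp only [Nat.add_eq_zero_iff, one_ne_zero, and_false, if_false, Nat.add_sub_cancel,
        if_true]
      have := abs_nonneg (B m)
      linarith
  have h2 : ∑ i ∈ range l, |B i| ≤ ∑ i ∈ range L, |B i| :=
    sum_le_sum_of_subset_of_nonneg (range_mono hl) fun i _ _ => abs_nonneg _
  have h3 := h1 l
  linarith

end I1

theorem ins_upper {K : ℕ → ℝ} (hK : KerP K) {n j : ℕ} (hj1 : 1 ≤ j) (hj : j < n) (L : ℕ)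
    (θ B : ℕ → ℝ) :
    Zp K (n + L) (ins j L θ B) ≤ Zout K n j θ +
      ((L : ℝ) + 1) * 2 ^ L * Real.exp (|θ (j - 1)| + 2 * ∑ i ∈ range L, |B i|) *
        Zin K n j θ := by
  have hout : ∀ l : ℕ, Zout K (n + l) (j + l) (ins j l θ B) ≤ Zout K n j θ +
      ∑ i ∈ range l, Zin K (n + i) (j + i) (ins j i θ B) := by
    intro l
    induction l with
    | zero => rw [I1.ins_zero]; simp
    | succ l ih =>
      have h := I1.step_out hK (N := n + l) (p := j + l) (by omega) (η := ins j l θ B)
        (η' := ins j (l + 1) θ B) (fun i hi => I1.ins_lt θ B hi) (fun i hi => I1.ins_gt θ B hi)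
      have e1 : n + (l + 1) = n + l + 1 := by ring
      have e2 : j + (l + 1) = j + l + 1 := by ring
      rw [e1, e2]
      refine h.trans ?_
      rw [Zp_split (j := j + l) (by omega) (by omega), sum_range_succ]
      linarith
  rw [Zp_split (j := j + L) (by omega) (by omega)]
  have h1 := hout L
  have h2 : ∑ i ∈ range (L + 1), Zin K (n + i) (j + i) (ins j i θ B) ≤
      ∑ i ∈ range (L + 1), 2 ^ L * Real.exp (|θ (j - 1)| + 2 * ∑ i ∈ range L, |B i|) *
        Zin K n j θ := by
    refine sum_le_sum fun l hl => ?_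
    rw [mem_range] at hl
    refine (I1.Zin_bound hK hj1 hj θ B l).trans ?_
    refine mul_le_mul_of_nonneg_right ?_ (Zin_pos hK n j θ).le
    refine mul_le_mul (pow_le_pow_right₀ one_le_two (by omega)) (Real.exp_le_exp.mpr ?_)
      (Real.exp_pos _).le (by positivity)
    exact I1.exp_bound _ _ (by omega)
  rw [sum_const, card_range, nsmul_eq_mul, sum_range_succ] at h2
  push_cast at h2
  calc Zout K (n + L) (j + L) (ins j L θ B) + Zin K (n + L) (j + L) (ins j L θ B)
      ≤ Zout K n j θ + (∑ i ∈ range L, Zin K (n + i) (j + i) (ins j i θ B) +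
        Zin K (n + L) (j + L) (ins j L θ B)) := by linarith
    _ ≤ _ := by
      refine add_le_add le_rfl (h2.trans (le_of_eq ?_))
      ring

theorem ins_lower {K : ℕ → ℝ} (hK : KerP K) {n j : ℕ} (hj1 : 1 ≤ j) (hj : j < n) (L : ℕ)
    (θ B : ℕ → ℝ) :
    Zp K L B * Zin K n j θ ≤ Zin K (n + L) j (ins j L θ B) := by
  unfold Zin
  have e1 : n + L - j = L + (n - j) := by omega
  have e2 : Zp K j (ins j L θ B) = Zp K j θ := Zp_congr K j fun i hi => by
    unfold ins; rw [if_pos hi]
  have e3 : Zp K L (shift j (ins j L θ B)) = Zp K L B := Zp_congr K L fun i hi => by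
    rw [MP_daa227_pr.shift_apply]
    unfold ins
    rw [if_neg (by omega), if_pos (by omega), Nat.add_sub_cancel]
  have e4 : shift L (shift j (ins j L θ B)) = shift j θ := by
    funext i
    rw [MP_daa227_pr.shift_apply, MP_daa227_pr.shift_apply, MP_daa227_pr.shift_apply]
    unfold ins
    rw [if_neg (by omega), if_neg (by omega)]
    congr 1
    omega
  have h := Zp_mul_le hK L (n - j) (shift j (ins j L θ B))
  rw [e3, e4] at h
  rw [e1, e2]
  have hz := Zp_pos hK j θ
  calc Zp K L B * (Zp K j θ * Zp K (n - j) (shift j θ))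
      = Zp K j θ * (Zp K L B * Zp K (n - j) (shift j θ)) := by ring
    _ ≤ Zp K j θ * Zp K (L + (n - j)) (shift j (ins j L θ B)) :=
      mul_le_mul_of_nonneg_left h hz.le

end

end Pool.Agent.OTP
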