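import Mathlib
import Pool.Agent.Lib.MP_daa227_pr_OTP.Defs
import Pool.Agent.Lib.MP_daa227_pr_OT.Ins2
import Pool.Agent.Lib.MP_daa227_pr_OTP.Dec
import Pool.Agent.Lib.MP_daa227_pr_OTP.Ins1
import Pool.Agent.Lib.MP_daa227_pr_OTP.Ann

/-!
# Pinning: the overlap is bounded below by insertion (module I3)
-/

namespace Pool.Agent.OTP

open MeasureTheory ProbabilityTheory Finset Filter Topology
open MP_daa227_pr (Chain Zk Zf K0 shift seqLaw ExpMom)
open Pool.Agent.OT (Kp Km en tr ZE AE pE cE EFam gP LE ME RE dy ins lmg)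

noncomputable section

namespace I3

open Pool.Agent.OT.I3 (measurable_shift measurable_en measurable_ins measurable_upd law3 ev
  integrable_one integrable_ev abs_u_le TT TT_le measurable_TT exp_lmg frac_mono en_update
  en_update_self en_ins)

/-! ### Measurability -/

theorem measurable_Zp (K : ℕ → ℝ) (n : ℕ) : Measurable (Zp K n) := by
  induction n using Nat.strong_induction_on with
  | _ n ih =>
    rcases n with - | n
    · have : Zp K 0 = fun _ => 1 := by funext θ; rw [Zp]
      rw [this]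
      exact measurable_const
    · have : Zp K (n + 1) = fun θ => ∑ k : Fin (n + 1),
          K (k + 1) * Real.exp (θ k) * Zp K (n - k) (shift (k + 1) θ) := by funext θ; rw [Zp]
      rw [this]
      exact Finset.measurable_fun_sum _ fun k _ =>
        ((Real.measurable_exp.comp (measurable_pi_apply _)).const_mul _).mul
          ((ih _ (by omega)).comp (measurable_shift _))

theorem measurable_prp (K : ℕ → ℝ) (n j : ℕ) : Measurable (prp K n j) := by
  unfold prp Zin
  exact ((measurable_Zp K j).mul ((measurable_Zp K _).comp (measurable_shift _))).div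
    (measurable_Zp K n)

theorem measurable_pre (K : ℕ → ℝ) (n j : ℕ) (β h : ℝ) :
    Measurable fun ω => prp K n j (en β h ω) := (measurable_prp K n j).comp (measurable_en β h)

theorem prp_nonneg {K : ℕ → ℝ} (hK : KerP K) (n j : ℕ) (θ : ℕ → ℝ) : 0 ≤ prp K n j θ := by
  unfold prp
  exact div_nonneg (Zin_pos hK n j θ).le (Zp_pos hK n θ).le

theorem prp_le_one {K : ℕ → ℝ} (hK : KerP K) {n j : ℕ} (hj1 : 1 ≤ j) (hj : j < n)
    (θ : ℕ → ℝ) : prp K n j θ ≤ 1 := by
  unfold prp
  rw [div_le_one (Zp_pos hK n θ), Zp_split hj1 hj.le θ]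
  linarith [Zout_pos hK hj1 hj θ]

/-! ### Crude bounds -/

theorem Zp_upper {K : ℕ → ℝ} (hK : KerP K) (β h : ℝ) (L : ℕ) (B : ℕ → ℝ) :
    Zp K L (en β h B) ≤ Real.exp (L * TT β h L B) := by
  have h0 : 0 ≤ TT β h L B := Finset.sum_nonneg fun i _ => abs_nonneg _
  have h1 : Zp K L (en β h B) ≤ Zp K L (fun i => (fun _ => (0 : ℝ)) i + TT β h L B) := by
    refine Zp_mono hK L fun i hi => ?_
    simp only [zero_add]
    refine (le_abs_self _).trans ?_
    exact Finset.single_le_sum (f := fun i => |β * B i - h|) (fun i _ => abs_nonneg _)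
      (Finset.mem_range.2 hi)
  have h2 := Zp_add_le hK L (fun _ => (0 : ℝ)) h0
  have h3 := Zp_const_le_one hK (le_refl (0 : ℝ)) L
  calc Zp K L (en β h B) ≤ Real.exp (L * TT β h L B) * Zp K L (fun _ => (0 : ℝ)) := h1.trans h2
    _ ≤ Real.exp (L * TT β h L B) * 1 := mul_le_mul_of_nonneg_left h3 (Real.exp_pos _).le
    _ = _ := mul_one _

theorem Zp_lower {K : ℕ → ℝ} (hK : KerP K) (L : ℕ) :
    ∃ c : ℝ, 0 < c ∧ ∀ (β h : ℝ) (B : ℕ → ℝ),
      c * Real.exp (-TT β h L B) ≤ Zp K L (en β h B) := by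
  rcases Nat.eq_zero_or_pos L with rfl | hL
  · refine ⟨1, one_pos, fun β h B => ?_⟩
    have : Zp K 0 (en β h B) = 1 := by rw [Zp]
    rw [this]
    simp [TT]
  · refine ⟨K L, hK.pos L hL, fun β h B => ?_⟩
    refine le_trans ?_ (K_le_Zp hK hL (en β h B))
    refine mul_le_mul_of_nonneg_left (Real.exp_le_exp.2 ?_) (hK.pos L hL).le
    have h1 : |β * B (L - 1) - h| ≤ TT β h L B :=
      Finset.single_le_sum (f := fun i => |β * B i - h|) (fun i _ => abs_nonneg _)
        (Finset.mem_range.2 (by omega))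
    have h2 := neg_abs_le (β * B (L - 1) - h)
    unfold en
    linarith

theorem ZZ_int {K : ℕ → ℝ} (hK : KerP K) {μ : Measure ℝ} [IsProbabilityMeasure μ]
    (hμ : ExpMom μ) (β h : ℝ) (L : ℕ) :
    Integrable (fun q : (ℕ → ℝ) × ℝ => Zp K L (en β h q.1) * Real.exp (β * q.2 - h))
      ((seqLaw μ).prod μ) ∧
    ∫ q : (ℕ → ℝ) × ℝ, Zp K L (en β h q.1) * Real.exp (β * q.2 - h) ∂(seqLaw μ).prod μ =
      Zp K L (fun _ => lmg μ β - h) * Real.exp (lmg μ β - h) := by
  obtain ⟨h1, h2⟩ := exp_lmg hμ β h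
  obtain ⟨h3, h4⟩ := ann_eq hK μ hμ β h L
  refine ⟨h3.mul_prod h1, ?_⟩
  rw [integral_prod_mul (fun B : ℕ → ℝ => Zp K L (en β h B))
    (fun x => Real.exp (β * x - h)), h4, h2]

theorem key {K : ℕ → ℝ} (hK : KerP K) {μ : Measure ℝ} [IsProbabilityMeasure μ] (hμ : ExpMom μ)
    {β : ℝ} (hβ : 0 < β) (H : ℝ) (L : ℕ) {D : ℝ} (hD : 0 < D) :
    ∃ r : ℝ, 0 < r ∧ ∀ h : ℝ, |h| ≤ H → ∀ o : ℝ, 0 < o → ∀ ψ : ℝ, 0 ≤ ψ →
      (∫ q : (ℕ → ℝ) × ℝ, Zp K L (en β h q.1) * (Real.exp (β * q.2 - h) * o) *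
        (1 - D * Real.exp (|β * q.2 - h| + 2 * TT β h L q.1) * (Real.exp (β * q.2 - h) * o))
          ∂(seqLaw μ).prod μ ≤ ψ) →
      r * (∫ x, Real.exp (β * x - h) * o / (1 + Real.exp (β * x - h) * o) ∂μ -
          2 / Zp K L (fun _ => lmg μ β - h) * ψ) ≤
        ∫ x, (Real.exp (β * x - h) * o / (1 + Real.exp (β * x - h) * o)) ^ 2 ∂μ := by
  obtain ⟨c, hc0, hcl⟩ := Zp_lower hK L
  set P : Measure ((ℕ → ℝ) × ℝ) := (seqLaw μ).prod μ with hP
  have hi1 : Integrable (fun q => c * Real.exp (-1 * ev β H L q)) P :=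
    (integrable_ev hμ β H (-1) L).const_mul c
  have hi3 : Integrable (fun q => Real.exp (((L : ℝ) + 3) * ev β H L q)) P :=
    integrable_ev hμ β H (L + 3) L
  have hm1 : 0 < ∫ q, c * Real.exp (-1 * ev β H L q) ∂P := by
    rw [integral_const_mul]
    exact mul_pos hc0 (integral_exp_pos (integrable_ev hμ β H (-1) L))
  have hm3 : 0 < ∫ q, Real.exp (((L : ℝ) + 3) * ev β H L q) ∂P := integral_exp_pos hi3
  set m1 := ∫ q, c * Real.exp (-1 * ev β H L q) ∂P with hm1'
  set m3 := ∫ q, Real.exp (((L : ℝ) + 3) * ev β H L q) ∂P with hm3'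
  set θ₀ : ℝ := m1 / (2 * D * m3) with hθ0
  have hθpos : 0 < θ₀ := by positivity
  have hix : Integrable (fun x => Real.exp (-1 * (β * |x| + H))) μ := integrable_one hμ β H (-1)
  have hmx : 0 < ∫ x, Real.exp (-1 * (β * |x| + H)) ∂μ := integral_exp_pos hix
  set θ₁ : ℝ := (∫ x, Real.exp (-1 * (β * |x| + H)) ∂μ) * (θ₀ / (1 + θ₀)) with hθ1
  have hθ1pos : 0 < θ₁ := by positivity
  refine ⟨θ₁, hθ1pos, fun h hh o ho ψ hψ hψ' => ?_⟩
  have hH : 0 ≤ H := (abs_nonneg h).trans hh
  have hu : Measurable (fun x : ℝ => Real.exp (β * x - h)) := by fun_prop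
  have hg : Measurable (fun x : ℝ => Real.exp (β * x - h) * o / (1 + Real.exp (β * x - h) * o)) :=
    by fun_prop
  have hg0 : ∀ x : ℝ, 0 ≤ Real.exp (β * x - h) * o / (1 + Real.exp (β * x - h) * o) := fun x => by
    positivity
  have hg1 : ∀ x : ℝ, Real.exp (β * x - h) * o / (1 + Real.exp (β * x - h) * o) ≤ 1 := fun x => by
    rw [div_le_one (by positivity)]
    linarith
  have hgi : Integrable (fun x : ℝ => Real.exp (β * x - h) * o /
      (1 + Real.exp (β * x - h) * o)) μ := by
    refine Integrable.of_bound hg.aestronglyMeasurable 1 (Eventually.of_forall fun x => ?_)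
    rw [Real.norm_eq_abs, abs_of_nonneg (hg0 x)]
    exact hg1 x
  have hgi2 : Integrable (fun x : ℝ => (Real.exp (β * x - h) * o /
      (1 + Real.exp (β * x - h) * o)) ^ 2) μ := by
    refine Integrable.of_bound (hg.pow_const 2).aestronglyMeasurable 1
      (Eventually.of_forall fun x => ?_)
    rw [Real.norm_eq_abs, abs_of_nonneg (by positivity)]
    exact pow_le_one₀ (hg0 x) (hg1 x)
  obtain ⟨hu1, hu2⟩ := exp_lmg hμ β h
  have hZc := Zp_pos hK L (fun _ => lmg μ β - h)
  rcases le_or_gt o θ₀ with hc | hc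
  · -- small `o`
    have hF1 : ∫ x, Real.exp (β * x - h) * o / (1 + Real.exp (β * x - h) * o) ∂μ ≤
        Real.exp (lmg μ β - h) * o := by
      rw [← hu2, ← integral_mul_const]
      refine integral_mono hgi (hu1.mul_const o) fun x => ?_
      have : 0 < Real.exp (β * x - h) * o := by positivity
      rw [div_le_iff₀ (by positivity)]
      nlinarith
    obtain ⟨hS1, hS2⟩ := ZZ_int hK hμ β h L
    have hmajm : Measurable (fun q : (ℕ → ℝ) × ℝ => Zp K L (en β h q.1) *
        Real.exp (β * q.2 - h) * (Real.exp (|β * q.2 - h| + 2 * TT β h L q.1) *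
          Real.exp (β * q.2 - h))) := by
      have h1 : Measurable (fun q : (ℕ → ℝ) × ℝ => Zp K L (en β h q.1)) :=
        ((measurable_Zp K L).comp (measurable_en β h)).comp measurable_fst
      have h2 : Measurable (fun q : (ℕ → ℝ) × ℝ => TT β h L q.1) :=
        (measurable_TT β h L).comp measurable_fst
      have h3 : Measurable (fun q : (ℕ → ℝ) × ℝ => β * q.2 - h) := by fun_prop
      exact (h1.mul (Real.measurable_exp.comp h3)).mul
        ((Real.measurable_exp.comp ((measurable_norm.comp h3).add (h2.const_mul 2))).mul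
          (Real.measurable_exp.comp h3))
    have hZ0 : ∀ q : (ℕ → ℝ) × ℝ, 0 < Zp K L (en β h q.1) := fun q => Zp_pos hK L _
    have hmaj : ∀ q : (ℕ → ℝ) × ℝ, Zp K L (en β h q.1) *
        Real.exp (β * q.2 - h) * (Real.exp (|β * q.2 - h| + 2 * TT β h L q.1) *
          Real.exp (β * q.2 - h)) ≤ Real.exp (((L : ℝ) + 3) * ev β H L q) := by
      intro q
      have h0 : 0 ≤ TT β h L q.1 := Finset.sum_nonneg fun i _ => abs_nonneg _
      have hup := Zp_upper hK β h L q.1
      calc Zp K L (en β h q.1) * Real.exp (β * q.2 - h) *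
            (Real.exp (|β * q.2 - h| + 2 * TT β h L q.1) * Real.exp (β * q.2 - h))
          ≤ Real.exp (L * TT β h L q.1) * Real.exp (β * q.2 - h) *
            (Real.exp (|β * q.2 - h| + 2 * TT β h L q.1) * Real.exp (β * q.2 - h)) := by
            gcongr
        _ ≤ _ := by
            rw [← Real.exp_add, ← Real.exp_add, ← Real.exp_add]
            refine Real.exp_le_exp.2 ?_
            have h1 := TT_le hβ hh L q
            have h3 := le_abs_self (β * q.2 - h)
            have h4 := abs_nonneg (β * q.2 - h)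
            have hL0 : (0 : ℝ) ≤ L := Nat.cast_nonneg L
            have h5 : ((L : ℝ) + 3) * (TT β h L q.1 + |β * q.2 - h|) ≤
                ((L : ℝ) + 3) * ev β H L q := mul_le_mul_of_nonneg_left h1 (by positivity)
            have h6 : 0 ≤ (L : ℝ) * |β * q.2 - h| := by positivity
            nlinarith
    have hmaji : Integrable (fun q : (ℕ → ℝ) × ℝ => Zp K L (en β h q.1) *
        Real.exp (β * q.2 - h) * (Real.exp (|β * q.2 - h| + 2 * TT β h L q.1) *
          Real.exp (β * q.2 - h))) P := by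
      refine hi3.mono' hmajm.aestronglyMeasurable (Eventually.of_forall fun q => ?_)
      have := hZ0 q
      rw [Real.norm_eq_abs, abs_of_pos (by positivity)]
      exact hmaj q
    have hM3 : ∫ q : (ℕ → ℝ) × ℝ, Zp K L (en β h q.1) *
        Real.exp (β * q.2 - h) * (Real.exp (|β * q.2 - h| + 2 * TT β h L q.1) *
          Real.exp (β * q.2 - h)) ∂P ≤ m3 := integral_mono hmaji hi3 hmaj
    have hM1 : m1 ≤ ∫ q : (ℕ → ℝ) × ℝ, Zp K L (en β h q.1) * Real.exp (β * q.2 - h) ∂P := by
      refine integral_mono hi1 hS1 fun q => ?_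
      simp only
      have h1 := TT_le hβ hh L q
      have h3 := neg_abs_le (β * q.2 - h)
      calc c * Real.exp (-1 * ev β H L q)
          ≤ c * (Real.exp (-TT β h L q.1) * Real.exp (β * q.2 - h)) := by
            rw [← Real.exp_add]
            refine mul_le_mul_of_nonneg_left (Real.exp_le_exp.2 (by linarith)) hc0.le
        _ = c * Real.exp (-TT β h L q.1) * Real.exp (β * q.2 - h) := by ring
        _ ≤ _ := mul_le_mul_of_nonneg_right (hcl β h q.1) (Real.exp_pos _).le
    have hint : ∫ q : (ℕ → ℝ) × ℝ, Zp K L (en β h q.1) * (Real.exp (β * q.2 - h) * o) *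
        (1 - D * Real.exp (|β * q.2 - h| + 2 * TT β h L q.1) * (Real.exp (β * q.2 - h) * o)) ∂P =
        o * ∫ q : (ℕ → ℝ) × ℝ, Zp K L (en β h q.1) * Real.exp (β * q.2 - h) ∂P -
        o * (D * o) * ∫ q : (ℕ → ℝ) × ℝ, Zp K L (en β h q.1) *
        Real.exp (β * q.2 - h) * (Real.exp (|β * q.2 - h| + 2 * TT β h L q.1) *
          Real.exp (β * q.2 - h)) ∂P := by
      rw [← integral_const_mul, ← integral_const_mul, ← integral_sub (hS1.const_mul _)
        (hmaji.const_mul _)]
      refine integral_congr_ae (Eventually.of_forall fun q => ?_)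
      simp only
      ring
    rw [hint] at hψ'
    rw [hS2] at hM1 hψ'
    set E1 := Zp K L (fun _ => lmg μ β - h) with hE1
    have hDo : D * o * ∫ q : (ℕ → ℝ) × ℝ, Zp K L (en β h q.1) *
        Real.exp (β * q.2 - h) * (Real.exp (|β * q.2 - h| + 2 * TT β h L q.1) *
          Real.exp (β * q.2 - h)) ∂P ≤ m1 / 2 := by
      calc D * o * ∫ q : (ℕ → ℝ) × ℝ, Zp K L (en β h q.1) *
        Real.exp (β * q.2 - h) * (Real.exp (|β * q.2 - h| + 2 * TT β h L q.1) *
          Real.exp (β * q.2 - h)) ∂P ≤ D * θ₀ * m3 := by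
            refine mul_le_mul (by gcongr) hM3 (integral_nonneg fun q => ?_)
              (by positivity)
            have := hZ0 q
            simp only [Pi.zero_apply]
            positivity
        _ = m1 / 2 := by
            rw [hθ0]
            field_simp
    have hψ2 : o * (E1 * Real.exp (lmg μ β - h)) / 2 ≤ ψ := by
      refine le_trans ?_ hψ'
      have h1 : o * (D * o) * ∫ q : (ℕ → ℝ) × ℝ, Zp K L (en β h q.1) *
        Real.exp (β * q.2 - h) * (Real.exp (|β * q.2 - h| + 2 * TT β h L q.1) *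
          Real.exp (β * q.2 - h)) ∂P ≤ o * (m1 / 2) := by
        rw [mul_assoc o]
        exact mul_le_mul_of_nonneg_left hDo (by positivity)
      have h2 : o * (m1 / 2) ≤ o * (E1 * Real.exp (lmg μ β - h) / 2) :=
        mul_le_mul_of_nonneg_left (by linarith) (by positivity)
      linarith
    have hfin : Real.exp (lmg μ β - h) * o ≤ 2 / E1 * ψ := by
      calc Real.exp (lmg μ β - h) * o = 2 / E1 *
            (o * (E1 * Real.exp (lmg μ β - h)) / 2) := by
            field_simp
        _ ≤ _ := mul_le_mul_of_nonneg_left hψ2 (by positivity)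
    have h1 : θ₁ * (∫ x, Real.exp (β * x - h) * o / (1 + Real.exp (β * x - h) * o) ∂μ -
          2 / E1 * ψ) ≤ 0 :=
      mul_nonpos_of_nonneg_of_nonpos hθ1pos.le (by linarith)
    exact h1.trans (integral_nonneg fun x => by positivity)
  · -- large `o`
    set F1 := ∫ x, Real.exp (β * x - h) * o / (1 + Real.exp (β * x - h) * o) ∂μ with hF1
    have hF1' : θ₁ ≤ F1 := by
      rw [hθ1, hF1, ← integral_mul_const]
      refine integral_mono (hix.mul_const _) hgi fun x => ?_
      simp only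
      set w := Real.exp (-1 * (β * |x| + H)) with hw
      have hw0 : 0 < w := Real.exp_pos _
      have hw1 : w ≤ 1 := by
        have : 0 ≤ β * |x| := by positivity
        exact Real.exp_le_one_iff.2 (by linarith)
      have hw2 : w ≤ Real.exp (β * x - h) := by
        refine Real.exp_le_exp.2 ?_
        have h1 := abs_u_le hβ hh x
        have h2 := neg_abs_le (β * x - h)
        linarith
      calc w * (θ₀ / (1 + θ₀)) ≤ (w * θ₀) / (1 + w * θ₀) := by
            rw [mul_div_assoc']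
            refine div_le_div_of_nonneg_left (by positivity) (by positivity) ?_
            nlinarith
        _ ≤ _ := frac_mono (by positivity) (mul_le_mul hw2 hc.le hθpos.le (Real.exp_pos _).le)
    have hF2 : F1 ^ 2 ≤ ∫ x, (Real.exp (β * x - h) * o / (1 + Real.exp (β * x - h) * o)) ^ 2 ∂μ := by
      have h0 : 0 ≤ ∫ x, (Real.exp (β * x - h) * o / (1 + Real.exp (β * x - h) * o) - F1) ^ 2 ∂μ :=
        integral_nonneg fun x => by positivity
      have e : ∀ x : ℝ, (Real.exp (β * x - h) * o / (1 + Real.exp (β * x - h) * o) - F1) ^ 2 =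
          (Real.exp (β * x - h) * o / (1 + Real.exp (β * x - h) * o)) ^ 2 -
            2 * F1 * (Real.exp (β * x - h) * o / (1 + Real.exp (β * x - h) * o)) + F1 ^ 2 :=
        fun x => by ring
      have hs : Integrable (fun x : ℝ =>
          (Real.exp (β * x - h) * o / (1 + Real.exp (β * x - h) * o)) ^ 2 -
            2 * F1 * (Real.exp (β * x - h) * o / (1 + Real.exp (β * x - h) * o))) μ :=
        hgi2.sub (hgi.const_mul _)
      simp_rw [e] at h0
      rw [integral_add hs (integrable_const _),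
        integral_sub hgi2 (hgi.const_mul _), integral_const_mul, ← hF1] at h0
      simp only [integral_const, probReal_univ, one_smul] at h0
      nlinarith
    have hc0 : 0 ≤ 2 / Zp K L (fun _ => lmg μ β - h) * ψ := by positivity
    nlinarith

/-! ### The odds -/

/-- odds of the site `j` without its own charge -/
def odds (K : ℕ → ℝ) (n j : ℕ) (θ : ℕ → ℝ) : ℝ :=
  Zin K n j θ * Real.exp (-θ (j - 1)) / Zout K n j θ

theorem odds_pos {K : ℕ → ℝ} (hK : KerP K) {n j : ℕ} (hj1 : 1 ≤ j) (hj : j < n)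
    (θ : ℕ → ℝ) : 0 < odds K n j θ :=
  div_pos (mul_pos (Zin_pos hK n j θ) (Real.exp_pos _)) (Zout_pos hK hj1 hj θ)

theorem odds_update (K : ℕ → ℝ) {n j : ℕ} (hj1 : 1 ≤ j) (hj : j ≤ n)
    (β h : ℝ) (ω : ℕ → ℝ) (x : ℝ) :
    odds K n j (en β h (Function.update ω (j - 1) x)) = odds K n j (en β h ω) := by
  unfold odds
  rw [Zin_indep hj1 hj (fun i hi => en_update β h ω (j - 1) x i hi),
    Zout_indep hj1 hj (fun i hi => en_update β h ω (j - 1) x i hi)]

theorem Zin_eq {K : ℕ → ℝ} (hK : KerP K) {n j : ℕ} (hj1 : 1 ≤ j) (hj : j < n)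
    (θ : ℕ → ℝ) :
    Zin K n j θ = Real.exp (θ (j - 1)) * odds K n j θ * Zout K n j θ := by
  have h1 := (Zout_pos hK hj1 hj θ).ne'
  unfold odds
  rw [mul_assoc, div_mul_cancel₀ _ h1, mul_comm, mul_assoc, ← Real.exp_add]
  simp

theorem prp_eq {K : ℕ → ℝ} (hK : KerP K) {n j : ℕ} (hj1 : 1 ≤ j) (hj : j < n)
    (θ : ℕ → ℝ) :
    prp K n j θ = Real.exp (θ (j - 1)) * odds K n j θ /
      (1 + Real.exp (θ (j - 1)) * odds K n j θ) := by
  have h1 := Zout_pos hK hj1 hj θ
  have h2 := odds_pos hK hj1 hj θ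
  unfold prp
  rw [Zp_split hj1 hj.le θ, Zin_eq hK hj1 hj θ, div_eq_div_iff (by positivity) (by positivity)]
  ring

theorem prp_ins {K : ℕ → ℝ} (hK : KerP K) {n j : ℕ} (hj1 : 1 ≤ j) (hj : j < n) (L : ℕ)
    (θ B : ℕ → ℝ) :
    Zp K L B * (Real.exp (θ (j - 1)) * odds K n j θ) *
      (1 - ((L : ℝ) + 1) * 2 ^ L * Real.exp (|θ (j - 1)| + 2 * ∑ i ∈ range L, |B i|) *
        (Real.exp (θ (j - 1)) * odds K n j θ)) ≤
      prp K (n + L) j (ins j L θ B) := by
  have hP := Zout_pos hK hj1 hj θ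
  have ho := odds_pos hK hj1 hj θ
  have hup := ins_upper hK hj1 hj L θ B
  have hlo := ins_lower hK hj1 hj L θ B
  have hb := Zp_pos hK L B
  have hZ := Zp_pos hK (n + L) (ins j L θ B)
  rw [Zin_eq hK hj1 hj θ] at hup hlo
  set t := Real.exp (θ (j - 1)) * odds K n j θ with ht
  have ht0 : 0 < t := by positivity
  set D := ((L : ℝ) + 1) * 2 ^ L * Real.exp (|θ (j - 1)| + 2 * ∑ i ∈ range L, |B i|)
    with hD
  have hD0 : 0 < D := by positivity
  have hden : 0 < Zout K n j θ + D * (t * Zout K n j θ) := by positivity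
  unfold prp
  calc Zp K L B * t * (1 - D * t) ≤ Zp K L B * t * (1 / (1 + D * t)) := by
        refine mul_le_mul_of_nonneg_left ?_ (by positivity)
        rw [le_div_iff₀ (by positivity)]
        nlinarith [mul_pos hD0 ht0]
    _ = Zp K L B * (t * Zout K n j θ) / (Zout K n j θ + D * (t * Zout K n j θ)) := by
        field_simp
    _ ≤ Zin K (n + L) j (ins j L θ B) / (Zout K n j θ + D * (t * Zout K n j θ)) := by
        gcongr
    _ ≤ _ := by
        refine div_le_div_of_nonneg_left ?_ hZ hup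
        exact (by positivity : (0 : ℝ) ≤ Zp K L B * (t * Zout K n j θ)).trans hlo

end I3

open I3 in
open Pool.Agent.OT.I3 (measurable_shift measurable_en measurable_ins measurable_upd law3 ev
  integrable_one integrable_ev abs_u_le TT TT_le measurable_TT exp_lmg frac_mono en_update
  en_update_self en_ins) in
open Pool.Agent.OT (update_law) in
theorem ins_main {K : ℕ → ℝ} (hK : KerP K) (μ : Measure ℝ) [IsProbabilityMeasure μ]
    (hμ : ExpMom μ) {β : ℝ} (hβ : 0 < β) (H : ℝ) (L : ℕ) :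
    ∃ r : ℝ, 0 < r ∧ ∀ h : ℝ, |h| ≤ H → ∀ n j : ℕ, 1 ≤ j → j < n →
      r * (∫ ω, prp K n j (en β h ω) ∂seqLaw μ -
          2 / Zp K L (fun _ => lmg μ β - h) * ∫ ω, prp K (n + L) j (en β h ω) ∂seqLaw μ) ≤
        ∫ ω, prp K n j (en β h ω) ^ 2 ∂seqLaw μ := by
  obtain ⟨r, hr, hkey⟩ := key hK hμ hβ H L (D := ((L : ℝ) + 1) * 2 ^ L) (by positivity)
  refine ⟨r, hr, fun h hh n j hj1 hj => ?_⟩
  set J := j - 1 with hJ
  set P : Measure ((ℕ → ℝ) × ℝ) := (seqLaw μ).prod μ with hP
  -- bounded measurable functions are integrable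
  have hbi : ∀ {α : Type} [MeasurableSpace α] (ρ : Measure α) [IsProbabilityMeasure ρ]
      (f : α → ℝ), Measurable f → (∀ x, 0 ≤ f x) → (∀ x, f x ≤ 1) → Integrable f ρ := by
    intro α _ ρ _ f hf h0 h1
    refine Integrable.of_bound hf.aestronglyMeasurable 1 (Eventually.of_forall fun x => ?_)
    rw [Real.norm_eq_abs, abs_of_nonneg (h0 x)]
    exact h1 x
  -- the three functions
  have hm1 : Measurable fun ω => prp K n j (en β h ω) := measurable_pre K n j β h
  have hm2 : Measurable fun ω => prp K n j (en β h ω) ^ 2 := hm1.pow_const 2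
  have hm3 : Measurable fun ω => prp K (n + L) j (en β h ω) := measurable_pre K (n + L) j β h
  have hu1 : Measurable fun q : (ℕ → ℝ) × ℝ => prp K n j (en β h (Function.update q.1 J q.2)) :=
    hm1.comp (measurable_upd J)
  have hu2 : Measurable fun q : (ℕ → ℝ) × ℝ =>
      prp K n j (en β h (Function.update q.1 J q.2)) ^ 2 := hu1.pow_const 2
  have hi1 := hbi ((seqLaw μ).prod μ) _ hu1 (fun q => prp_nonneg hK n j _)
    (fun q => prp_le_one hK hj1 hj _)
  have hi2 := hbi ((seqLaw μ).prod μ) _ hu2 (fun q => sq_nonneg _)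
    (fun q => pow_le_one₀ (prp_nonneg hK n j _) (prp_le_one hK hj1 hj _))
  have hinsm : Measurable (fun q : (ℕ → ℝ) × ((ℕ → ℝ) × ℝ) =>
      ins j L (Function.update q.1 J q.2.2) q.2.1) :=
    (measurable_ins j L).comp
      (((measurable_upd J).comp (measurable_fst.prodMk (measurable_snd.comp measurable_snd))).prodMk
      (measurable_fst.comp measurable_snd))
  have hu3 : Measurable (fun q : (ℕ → ℝ) × ((ℕ → ℝ) × ℝ) =>
      prp K (n + L) j (en β h (ins j L (Function.update q.1 J q.2.2) q.2.1))) :=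
    hm3.comp hinsm
  have hi3 := hbi ((seqLaw μ).prod ((seqLaw μ).prod μ)) _ hu3
    (fun q => prp_nonneg hK (n + L) j _) (fun q => prp_le_one hK hj1 (by omega) _)
  have e1 : ∫ ω, prp K n j (en β h ω) ∂seqLaw μ =
      ∫ ω, ∫ x, prp K n j (en β h (Function.update ω J x)) ∂μ ∂seqLaw μ := by
    conv_lhs => rw [← update_law μ J]
    rw [integral_map (measurable_upd J).aemeasurable hm1.aestronglyMeasurable, integral_prod _ hi1]
  have e2 : ∫ ω, prp K n j (en β h ω) ^ 2 ∂seqLaw μ =
      ∫ ω, ∫ x, prp K n j (en β h (Function.update ω J x)) ^ 2 ∂μ ∂seqLaw μ := by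
    conv_lhs => rw [← update_law μ J]
    rw [integral_map (measurable_upd J).aemeasurable hm2.aestronglyMeasurable, integral_prod _ hi2]
  have e3 : ∫ ω, prp K (n + L) j (en β h ω) ∂seqLaw μ =
      ∫ ω, ∫ q : (ℕ → ℝ) × ℝ, prp K (n + L) j
        (en β h (ins j L (Function.update ω J q.2) q.1)) ∂P ∂seqLaw μ := by
    conv_lhs => rw [← law3 μ j L J]
    rw [integral_map hinsm.aemeasurable hm3.aestronglyMeasurable, integral_prod _ hi3]
  rw [e1, e2, e3, ← integral_const_mul, ← integral_sub hi1.integral_prod_left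
    (hi3.integral_prod_left.const_mul _), ← integral_const_mul]
  refine integral_mono ((hi1.integral_prod_left.sub
    (hi3.integral_prod_left.const_mul _)).const_mul _) hi2.integral_prod_left fun ω => ?_
  simp only
  set o := odds K n j (en β h ω) with ho
  have ho0 : 0 < o := odds_pos hK hj1 hj _
  have hpr : ∀ x, prp K n j (en β h (Function.update ω J x)) =
      Real.exp (β * x - h) * o / (1 + Real.exp (β * x - h) * o) := by
    intro x
    rw [prp_eq hK hj1 hj, odds_update K hj1 hj.le, ← hJ, en_update_self, ← ho]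
  simp_rw [hpr]
  refine hkey h hh o ho0
    (∫ q : (ℕ → ℝ) × ℝ, prp K (n + L) j
      (en β h (ins j L (Function.update ω J q.2) q.1)) ∂P)
    (integral_nonneg fun q => prp_nonneg hK (n + L) j _) ?_
  have hωm : Measurable (fun q : (ℕ → ℝ) × ℝ => prp K (n + L) j
      (en β h (ins j L (Function.update ω J q.2) q.1))) :=
    hu3.comp (g := fun z : (ℕ → ℝ) × ((ℕ → ℝ) × ℝ) => prp K (n + L) j
      (en β h (ins j L (Function.update z.1 J z.2.2) z.2.1)))
      (f := fun q : (ℕ → ℝ) × ℝ => (ω, q)) (measurable_const.prodMk measurable_id)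
  have hω : Integrable (fun q : (ℕ → ℝ) × ℝ => prp K (n + L) j
      (en β h (ins j L (Function.update ω J q.2) q.1))) P :=
    hbi P _ hωm (fun q => prp_nonneg hK (n + L) j _)
      (fun q => prp_le_one hK hj1 (by omega) _)
  by_cases hint : Integrable (fun q : (ℕ → ℝ) × ℝ => Zp K L (en β h q.1) *
      (Real.exp (β * q.2 - h) * o) * (1 - ((L : ℝ) + 1) * 2 ^ L *
        Real.exp (|β * q.2 - h| + 2 * TT β h L q.1) * (Real.exp (β * q.2 - h) * o))) P
  · refine integral_mono hint hω fun q => ?_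
    have h1 := prp_ins hK hj1 hj L (en β h (Function.update ω J q.2)) (en β h q.1)
    rw [odds_update K hj1 hj.le, ← hJ, en_update_self, ← ho, ← en_ins] at h1
    exact h1
  · rw [integral_undef hint]
    exact integral_nonneg fun q => prp_nonneg hK (n + L) j _

end

end Pool.Agent.OTP
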