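import Mathlib
import Pool.Agent.Lib.MP_daa227_pr_OTP.Defs
import Pool.Agent.Lib.MP_daa227_pr_OTP.Dec
import Pool.Agent.Lib.MP_daa227_pr_OTP.Ann
import Pool.Agent.Lib.MP_daa227_pr_OTP.ZEP
import Pool.Agent.Lib.MP_daa227_pr_OTP.Ins2

/-!
# Pinning: the overlap is bounded below
-/

namespace Pool.Agent.OTP

open MeasureTheory ProbabilityTheory Finset Filter Topology
open MP_daa227_pr (Chain Zk Zf K0 shift seqLaw ExpMom)
open Pool.Agent.OT (Kp Km en tr ZE AE pE cE EFam gP LE ME RE dy ins lmg)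

noncomputable section

namespace I4

lemma prp_nonneg {K : ℕ → ℝ} (hK : KerP K) (n j : ℕ) (θ : ℕ → ℝ) : 0 ≤ prp K n j θ :=
  div_nonneg (mul_nonneg (Zp_pos hK _ _).le (Zp_pos hK _ _).le) (Zp_pos hK _ _).le

end I4

/-- the overlap is bounded below -/
theorem overlapP {K : ℕ → ℝ} (hK : KerP K) (μ : Measure ℝ) [IsProbabilityMeasure μ]
    (hμ : ExpMom μ) {β : ℝ} (hβ : 0 < β) {h₀ : ℝ} (hh : h₀ < lmg μ β) :
    ∃ r : ℝ, 0 < r ∧ ∃ L : ℕ, ∀ δ : ℝ, 0 ≤ δ → δ ≤ 1 → ∀ n : ℕ, 1 ≤ n →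
      r * (MP K μ β (h₀ - δ) n - (1 / 4) * MP K μ β (h₀ - δ) (n + L) - 2) ≤
        RP K μ β (h₀ - δ) n := by
  obtain ⟨L, hL1, hL⟩ := Zp_growth hK (c := lmg μ β - h₀) (by linarith) 16
  obtain ⟨r, hr, hins⟩ := ins_main hK μ hμ hβ (|h₀| + 1) L
  refine ⟨r, hr, L, fun δ hδ0 hδ1 n hn => ?_⟩
  set h := h₀ - δ with hh'
  have hH : |h| ≤ |h₀| + 1 := by
    rw [hh']
    refine (abs_sub _ _).trans ?_
    rw [abs_of_nonneg hδ0]
    linarith
  have hZ : 16 ≤ Zp K L (fun _ => lmg μ β - h) :=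
    hL.trans (Zp_mono hK L fun _ _ => by rw [hh']; linarith)
  have hq : 2 / Zp K L (fun _ => lmg μ β - h) ≤ 1 / 8 := by
    rw [div_le_div_iff₀ (by linarith) (by norm_num)]
    linarith
  have hq0 : 0 ≤ 2 / Zp K L (fun _ => lmg μ β - h) := by positivity
  have e1 := MP_le hK μ β h n
  have e2 := MP_ge hK μ β h (n + L) n (by omega)
  have e3 := RP_ge hK μ β h n
  have e4 : ∑ j ∈ Ico 1 n, r * (∫ ω, prp K n j (en β h ω) ∂seqLaw μ -
      (1 / 8) * ∫ ω, prp K (n + L) j (en β h ω) ∂seqLaw μ) ≤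
      ∑ j ∈ Ico 1 n, ∫ ω, prp K n j (en β h ω) ^ 2 ∂seqLaw μ := by
    refine sum_le_sum fun j hj => ?_
    rw [mem_Ico] at hj
    refine le_trans ?_ (hins h hH n j hj.1 hj.2)
    apply mul_le_mul_of_nonneg_left _ hr.le
    have h5 : 0 ≤ ∫ ω, prp K (n + L) j (en β h ω) ∂seqLaw μ :=
      integral_nonneg fun ω => I4.prp_nonneg hK _ _ _
    have h6 := mul_le_mul_of_nonneg_right hq h5
    linarith
  rw [← mul_sum, sum_sub_distrib, ← mul_sum] at e4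
  have e5 : 0 ≤ ∑ j ∈ Ico 1 n, ∫ ω, prp K (n + L) j (en β h ω) ∂seqLaw μ :=
    sum_nonneg fun j _ => integral_nonneg fun ω => I4.prp_nonneg hK _ _ _
  refine le_trans ?_ (e4.trans e3)
  apply mul_le_mul_of_nonneg_left _ hr.le
  linarith

end

end Pool.Agent.OTP
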