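import Mathlib
import Pool.Agent.Lib.MP_daa227_pr_OTP.Defs
import Pool.Agent.Lib.MP_daa227_pr_OT.TiltSeq
import Pool.Agent.Lib.MP_daa227_pr_OTP.FK
import Pool.Agent.Lib.MP_daa227_pr_OTP.ZEP

/-!
# Pinning: the tilting inequality for charges with a Gaussian component
-/

namespace Pool.Agent.OTP

open MeasureTheory ProbabilityTheory Finset Filter Topology
open MP_daa227_pr (Chain Zk Zf K0 shift seqLaw ExpMom)
open Pool.Agent.OT (Kp Km en tr ZE AE pE cE EFam gP LE ME RE dy ins lmg ZE_pos pE_nonneg pE_le_one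
  continuous_pE tilt_main)

noncomputable section

theorem tilt_seqP {K : ℕ → ℝ} (hK : KerP K) (ν : Measure ℝ) [IsProbabilityMeasure ν]
    (hν : ExpMom ν) (s : NNReal) {μ : Measure ℝ} [IsProbabilityMeasure μ]
    (hμ : μ = (gaussianReal 0 (s ^ 2)).conv ν) (hμe : ExpMom μ) {β γ : ℝ} (hβ : 0 < β) (hγ : 0 < γ)
    (h : ℝ) (k : ℕ) (t : ℕ → ℝ) (ht : ∀ j, 0 ≤ t j) (n : ℕ) :
    γ * (LP K μ β (h - dy (k + 1)) n - dy (k + 1) * MP K μ β (h - dy (k + 1)) n +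
        (β * s) ^ 2 * (∑ j ∈ range (k + 1), t j) * RP K μ β (h - dy (k + 1)) n) -
      ∑ j ∈ range (k + 1), t j * ((β * s) ^ 2 + (β * s) ^ 4 * 2 ^ (j + 1)) *
        ∑ i ∈ Ico j (k + 1), t i * MP K μ β (h - dy i) n ≤
    Real.log (∫ ω, Zp K n (en β h ω) ^ γ ∂seqLaw μ) := by
  have hE := bool_EFam hK n
  obtain ⟨w, hw⟩ : ∃ w, w = wB K n 0 := ⟨_, rfl⟩
  obtain ⟨x, hx⟩ : ∃ x, x = spB n := ⟨_, rfl⟩
  rw [← hw, ← hx] at hE
  have hZ : ∀ (c : ℝ) (ω : ℕ → ℝ), Zp K n (en β c ω) = ZE w x (tr n (en β c ω)) := by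
    intro c ω
    rw [hw, hx, ZE_eq_Zp]
  have hb : 0 ≤ β * s := mul_nonneg hβ.le s.2
  obtain ⟨P, hP⟩ : ∃ P, P = Measure.pi (fun _ : Fin n => ν) := ⟨_, rfl⟩
  have hPp : IsProbabilityMeasure P := by rw [hP]; infer_instance
  have hgp : IsProbabilityMeasure (gP (Fin n)) := by unfold gP; infer_instance
  -- the averages
  have hL : ∀ δ : ℝ, OT.E4.HI P (fun η => LE w x (β * s) (fun i => β * η i - h) δ)
      (LP K μ β (h - δ) n) := by
    intro δ
    obtain ⟨_, e1, e2, _⟩ := OT.E4.int_split ν s hμ β h δ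
      (OT.E4.continuous_log hE).measurable (OT.E4.integrable_log hE hμe β (h - δ))
    rw [← hP] at e1 e2
    refine ⟨e2, e1.trans ?_⟩
    unfold LP
    simp only [hZ]
  have hM : ∀ δ : ℝ, OT.E4.HI P (fun η => ME w x (β * s) (fun i => β * η i - h) δ)
      (MP K μ β (h - δ) n) := by
    intro δ
    have h1 := OT.E4.integrable_dens (μ := μ) hE β (h - δ) 1
    simp only [pow_one] at h1
    obtain ⟨_, e1, e2, _⟩ := OT.E4.int_split ν s hμ β h δ
      (Φ := fun θ => ∑ i, pE w x θ i)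
      (continuous_finsetSum _ fun i _ => continuous_pE hE i).measurable h1
    rw [← hP] at e1 e2
    refine ⟨e2, e1.trans ?_⟩
    unfold MP
    rw [hw, hx]
  have hR : ∀ δ : ℝ, OT.E4.HI P (fun η => RE w x (β * s) (fun i => β * η i - h) δ)
      (RP K μ β (h - δ) n) := by
    intro δ
    obtain ⟨_, e1, e2, _⟩ := OT.E4.int_split ν s hμ β h δ
      (Φ := fun θ => ∑ i, pE w x θ i ^ 2)
      (continuous_finsetSum _ fun i _ => (continuous_pE hE i).pow 2).measurable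
      (OT.E4.integrable_dens (μ := μ) hE β (h - δ) 2)
    rw [← hP] at e1 e2
    refine ⟨e2, e1.trans ?_⟩
    unfold RP
    rw [hw, hx]
  -- the left side
  have hleft := OT.E4.HI.sub (OT.E4.HI.mul γ (OT.E4.HI.add (OT.E4.HI.sub (hL (dy (k + 1)))
      (OT.E4.HI.mul (dy (k + 1)) (hM (dy (k + 1)))))
      (OT.E4.HI.mul ((β * s) ^ 2 * (∑ j ∈ range (k + 1), t j)) (hR (dy (k + 1))))))
    (OT.E4.HI.sum (range (k + 1)) fun j _ =>
      OT.E4.HI.mul (t j * ((β * s) ^ 2 + (β * s) ^ 4 * 2 ^ (j + 1)))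
        (OT.E4.HI.sum (Ico j (k + 1)) fun i _ => OT.E4.HI.mul (t i) (hM (dy i))))
  -- the right side
  have hrp : ∀ θ, ZE w x θ ^ γ = Real.exp (γ * Real.log (ZE w x θ)) := by
    intro θ
    rw [Real.rpow_def_of_pos (ZE_pos hE.w_nonneg hE.w_pos θ), mul_comm]
  obtain ⟨f1, f2, f3, f4⟩ := OT.E4.int_split ν s hμ β h 0
    (Φ := fun θ => Real.exp (γ * Real.log (ZE w x θ)))
    (Real.continuous_exp.comp ((OT.E4.continuous_log hE).const_mul γ)).measurable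
    (OT.E4.integrable_exp hE hμe β (h - 0) hγ)
  rw [← hP] at f2 f3 f4
  simp only [sub_zero, add_zero, ← hrp] at f1 f2 f3 f4
  have f5 : ∫ ω, Zp K n (en β h ω) ^ γ ∂seqLaw μ =
      ∫ ω, ZE w x (tr n (en β h ω)) ^ γ ∂seqLaw μ := by simp only [hZ]
  rw [f5]
  obtain ⟨m₀, hm₀⟩ : ∃ m₀, m₀ = ∫ ω, ZE w x (tr n (en β h ω)) ^ γ ∂seqLaw μ := ⟨_, rfl⟩
  rw [← hm₀] at f2 ⊢
  have hm0 : 0 < m₀ := by
    rw [hm₀]
    simp only [hrp] at f1 ⊢
    exact integral_exp_pos f1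
  obtain ⟨G, hG⟩ : ∃ G : (Fin n → ℝ) → ℝ, G = fun η =>
      ∫ ξ, ZE w x (fun i => β * s * ξ i + (β * η i - h)) ^ γ ∂gP (Fin n) := ⟨_, rfl⟩
  rw [← hG] at f3
  have f6 : ∫ η, G η ∂P = m₀ := by rw [hG]; exact f2
  have hright : OT.E4.HI P (fun η => Real.log m₀ + (1 / m₀) * (G η - m₀)) (Real.log m₀) := by
    have h1 : OT.E4.HI P (fun _ => Real.log m₀) (Real.log m₀) := ⟨integrable_const _, by simp⟩
    have h2 : OT.E4.HI P (fun _ => m₀) m₀ := ⟨integrable_const _, by simp⟩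
    have h3 := OT.E4.HI.add h1 (OT.E4.HI.mul (1 / m₀) (OT.E4.HI.sub ⟨f3, f6⟩ h2))
    simpa using h3
  rw [← hleft.2, ← hright.2]
  refine integral_mono_ae hleft.1 hright.1 ?_
  filter_upwards [f4] with η hη
  have h1 := tilt_main hE hb hγ (fun i => β * η i - h) k t ht
  refine h1.trans ?_
  have hGη : G η = ∫ ξ, ZE w x (fun i => β * s * ξ i + (β * η i - h)) ^ γ ∂gP (Fin n) := by
    rw [hG]
  have hGp : 0 < G η := by
    rw [hGη]
    simp only [hrp] at hη ⊢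
    exact integral_exp_pos hη
  rw [← hGη]
  have h2 := Real.log_le_sub_one_of_pos (div_pos hGp hm0)
  rw [Real.log_div hGp.ne' hm0.ne'] at h2
  have h3 : (1 / m₀) * (G η - m₀) = G η / m₀ - 1 := by field_simp
  rw [h3]
  linarith

end

end Pool.Agent.OTP
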