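import Mathlib
import Pool.Agent.Lib.MP_daa227_pr_OTP.Defs
import Pool.Agent.Lib.MP_daa227_pr_OT.Num
import Pool.Agent.Lib.MP_daa227_pr_OTP.TiltSeq
import Pool.Agent.Lib.MP_daa227_pr_OTP.Sup
import Pool.Agent.Lib.MP_daa227_pr_OTP.Hop
import Pool.Agent.Lib.MP_daa227_pr_OTP.Conv
import Pool.Agent.Lib.MP_daa227_pr_OTP.Ovl

/-!
# PROJECT OTP, module CO: the order is larger than two below the annealed critical point
-/

namespace Pool.Agent.OTP

open MeasureTheory ProbabilityTheory Finset Filter Topology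
open MP_daa227_pr (Chain Zk Zf K0 shift seqLaw ExpMom)
open Pool.Agent.OT (Kp Km en tr ZE AE pE cE EFam gP LE ME RE dy ins lmg)

noncomputable section

namespace CO

lemma dy_pos (k : ℕ) : 0 < dy k := Pool.Agent.OT.Z1.dyp k

lemma dy_le (k : ℕ) : dy k ≤ 1 := Pool.Agent.OT.Z1.dy_le1 k

/-- averaging over a dyadic block -/
lemma lim_le {f : ℕ → ℝ} {F g : ℝ} (hg : 0 ≤ g)
    (hF : Tendsto (fun n : ℕ => f n / n) atTop (𝓝 F))
    (hS : ∀ᶠ N : ℕ in atTop, ∑ n ∈ Ico N (2 * N), f n ≤ g * (N : ℝ) ^ 2) : F ≤ g := by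
  by_contra hlt
  push Not at hlt
  have h1 : g < (F + g) / 2 := by linarith
  have h2 : (F + g) / 2 < F := by linarith
  have h3 := hF.eventually (lt_mem_nhds h2)
  obtain ⟨N0, hN0⟩ := eventually_atTop.mp h3
  obtain ⟨N, hN1, hN2, hN3⟩ := (hS.and ((eventually_ge_atTop N0).and
    (eventually_ge_atTop 1))).exists
  have hNR : (0 : ℝ) < N := by exact_mod_cast hN3
  have h4 : ∀ n ∈ Ico N (2 * N), (F + g) / 2 * N ≤ f n := by
    intro n hn
    rw [Finset.mem_Ico] at hn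
    have h5 := hN0 n (le_trans hN2 hn.1)
    have hn0 : (0 : ℝ) < n := by
      have : 0 < n := by omega
      exact_mod_cast this
    have h6 : (F + g) / 2 * n < f n := by
      rw [lt_div_iff₀ hn0] at h5
      exact h5
    have h7 : (N : ℝ) ≤ n := by exact_mod_cast hn.1
    have h8 : (F + g) / 2 * N ≤ (F + g) / 2 * n := mul_le_mul_of_nonneg_left h7 (by linarith)
    linarith
  have h5 := card_nsmul_le_sum _ _ _ h4
  rw [Nat.card_Ico, nsmul_eq_mul, show 2 * N - N = N by omega] at h5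
  have h6 : (N : ℝ) * ((F + g) / 2 * N) ≤ g * (N : ℝ) ^ 2 := h5.trans hN1
  have h7 : ((F + g) / 2 - g) * ((N : ℝ) ^ 2) ≤ 0 := by nlinarith
  have h8 : 0 < ((F + g) / 2 - g) * ((N : ℝ) ^ 2) := by
    have : 0 < (F + g) / 2 - g := by linarith
    positivity
  linarith

/-- from the dyadic scales to all of them -/
lemma scales {G : ℝ → ℝ} (hmono : ∀ δ δ', δ ≤ δ' → G δ ≤ G δ') (hG0 : G 0 ≤ 0) {D q : ℝ}
    (hD : 0 < D) (hq0 : 0 < q) (hq1 : q < 1 / 2) (h : ∀ k : ℕ, G (dy k) ≤ D * dy k * q ^ k) :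
    ∃ ε C : ℝ, 0 < ε ∧ 0 ≤ C ∧ ∀ δ : ℝ, 0 ≤ δ → δ ≤ 1 → G δ ≤ C * δ ^ (2 + ε) := by
  have hl2 : 0 < Real.log 2 := Real.log_pos (by norm_num)
  set ε := -Real.log q / Real.log 2 - 1 with hε
  have hlq : Real.log q < -Real.log 2 := by
    have h1 := Real.log_lt_log hq0 hq1
    rw [one_div, Real.log_inv] at h1
    exact h1
  have hε0 : 0 < ε := by
    rw [hε, sub_pos, lt_div_iff₀ hl2]
    linarith
  have hdy : ∀ k : ℕ, Real.log (dy k) = -(k * Real.log 2) := by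
    intro k
    unfold Pool.Agent.OT.dy
    rw [Real.log_pow, one_div, Real.log_inv]
    ring
  have hpow : ∀ k : ℕ, dy k * q ^ k = (dy k) ^ (2 + ε) := by
    intro k
    have h1 : 0 < dy k * q ^ k := mul_pos (dy_pos k) (pow_pos hq0 k)
    rw [Real.rpow_def_of_pos (dy_pos k), ← Real.exp_log h1, Real.log_mul (dy_pos k).ne'
      (pow_pos hq0 k).ne', Real.log_pow, hdy]
    congr 1
    have h2 : Real.log 2 * ε = -Real.log q - Real.log 2 := by
      rw [hε]
      field_simp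
    have h3 : -(↑k * Real.log 2) * (2 + ε) = -(2 * (k * Real.log 2)) - k * (Real.log 2 * ε) := by
      ring
    rw [h3, h2]
    ring
  refine ⟨ε, D * 2 ^ (2 + ε), hε0, by positivity, fun δ hδ0 hδ1 => ?_⟩
  rcases eq_or_lt_of_le hδ0 with hδ | hδ
  · rw [← hδ, Real.zero_rpow (by linarith), mul_zero]
    exact hG0
  · obtain ⟨k, hk1, hk2⟩ := exists_nat_pow_near_of_lt_one hδ hδ1
      (show (0 : ℝ) < 1 / 2 by norm_num) (by norm_num)
    have h1 : G δ ≤ G (dy k) := hmono _ _ hk2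
    have h2 : dy k ≤ 2 * δ := by
      have h3 : dy (k + 1) < δ := hk1
      rw [Pool.Agent.OT.Z1.dys] at h3
      linarith
    have h3 : (dy k) ^ (2 + ε) ≤ (2 * δ) ^ (2 + ε) :=
      Real.rpow_le_rpow (dy_pos k).le h2 (by linarith)
    have h4 : (2 * δ) ^ (2 + ε) = 2 ^ (2 + ε) * δ ^ (2 + ε) :=
      Real.mul_rpow (by norm_num) hδ.le
    calc G δ ≤ G (dy k) := h1
      _ ≤ D * dy k * q ^ k := h k
      _ = D * (dy k) ^ (2 + ε) := by rw [← hpow, mul_assoc]
      _ ≤ D * (2 * δ) ^ (2 + ε) := mul_le_mul_of_nonneg_left h3 hD.le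
      _ = D * 2 ^ (2 + ε) * δ ^ (2 + ε) := by rw [h4, mul_assoc]

end CO

theorem core {K : ℕ → ℝ} (hK : KerP K) (ν : Measure ℝ) [IsProbabilityMeasure ν]
    (hν : ExpMom ν) (s : NNReal) (hs : 0 < s) {μ : Measure ℝ} [IsProbabilityMeasure μ]
    (hμ : μ = (gaussianReal 0 (s ^ 2)).conv ν) (hμe : ExpMom μ) {β : ℝ} (hβ : 0 < β)
    (F : ℝ → ℝ) (hF : ∀ h, Tendsto (fun n : ℕ => LP K μ β h n / n) atTop (𝓝 (F h)))
    (hmono : ∀ h h', h ≤ h' → F h' ≤ F h) {hc : ℝ} (h0 : ∀ n, LP K μ β hc n ≤ 0)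
    (hlt : hc < lmg μ β) :
    ∃ ε C : ℝ, 0 < ε ∧ 0 ≤ C ∧ ∀ δ : ℝ, 0 ≤ δ → δ ≤ 1 → F (hc - δ) ≤ C * δ ^ (2 + ε) := by
  obtain ⟨γ, A1, hγ, hA1, hhop⟩ := hopP hK μ hμe hβ hc h0
  obtain ⟨A2, hA2, hge⟩ := LP_ge hK μ hμe β (|hc| + 1)
  obtain ⟨r, hr, L, hov⟩ := overlapP hK μ hμe hβ hlt
  have hA : 0 ≤ max A1 A2 := le_max_of_le_left hA1
  have hsR : (0 : ℝ) < s := by exact_mod_cast hs
  have hb : 0 < β * (s : ℝ) := mul_pos hβ hsR
  obtain ⟨D, q, hD, hq0, hq1, hmain⟩ := Pool.Agent.OT.num_main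
    (fun k n => MP K μ β (hc - dy k) n) (fun k n => RP K μ β (hc - dy k) n) r γ (β * s)
    (max A1 A2) L hr hγ hb hA
    (fun k n => (MP_bounds hK μ β (hc - dy k) n).1)
    (fun k n => by
      have h1 := (MP_bounds hK μ β (hc - dy k) n).2.1
      have h2 : (0 : ℝ) ≤ n := Nat.cast_nonneg n
      linarith)
    (fun k n hn => hov (dy k) (CO.dy_pos k).le (CO.dy_le k) n hn)
    (fun k n hn t ht => by
      have hlog : 0 ≤ 1 + Real.log n := by
        have : (1 : ℝ) ≤ n := by exact_mod_cast hn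
        have := Real.log_nonneg this
        linarith
      have h1 := tilt_seqP hK ν hν s hμ hμe hβ hγ hc k t ht n
      have h2 := (hhop n hn).2
      have h3 : |hc - dy (k + 1)| ≤ |hc| + 1 := by
        have h4 := abs_sub hc (dy (k + 1))
        have h5 : |dy (k + 1)| ≤ 1 := by
          rw [abs_of_pos (CO.dy_pos _)]
          exact CO.dy_le _
        linarith
      have h4 := hge (hc - dy (k + 1)) h3 n hn
      have h5 : A1 * (1 + Real.log n) ≤ max A1 A2 * (1 + Real.log n) :=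
        mul_le_mul_of_nonneg_right (le_max_left _ _) hlog
      have h6 : A2 * (1 + Real.log n) ≤ max A1 A2 * (1 + Real.log n) :=
        mul_le_mul_of_nonneg_right (le_max_right _ _) hlog
      have h7 : γ * (-(max A1 A2 * (1 + Real.log n)) - dy (k + 1) * MP K μ β (hc - dy (k + 1)) n +
          (β * s) ^ 2 * (∑ j ∈ range (k + 1), t j) * RP K μ β (hc - dy (k + 1)) n) ≤
          γ * (LP K μ β (hc - dy (k + 1)) n - dy (k + 1) * MP K μ β (hc - dy (k + 1)) n +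
          (β * s) ^ 2 * (∑ j ∈ range (k + 1), t j) * RP K μ β (hc - dy (k + 1)) n) := by
        refine mul_le_mul_of_nonneg_left ?_ hγ.le
        linarith
      show γ * (-(max A1 A2 * (1 + Real.log n)) - dy (k + 1) * MP K μ β (hc - dy (k + 1)) n +
          (β * s) ^ 2 * (∑ j ∈ range (k + 1), t j) * RP K μ β (hc - dy (k + 1)) n) -
        ∑ j ∈ range (k + 1), t j * ((β * s) ^ 2 + (β * s) ^ 4 * 2 ^ (j + 1)) *
          ∑ i ∈ Ico j (k + 1), t i * MP K μ β (hc - dy i) n ≤ max A1 A2 * (1 + Real.log n)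
      linarith)
  have hk : ∀ k : ℕ, F (hc - dy k) ≤ D * dy k * q ^ k := by
    intro k
    have hd := CO.dy_pos k
    refine CO.lim_le (by positivity) (hF (hc - dy k)) ?_
    filter_upwards [hmain k] with N hN
    have h1 : ∀ n ∈ Ico N (2 * N), LP K μ β (hc - dy k) n ≤ dy k * MP K μ β (hc - dy k) n := by
      intro n _
      have h2 := LP_conv hK μ hμe β hc (dy k) hd.le n
      have h3 := h0 n
      linarith
    have h2 := Finset.sum_le_sum h1
    rw [← Finset.mul_sum] at h2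
    have h3 := mul_le_mul_of_nonneg_left hN hd.le
    have h4 : dy k * (D * q ^ k * (N : ℝ) ^ 2) = D * dy k * q ^ k * (N : ℝ) ^ 2 := by ring
    rw [h4] at h3
    exact h2.trans h3
  have hF0 : F (hc - 0) ≤ 0 := by
    rw [sub_zero]
    refine le_of_tendsto' (hF hc) fun n => ?_
    exact div_nonpos_of_nonpos_of_nonneg (h0 n) (Nat.cast_nonneg n)
  exact CO.scales (G := fun δ => F (hc - δ)) (fun δ δ' h => hmono _ _ (by linarith)) hF0 hD hq0
    hq1 hk

end

end Pool.Agent.OTP
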