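import Mathlib
import Pool.Agent.Lib.MP_daa227_pr_OTP.Defs
import Pool.Agent.Lib.MP_daa227_pr_OTP.FK
import Pool.Agent.Lib.MP_daa227_pr_OT.Defs2
import Pool.Agent.Lib.MP_daa227_pr_OT.TiltSeq
import Pool.Agent.Lib.MP_daa227_pr_OT.Main2
import Pool.Agent.Lib.MP_daa227_pr_OTP.ZEP

/-!
# Pinning: the multiscale inequality for all charge laws
-/

namespace Pool.Agent.OTP

open MeasureTheory ProbabilityTheory Finset Filter Topology
open MP_daa227_pr (Chain Zk Zf K0 shift seqLaw ExpMom)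
open Pool.Agent.OT (Kp Km en tr ZE AE pE cE EFam gP LE ME RE dy ins lmg)

noncomputable section

namespace S2

lemma spB_zero_one (n : ℕ) (s : Fin n → Bool) (i : Fin n) : spB n s i = 0 ∨ spB n s i = 1 := by
  unfold spB
  split_ifs <;> simp

/-- averages over the sequence of charges and over the first `n` charges -/
lemma int_tr (μ : Measure ℝ) [IsProbabilityMeasure μ] (n : ℕ) (β h δ : ℝ)
    (Φ : (Fin n → ℝ) → ℝ) (hΦ : Measurable Φ) :
    ∫ ω, Φ (tr n (en β (h - δ) ω)) ∂seqLaw μ =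
      ∫ ω : Fin n → ℝ, Φ (fun i => β * ω i + (-h) + δ) ∂Measure.pi (fun _ : Fin n => μ) := by
  have h1 := OT.E4.mp_tr μ n
  have h2 : Measurable fun v : Fin n → ℝ => Φ (fun i => β * v i + (-h) + δ) :=
    hΦ.comp (by rw [measurable_pi_iff]; intro i; fun_prop)
  rw [← h1.map_eq, integral_map h1.measurable.aemeasurable h2.aestronglyMeasurable]
  congr 1
  funext ω
  congr 1
  funext i
  unfold tr en
  ring

lemma int_tr0 (μ : Measure ℝ) [IsProbabilityMeasure μ] (n : ℕ) (β h : ℝ)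
    (Φ : (Fin n → ℝ) → ℝ) (hΦ : Measurable Φ) :
    ∫ ω, Φ (tr n (en β h ω)) ∂seqLaw μ =
      ∫ ω : Fin n → ℝ, Φ (fun i => β * ω i + (-h)) ∂Measure.pi (fun _ : Fin n => μ) := by
  have := int_tr μ n β h 0 Φ hΦ
  simpa using this

end S2

open S2 in
theorem adapt_seqP {K : ℕ → ℝ} (hK : KerP K) (μ : Measure ℝ) [IsProbabilityMeasure μ]
    (hμ : ExpMom μ) (hmean : ∫ x, x ∂μ = 0) (hvar : ∫ x, x ^ 2 ∂μ ≠ 0) {β : ℝ} (hβ : 0 < β) :
    ∃ c₀ c₁ c₂ C₂ C₃ : ℝ, 0 < c₀ ∧ 0 < c₁ ∧ 0 < c₂ ∧ 0 < C₂ ∧ 0 < C₃ ∧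
      ∀ (h γ : ℝ), 0 < γ → ∀ (a : ℝ), 0 ≤ a →
        ∀ (k : ℕ) (t : ℕ → ℝ), (∀ j, 0 ≤ t j) → (∀ j, t j ≤ c₀ * dy (j + 1)) → ∀ n : ℕ,
      γ * (LP K μ β (h - dy (k + 1)) n - dy (k + 1) * MP K μ β (h - dy (k + 1)) n +
          c₁ * (∑ j ∈ range (k + 1), t j) * (Real.exp (-a) *
            ((1 + a) * c₂ * RP K μ β (h - dy (k + 1)) n -
              C₃ * MP K μ β (h - dy (k + 1)) n))) -
        C₂ * ∑ j ∈ range (k + 1), t j ^ 2 * 2 ^ (j + 1) * MP K μ β (h - dy j) n ≤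
      Real.log (∫ ω, Zp K n (en β h ω) ^ γ ∂seqLaw μ) := by
  obtain ⟨c₀, c₁, c₂, C₂, C₃, h0, h1, h2, h3, h4, hmain⟩ := OT.adapt_main μ hμ hmean hvar hβ
  refine ⟨c₀, c₁, c₂, C₂, C₃, h0, h1, h2, h3, h4, fun h γ hγ a ha k t ht ht' n => ?_⟩
  have hE := bool_EFam hK n
  have key := hmain hE (spB_zero_one n) (fun _ => -h) γ hγ a ha k t ht ht'
  have eL : ∀ δ : ℝ, LP K μ β (h - δ) n = OT.LP μ (wB K n 0) (spB n) β (fun _ => -h) δ := by
    intro δ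
    unfold LP OT.LP
    rw [← int_tr μ n β h δ (fun θ => Real.log (ZE (wB K n 0) (spB n) θ))
      (OT.E4.continuous_log hE).measurable]
    simp only [ZE_eq_Zp]
  have eM : ∀ δ : ℝ, MP K μ β (h - δ) n = OT.MP μ (wB K n 0) (spB n) β (fun _ => -h) δ := by
    intro δ
    unfold MP OT.MP
    exact int_tr μ n β h δ (fun θ => ∑ i, pE (wB K n 0) (spB n) θ i)
      (continuous_finsetSum _ fun i _ => OT.continuous_pE hE i).measurable
  have eR : ∀ δ : ℝ, RP K μ β (h - δ) n = OT.RP μ (wB K n 0) (spB n) β (fun _ => -h) δ := by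
    intro δ
    unfold RP OT.RP
    exact int_tr μ n β h δ (fun θ => ∑ i, pE (wB K n 0) (spB n) θ i ^ 2)
      (continuous_finsetSum _ fun i _ => (OT.continuous_pE hE i).pow 2).measurable
  have eZ : ∫ ω, Zp K n (en β h ω) ^ γ ∂seqLaw μ =
      ∫ ω : Fin n → ℝ, ZE (wB K n 0) (spB n) (fun i => β * ω i + (-h)) ^ γ
        ∂Measure.pi (fun _ : Fin n => μ) := by
    rw [← int_tr0 μ n β h (fun θ => ZE (wB K n 0) (spB n) θ ^ γ)
      (OT.E4.continuous_ZE.measurable.pow_const γ)]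
    simp only [ZE_eq_Zp]
  rw [eZ]
  simp only [eL, eM, eR]
  exact key

end

end Pool.Agent.OTP
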