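import Mathlib
import Pool.Agent.Lib.MP_daa227_pr_OTP.Defs
import Pool.Agent.Lib.MP_daa227_pr_OT.Defs2
import Pool.Agent.Lib.MP_daa227_pr_OT.Num2
import Pool.Agent.Lib.MP_daa227_pr_OTP.Seq2
import Pool.Agent.Lib.MP_daa227_pr_OTP.Ovl
import Pool.Agent.Lib.MP_daa227_pr_OTP.Sup
import Pool.Agent.Lib.MP_daa227_pr_OTP.Hop
import Pool.Agent.Lib.MP_daa227_pr_OTP.Conv

/-!
# Pinning: the order is larger than two below the annealed critical point, all charge laws
-/

namespace Pool.Agent.OTP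

open MeasureTheory ProbabilityTheory Finset Filter Topology
open MP_daa227_pr (Chain Zk Zf K0 shift seqLaw ExpMom)
open Pool.Agent.OT (Kp Km en tr ZE AE pE cE EFam gP LE ME RE dy ins lmg)

noncomputable section

namespace C2

lemma dy_pos (k : ℕ) : 0 < dy k := by unfold dy; positivity

lemma dy_le_one (k : ℕ) : dy k ≤ 1 := by
  unfold dy
  exact pow_le_one₀ (by norm_num) (by norm_num)

/-- from the averages over the scales to the free energy -/
lemma scale_le {L M : ℕ → ℝ} {F d X : ℝ} (hF : Tendsto (fun n : ℕ => L n / n) atTop (𝓝 F))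
    (hd : 0 ≤ d) (hX : 0 ≤ X) (hLM : ∀ n, L n ≤ d * M n)
    (hN : ∀ᶠ N : ℕ in atTop, ∑ n ∈ Ico N (2 * N), M n ≤ X * (N : ℝ) ^ 2) : F ≤ d * X := by
  apply le_of_forall_pos_le_add
  intro η hη
  by_cases hF0 : F - η ≤ 0
  · have := mul_nonneg hd hX
    linarith
  push Not at hF0
  have h1 : ∀ᶠ n : ℕ in atTop, F - η < L n / n := hF.eventually_const_lt (by linarith)
  obtain ⟨N₁, hN₁⟩ := eventually_atTop.1 h1
  obtain ⟨N₂, hN₂⟩ := eventually_atTop.1 hN
  set N := max (max N₁ N₂) 1 with hNdef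
  have hN1 : N₁ ≤ N := (le_max_left _ _).trans (le_max_left _ _)
  have hN2 : N₂ ≤ N := (le_max_right _ _).trans (le_max_left _ _)
  have hN3 : 1 ≤ N := le_max_right _ _
  have hNpos : (0 : ℝ) < N := by exact_mod_cast hN3
  have h2 : (F - η) * (N : ℝ) ^ 2 ≤ ∑ n ∈ Ico N (2 * N), L n := by
    have h3 : ∀ n ∈ Ico N (2 * N), (F - η) * N ≤ L n := by
      intro n hn
      rw [mem_Ico] at hn
      have h4 := hN₁ n (by omega)
      have hn0 : (0 : ℝ) < n := by
        have : 0 < n := by omega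
        exact_mod_cast this
      rw [lt_div_iff₀ hn0] at h4
      have h5 : (N : ℝ) ≤ n := by exact_mod_cast hn.1
      have h6 := mul_le_mul_of_nonneg_left h5 hF0.le
      linarith
    have h4 := sum_le_sum h3
    rw [sum_const, Nat.card_Ico, nsmul_eq_mul] at h4
    have h5 : ((2 * N - N : ℕ) : ℝ) = N := by
      have : 2 * N - N = N := by omega
      rw [this]
    rw [h5] at h4
    calc (F - η) * (N : ℝ) ^ 2 = N * ((F - η) * N) := by ring
      _ ≤ _ := h4
  have h3 : ∑ n ∈ Ico N (2 * N), L n ≤ d * ∑ n ∈ Ico N (2 * N), M n := by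
    rw [mul_sum]
    exact sum_le_sum fun n _ => hLM n
  have h4 := mul_le_mul_of_nonneg_left (hN₂ N hN2) hd
  have h5 : (F - η) * (N : ℝ) ^ 2 ≤ d * X * (N : ℝ) ^ 2 := by
    calc (F - η) * (N : ℝ) ^ 2 ≤ _ := h2
      _ ≤ _ := h3
      _ ≤ _ := h4
      _ = _ := by ring
  have h6 := le_of_mul_le_mul_right h5 (by positivity)
  linarith

/-- from the dyadic scales to all scales -/
lemma endgame {F : ℝ → ℝ} (hmono : ∀ h h', h ≤ h' → F h' ≤ F h) {hc : ℝ} (hF0 : F hc ≤ 0)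
    {D q : ℝ} (hD : 0 < D) (hq0 : 0 < q) (hq : q < 1 / 2)
    (hk : ∀ k, F (hc - dy k) ≤ dy k * (D * q ^ k)) :
    ∃ ε C : ℝ, 0 < ε ∧ 0 ≤ C ∧ ∀ δ : ℝ, 0 ≤ δ → δ ≤ 1 → F (hc - δ) ≤ C * δ ^ (2 + ε) := by
  have hl2 : 0 < Real.log 2 := Real.log_pos (by norm_num)
  set ε : ℝ := -Real.log q / Real.log 2 - 1 with hε
  have hε0 : 0 < ε := by
    have h1 : Real.log q < Real.log (1 / 2) := Real.log_lt_log hq0 hq
    rw [one_div, Real.log_inv] at h1
    rw [hε, sub_pos, lt_div_iff₀ hl2]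
    linarith
  have hqk : ∀ k, dy k * q ^ k = dy k ^ (2 + ε) := by
    intro k
    have e1 : dy k = Real.exp (-(k * Real.log 2)) := by
      unfold dy
      rw [one_div, ← Real.exp_log (show (0 : ℝ) < 2⁻¹ by norm_num), ← Real.exp_nat_mul, Real.log_inv]
      congr 1
      ring
    have e2 : q ^ k = Real.exp (k * Real.log q) := by
      rw [Real.exp_nat_mul, Real.exp_log hq0]
    rw [e1, e2, ← Real.exp_mul, ← Real.exp_add]
    congr 1
    rw [hε]
    field_simp
    ring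
  refine ⟨ε, D * 2 ^ (2 + ε), hε0, by positivity, fun δ hδ0 hδ1 => ?_⟩
  rcases hδ0.eq_or_lt with h | h
  · rw [← h, sub_zero, Real.zero_rpow (by linarith), mul_zero]
    exact hF0
  · obtain ⟨k, hk1, hk2⟩ := exists_nat_pow_near_of_lt_one h hδ1 (show (0 : ℝ) < 1 / 2 by norm_num)
      (by norm_num)
    have h1 : F (hc - δ) ≤ F (hc - dy k) := by
      apply hmono
      have : δ ≤ dy k := hk2
      linarith
    have h2 : dy k ≤ 2 * δ := by
      have h3 : (1 / 2 : ℝ) ^ (k + 1) < δ := hk1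
      unfold dy
      rw [pow_succ] at h3
      linarith
    calc F (hc - δ) ≤ dy k * (D * q ^ k) := h1.trans (hk k)
      _ = D * dy k ^ (2 + ε) := by rw [← hqk k]; ring
      _ ≤ D * (2 * δ) ^ (2 + ε) := by
          apply mul_le_mul_of_nonneg_left _ hD.le
          exact Real.rpow_le_rpow (dy_pos k).le h2 (by linarith)
      _ = D * 2 ^ (2 + ε) * δ ^ (2 + ε) := by
          rw [Real.mul_rpow (by norm_num) h.le]
          ring

end C2

open C2 in
theorem core2 {K : ℕ → ℝ} (hK : KerP K) (μ : Measure ℝ) [IsProbabilityMeasure μ]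
    (hμ : ExpMom μ) (hmean : ∫ x, x ∂μ = 0) (hvar : ∫ x, x ^ 2 ∂μ ≠ 0) {β : ℝ} (hβ : 0 < β)
    (F : ℝ → ℝ) (hF : ∀ h, Tendsto (fun n : ℕ => LP K μ β h n / n) atTop (𝓝 (F h)))
    (hmono : ∀ h h', h ≤ h' → F h' ≤ F h) {hc : ℝ} (h0 : ∀ n, LP K μ β hc n ≤ 0)
    (hlt : hc < lmg μ β) :
    ∃ ε C : ℝ, 0 < ε ∧ 0 ≤ C ∧ ∀ δ : ℝ, 0 ≤ δ → δ ≤ 1 → F (hc - δ) ≤ C * δ ^ (2 + ε) := by
  obtain ⟨c₀, c₁, c₂, C₂, C₃, hc₀, hc₁, hc₂, hC₂, hC₃, hmain⟩ := adapt_seqP hK μ hμ hmean hvar hβ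
  obtain ⟨r₀, hr₀, L, hov⟩ := overlapP hK μ hμ hβ hlt
  obtain ⟨γ, A₁, hγ, hA₁, hhop⟩ := hopP hK μ hμ hβ hc h0
  obtain ⟨A₂, hA₂, hlow⟩ := LP_ge hK μ hμ β (|hc| + 1)
  set a : ℝ := 2 * C₃ / (c₂ * r₀) with ha
  have ha0 : 0 ≤ a := by positivity
  set κ : ℝ := (1 + a) * c₂ * r₀ with hκ
  have hκ0 : 0 < κ := by positivity
  have hκC : 2 * C₃ ≤ κ := by
    have e : κ = c₂ * r₀ + 2 * C₃ := by
      rw [hκ, ha]
      field_simp
    rw [e]
    have : 0 < c₂ * r₀ := by positivity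
    linarith
  set r : ℝ := c₁ * Real.exp (-a) * (κ / 2) with hr
  have hr0 : 0 < r := by
    have := Real.exp_pos (-a)
    positivity
  set A : ℝ := max A₁ A₂ with hA
  have hA0 : 0 ≤ A := hA₁.trans (le_max_left _ _)
  have hB := fun k n => MP_bounds hK μ β (hc - dy k) n
  obtain ⟨D, q, hD, hq0, hq, hN⟩ := OT.num_main2 (fun k n => MP K μ β (hc - dy k) n) r γ C₂ c₀ A L
    hr0 hγ hC₂ hc₀ hA0 (fun k n => (hB k n).1)
    (fun k n => (hB k n).2.1.trans (by have : (0 : ℝ) ≤ n := Nat.cast_nonneg n; linarith)) (by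
      intro k n hn t ht ht'
      have hn1 : (1 : ℝ) ≤ n := by exact_mod_cast hn
      have hlog : 0 ≤ 1 + Real.log n := by have := Real.log_nonneg hn1; linarith
      have e1 := hmain hc γ hγ a ha0 k t ht ht' n
      have e2 := (hhop n hn).2
      have e3 := hlow (hc - dy (k + 1)) (by
        refine (abs_sub _ _).trans ?_
        rw [abs_of_pos (dy_pos _)]
        have := dy_le_one (k + 1)
        linarith) n hn
      have e4 := hov (dy (k + 1)) (dy_pos _).le (dy_le_one _) n hn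
      have i1 : A₁ * (1 + Real.log n) ≤ A * (1 + Real.log n) :=
        mul_le_mul_of_nonneg_right (le_max_left _ _) hlog
      have i2 : A₂ * (1 + Real.log n) ≤ A * (1 + Real.log n) :=
        mul_le_mul_of_nonneg_right (le_max_right _ _) hlog
      set M1 := MP K μ β (hc - dy (k + 1)) n with hM1
      set M2 := MP K μ β (hc - dy (k + 1)) (n + L) with hM2
      set R1 := RP K μ β (hc - dy (k + 1)) n with hR1
      have hM10 : 0 ≤ M1 := (hB (k + 1) n).1
      have hT0 : 0 ≤ ∑ j ∈ range (k + 1), t j := sum_nonneg fun j _ => ht j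
      have hea := Real.exp_pos (-a)
      have i3 : κ / 2 * (M1 - 1 / 2 * M2 - 4) ≤ (1 + a) * c₂ * R1 - C₃ * M1 := by
        have j1 : (1 + a) * c₂ * (r₀ * (M1 - 1 / 4 * M2 - 2)) ≤ (1 + a) * c₂ * R1 :=
          mul_le_mul_of_nonneg_left e4 (by positivity)
        have j2 : (1 + a) * c₂ * (r₀ * (M1 - 1 / 4 * M2 - 2)) = κ * (M1 - 1 / 4 * M2 - 2) := by
          rw [hκ]; ring
        rw [j2] at j1
        have j3 := mul_le_mul_of_nonneg_right hκC hM10
        linarith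
      have i4 : r * (∑ j ∈ range (k + 1), t j) * (M1 - 1 / 2 * M2 - 4) ≤
          c₁ * (∑ j ∈ range (k + 1), t j) * (Real.exp (-a) * ((1 + a) * c₂ * R1 - C₃ * M1)) := by
        have j1 : 0 ≤ c₁ * (∑ j ∈ range (k + 1), t j) * Real.exp (-a) := by positivity
        have j2 := mul_le_mul_of_nonneg_left i3 j1
        calc r * (∑ j ∈ range (k + 1), t j) * (M1 - 1 / 2 * M2 - 4)
            = c₁ * (∑ j ∈ range (k + 1), t j) * Real.exp (-a) *
              (κ / 2 * (M1 - 1 / 2 * M2 - 4)) := by rw [hr]; ring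
          _ ≤ _ := j2
          _ = _ := by ring
      have i5 : -(A * (1 + Real.log n)) - dy (k + 1) * M1 +
          r * (∑ j ∈ range (k + 1), t j) * (M1 - 1 / 2 * M2 - 4) ≤
          LP K μ β (hc - dy (k + 1)) n - dy (k + 1) * M1 +
          c₁ * (∑ j ∈ range (k + 1), t j) * (Real.exp (-a) * ((1 + a) * c₂ * R1 - C₃ * M1)) := by
        linarith
      have i6 := mul_le_mul_of_nonneg_left i5 hγ.le
      linarith)
  have hF0 : F hc ≤ 0 := by
    refine le_of_tendsto (hF hc) (Eventually.of_forall fun n => ?_)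
    exact div_nonpos_of_nonpos_of_nonneg (h0 n) (Nat.cast_nonneg n)
  refine endgame hmono hF0 hD hq0 hq fun k => ?_
  refine scale_le (hF (hc - dy k)) (dy_pos k).le (by positivity)
    (M := fun n => MP K μ β (hc - dy k) n) (fun n => ?_) (hN k)
  have h1 := LP_conv hK μ hμ β hc (dy k) (dy_pos k).le n
  have h2 := h0 n
  linarith

end

end Pool.Agent.OTP
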