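import Mathlib
import Pool.Agent.Lib.MP_daa227_pr_OTP.Defs
import Pool.Agent.Lib.MP_daa227_pr_OT.KZ
import Pool.Agent.Lib.MP_daa227_pr.Deco

/-!
# PROJECT OTP, module KZ: the pinning model in terms of its renewal kernel
-/

namespace Pool.Agent.OTP

open MeasureTheory ProbabilityTheory Finset Filter Topology
open MP_daa227_pr (Chain Zk Zf K0 shift seqLaw ExpMom)
open Pool.Agent.OT (Kp Km en tr ZE AE pE cE EFam gP LE ME RE dy ins lmg)

noncomputable section

namespace KZ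

open MP_daa227_pr (Gk Gf Ren Zk_eq_Ren Ren_pos_eq Zf_last)

variable (C : Chain) (β h : ℝ)

theorem Wpin_ne {a : ℝ} {z : ℤ} (hz : z ≠ 0) : Wpin β h a z = 1 := by
  unfold Wpin
  rw [if_neg hz, mul_zero, Real.exp_zero]

theorem Wpin_zero (a : ℝ) : Wpin β h a 0 = Real.exp (β * a - h) := by
  unfold Wpin
  rw [if_pos rfl, mul_one]

/-- the kernel off zero -/
theorem Gk_ne : ∀ (n : ℕ) (ω : ℕ → ℝ) (x : ℤ),
    Gk C (Wpin β h) {0} n ω x 0 = K0 C n x * Real.exp (en β h ω (n - 1)) := by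
  intro n
  induction n with
  | zero =>
    intro ω x
    change (0 : ℝ) = 0 * _
    rw [zero_mul]
  | succ n ih =>
    intro ω x
    rw [OT.K2.Gk_succ, OT.K2.K0_succ, add_mul, Finset.sum_mul]
    congr 1
    · split_ifs with hn
      · subst hn
        rw [Wpin_zero β h]
        rfl
      · rw [zero_mul]
    · refine Finset.sum_congr rfl fun z hz => ?_
      rw [Finset.mem_sdiff, Finset.mem_Icc, Finset.mem_singleton] at hz
      rw [Wpin_ne β h hz.2, ih _ z, mul_one, OT.K2.en_shift]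
      rcases Nat.eq_zero_or_pos n with hn | hn
      · subst hn
        change C.p x z * (0 * _) = C.p x z * 0 * _
        ring
      · have : shift 1 (en β h ω) (n - 1) = en β h ω (n + 1 - 1) := by
          change en β h ω (n - 1 + 1) = _
          congr 1
          omega
        rw [this]
        ring

/-- kernel from zero to zero -/
theorem K0_zero (hnl : ∀ x, C.p x x = 0) (n : ℕ) :
    K0 C (n + 1) 0 = C.p 0 1 * K0 C n 1 + C.p 0 (-1) * K0 C n (-1) := by
  rw [OT.K2.K0_succ]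
  have h1 : (if n = 0 then C.p 0 0 else 0) = 0 := by rw [hnl, ite_self]
  have h2 : (Finset.Icc ((0 : ℤ) - 1) (0 + 1) \ {0}) = {1, -1} := by decide
  rw [h1, zero_add, h2, Finset.sum_pair (by decide)]

theorem Gk_odd (hnl : ∀ x, C.p x x = 0) (k : ℕ) (ω : ℕ → ℝ) :
    Gk C (Wpin β h) {0} (2 * k + 1) ω 0 0 = 0 := by
  rw [Gk_ne, OT.K2.K0_parity C hnl (2 * k + 1) 0 (by push_cast; omega), zero_mul]

theorem Gk_even (hnl : ∀ x, C.p x x = 0) (k : ℕ) (ω : ℕ → ℝ) :
    Gk C (Wpin β h) {0} (2 * k + 1 + 1) ω 0 0 = Kr C (k + 1) * Real.exp (en β h (od ω) k) := by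
  rw [Gk_ne, K0_zero C hnl]
  unfold Kr Kp Km
  rw [show 2 * (k + 1) - 1 = 2 * k + 1 by omega, Nat.add_sub_cancel]
  rfl

theorem Zp_succ (K : ℕ → ℝ) (n : ℕ) (θ : ℕ → ℝ) : Zp K (n + 1) θ =
    ∑ k ∈ range (n + 1), K (k + 1) * Real.exp (θ k) * Zp K (n - k) (shift (k + 1) θ) := by
  rw [Zp, ← Fin.sum_univ_eq_sum_range
    (fun k => K (k + 1) * Real.exp (θ k) * Zp K (n - k) (shift (k + 1) θ))]

theorem od_shift (k : ℕ) (ω : ℕ → ℝ) : od (shift (2 * k) ω) = shift k (od ω) := by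
  funext i
  change ω (2 * i + 1 + 2 * k) = ω (2 * (i + k) + 1)
  congr 1
  ring

/-- parity of the partition function -/
theorem Zk_parity (hnl : ∀ x, C.p x x = 0) (W : ℝ → ℤ → ℝ) : ∀ (n : ℕ) (ω : ℕ → ℝ) (x : ℤ),
    (n + x) % 2 = 1 → Zk C W n ω x 0 = 0 := by
  intro n
  induction n with
  | zero =>
    intro ω x hx
    change (if x = 0 then (1 : ℝ) else 0) = 0
    rw [if_neg]
    rintro rfl
    simp at hx
  | succ n ih =>
    intro ω x hx
    change ∑ z ∈ Finset.Icc (x - 1) (x + 1), C.p x z * W (ω 0) z * Zk C W n (shift 1 ω) z 0 = 0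
    refine Finset.sum_eq_zero fun z hz => ?_
    rw [Finset.mem_Icc] at hz
    by_cases hzx : z = x
    · rw [hzx, hnl, zero_mul, zero_mul]
    · rw [ih _ z (by push_cast at hx; omega), mul_zero]

/-- the weight of the paths without returns does not depend on the charges -/
theorem Gf_const : ∀ (n : ℕ) (ω ω' : ℕ → ℝ) (x : ℤ),
    Gf C (Wpin β h) {0} n ω x = Gf C (Wpin β h) {0} n ω' x := by
  intro n
  induction n with
  | zero => intro ω ω' x; rfl
  | succ n ih =>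
    intro ω ω' x
    change ∑ z ∈ Finset.Icc (x - 1) (x + 1) \ {0}, C.p x z * Wpin β h (ω 0) z *
        Gf C (Wpin β h) {0} n (shift 1 ω) z =
      ∑ z ∈ Finset.Icc (x - 1) (x + 1) \ {0}, C.p x z * Wpin β h (ω' 0) z *
        Gf C (Wpin β h) {0} n (shift 1 ω') z
    refine Finset.sum_congr rfl fun z hz => ?_
    rw [Finset.mem_sdiff, Finset.mem_singleton] at hz
    rw [Wpin_ne β h hz.2, Wpin_ne β h hz.2, ih (shift 1 ω) (shift 1 ω') z]

theorem Gf_bounds : ∀ (n : ℕ) (ω : ℕ → ℝ) (x : ℤ),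
    0 ≤ Gf C (Wpin β h) {0} n ω x ∧ Gf C (Wpin β h) {0} n ω x ≤ 1 := by
  intro n
  induction n with
  | zero => intro ω x; exact ⟨zero_le_one, le_refl _⟩
  | succ n ih =>
    intro ω x
    have h0 : Gf C (Wpin β h) {0} (n + 1) ω x = ∑ z ∈ Finset.Icc (x - 1) (x + 1) \ {0},
        C.p x z * Gf C (Wpin β h) {0} n (shift 1 ω) z := by
      change ∑ z ∈ Finset.Icc (x - 1) (x + 1) \ {0}, C.p x z * Wpin β h (ω 0) z *
        Gf C (Wpin β h) {0} n (shift 1 ω) z = _
      refine Finset.sum_congr rfl fun z hz => ?_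
      rw [Finset.mem_sdiff, Finset.mem_singleton] at hz
      rw [Wpin_ne β h hz.2, mul_one]
    rw [h0]
    constructor
    · exact Finset.sum_nonneg fun z _ => mul_nonneg (C.nonneg x z) (ih _ z).1
    · calc ∑ z ∈ Finset.Icc (x - 1) (x + 1) \ {0}, C.p x z * Gf C (Wpin β h) {0} n (shift 1 ω) z
          ≤ ∑ z ∈ Finset.Icc (x - 1) (x + 1) \ {0}, C.p x z :=
            Finset.sum_le_sum fun z _ => mul_le_of_le_one_right (C.nonneg x z) (ih _ z).2
        _ ≤ ∑ z ∈ Finset.Icc (x - 1) (x + 1), C.p x z :=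
            Finset.sum_le_sum_of_subset_of_nonneg Finset.sdiff_subset
              fun z _ _ => C.nonneg x z
        _ = 1 := C.sum_one x

theorem sum_range_even (F : ℕ → ℝ) (hF : ∀ j, F (2 * j + 1) = 0) (n : ℕ) :
    ∑ u ∈ range (2 * n + 1), F u = ∑ j ∈ range (n + 1), F (2 * j) := by
  induction n with
  | zero => simp
  | succ n ih =>
    rw [Finset.sum_range_succ _ (n + 1), ← ih, show 2 * (n + 1) + 1 = 2 * n + 1 + 1 + 1 by ring,
      Finset.sum_range_succ, Finset.sum_range_succ, hF, add_zero]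
    rfl

theorem Zf_step (hnl : ∀ x, C.p x x = 0) : ∀ (n : ℕ) (ω : ℕ → ℝ) (x : ℤ), (n + x) % 2 = 0 →
    Zf C (Wpin β h) (n + 1) ω x = Zf C (Wpin β h) n ω x := by
  intro n
  induction n with
  | zero =>
    intro ω x hx
    change ∑ z ∈ Finset.Icc (x - 1) (x + 1), C.p x z * Wpin β h (ω 0) z * 1 = 1
    refine Eq.trans (Finset.sum_congr rfl fun z hz => ?_) (C.sum_one x)
    rw [Finset.mem_Icc] at hz
    by_cases hzx : z = x
    · rw [hzx, hnl, zero_mul, zero_mul]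
    · rw [Wpin_ne β h (by push_cast at hx; omega), mul_one, mul_one]
  | succ n ih =>
    intro ω x hx
    change ∑ z ∈ Finset.Icc (x - 1) (x + 1), C.p x z * Wpin β h (ω 0) z *
        Zf C (Wpin β h) (n + 1) (shift 1 ω) z =
      ∑ z ∈ Finset.Icc (x - 1) (x + 1), C.p x z * Wpin β h (ω 0) z *
        Zf C (Wpin β h) n (shift 1 ω) z
    refine Finset.sum_congr rfl fun z hz => ?_
    rw [Finset.mem_Icc] at hz
    by_cases hzx : z = x
    · rw [hzx, hnl, zero_mul, zero_mul, zero_mul]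
    · rw [ih _ z (by push_cast at hx; omega)]

end KZ

open MP_daa227_pr (Gk Gf Ren Zk_eq_Ren Ren_pos_eq Zf_last)

theorem Zk_eq_Zp (C : Chain) (hnl : ∀ x, C.p x x = 0) (β h : ℝ) (n : ℕ) (ω : ℕ → ℝ) :
    Zk C (Wpin β h) (2 * n) ω 0 0 = Zp (Kr C) n (en β h (od ω)) := by
  induction n using Nat.strong_induction_on generalizing ω with
  | _ n ih =>
    rcases n with _ | n
    · rw [Zp]
      change (if (0 : ℤ) = 0 then (1 : ℝ) else 0) = 1
      rw [if_pos rfl]
    · have h0 : (0 : ℤ) ∈ ({0} : Finset ℤ) := Finset.mem_singleton_self 0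
      rw [Zk_eq_Ren C (Wpin β h) {0} h0, Ren_pos_eq {0} _ (by omega)]
      simp only [Finset.sum_singleton]
      rw [OT.K2.sum_even, KZ.Zp_succ]
      refine Finset.sum_congr rfl fun k hk => ?_
      rw [Finset.mem_range] at hk
      rw [KZ.Gk_odd C β h hnl, zero_mul, zero_add, KZ.Gk_even C β h hnl,
        ← Zk_eq_Ren C (Wpin β h) {0} h0, show 2 * (n + 1) - (2 * k + 1 + 1) = 2 * (n - k) by omega,
        ih (n - k) (by omega), show 2 * k + 1 + 1 = 2 * (k + 1) by ring, KZ.od_shift,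
        OT.K2.en_shift]

/-- the free partition function at even times: last return and a final incomplete excursion -/
theorem Zf_eq (C : Chain) (hnl : ∀ x, C.p x x = 0) (β h : ℝ) (n : ℕ) (ω : ℕ → ℝ) :
    ∃ q : ℕ → ℝ, (∀ k, 0 ≤ q k) ∧ (∀ k, q k ≤ 1) ∧ q 0 = 1 ∧
      Zf C (Wpin β h) (2 * n) ω 0 =
        ∑ j ∈ range (n + 1), Zp (Kr C) j (en β h (od ω)) * q (n - j) := by
  refine ⟨fun m => Gf C (Wpin β h) {0} (2 * m) ω 0, fun m => (KZ.Gf_bounds C β h _ _ _).1,
    fun m => (KZ.Gf_bounds C β h _ _ _).2, rfl, ?_⟩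
  rw [Zf_last C (Wpin β h) {0} (2 * n) ω 0 (Finset.mem_singleton_self 0)]
  simp only [Finset.sum_singleton]
  rw [KZ.sum_range_even (fun u => Zk C (Wpin β h) u ω 0 0 *
    Gf C (Wpin β h) {0} (2 * n - u) (shift u ω) 0) (fun j => ?_) n]
  · refine Finset.sum_congr rfl fun j _ => ?_
    rw [Zk_eq_Zp C hnl, ← Nat.mul_sub, KZ.Gf_const C β h _ (shift (2 * j) ω) ω]
  · rw [KZ.Zk_parity C hnl _ (2 * j + 1) ω 0 (by push_cast; omega), zero_mul]

/-- one more step changes nothing but the last energy -/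
theorem Zf_odd (C : Chain) (hnl : ∀ x, C.p x x = 0) (β h : ℝ) (n : ℕ) (ω : ℕ → ℝ) :
    Zf C (Wpin β h) (2 * n + 1) ω 0 = Zf C (Wpin β h) (2 * n) ω 0 :=
  KZ.Zf_step C β h hnl (2 * n) ω 0 (by push_cast; omega)

end

end Pool.Agent.OTP
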