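import Mathlib
import Pool.Agent.Lib.MP_daa227_pr_OTP.Defs

/-!
# PROJECT OTP, module OL: the law of the charges at the odd sites
-/

namespace Pool.Agent.OTP

open MeasureTheory ProbabilityTheory Finset Filter Topology
open MP_daa227_pr (Chain Zk Zf K0 shift seqLaw ExpMom)
open Pool.Agent.OT (Kp Km en tr ZE AE pE cE EFam gP LE ME RE dy ins lmg)

noncomputable section

namespace OL

/-- reading a sequence along `f` -/
def rd (f : ℕ → ℕ) (ω : ℕ → ℝ) : ℕ → ℝ := fun i => ω (f i)

theorem measurable_rd (f : ℕ → ℕ) : Measurable (rd f) := by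
  rw [measurable_pi_iff]
  intro i
  exact measurable_pi_apply (f i)

theorem map_rd (μ : Measure ℝ) [IsProbabilityMeasure μ] (f : ℕ → ℕ)
    (hf : Function.Injective f) : Measure.map (rd f) (seqLaw μ) = seqLaw μ := by
  apply Measure.eq_infinitePi
  intro s t ht
  rw [Measure.map_apply (measurable_rd f) (MeasurableSet.pi s.countable_toSet (fun i _ => ht i))]
  obtain ⟨t', ht', htm⟩ : ∃ t' : ℕ → Set ℝ, (∀ i, t' (f i) = t i) ∧ ∀ z, MeasurableSet (t' z) :=
    ⟨fun z => t (Function.invFun f z),
      fun i => congrArg t (Function.leftInverse_invFun hf i), fun z => ht _⟩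
  have hpre : rd f ⁻¹' (Set.pi s t) = Set.pi ((s.image f : Finset ℕ) : Set ℕ) t' := by
    ext θ
    simp only [Set.mem_preimage, Set.mem_pi, Finset.mem_coe, rd]
    constructor
    · intro h n hn
      obtain ⟨i, hi, rfl⟩ := Finset.mem_image.1 hn
      rw [ht']
      exact h i hi
    · intro h i hi
      rw [← ht']
      exact h (f i) (Finset.mem_image_of_mem f hi)
  rw [hpre]
  unfold seqLaw
  rw [Measure.infinitePi_pi _ (fun i _ => htm _), Finset.prod_image (fun x _ y _ h => hf h)]
  exact Finset.prod_congr rfl fun i _ => by rw [ht']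

end OL

theorem od_law (μ : Measure ℝ) [IsProbabilityMeasure μ] :
    Measure.map od (seqLaw μ) = seqLaw μ :=
  OL.map_rd μ (fun i => 2 * i + 1) fun i j h => by
    have h' : 2 * i + 1 = 2 * j + 1 := h
    omega

end

end Pool.Agent.OTP
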