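import Mathlib
import Pool.Agent.Lib.MP_daa227_pr_OTP.Defs
import Pool.Agent.Lib.MP_daa227_pr_OT.FreeP
import Pool.Agent.Lib.MP_daa227_pr_OTP.Dec
import Pool.Agent.Lib.MP_daa227_pr_OTP.Sup
import Pool.Agent.Lib.MP_daa227_pr_OTP.KZ
import Pool.Agent.Lib.MP_daa227_pr_OTP.OddLaw

/-!
# Pinning: free partition functions
-/

namespace Pool.Agent.OTP

open MeasureTheory ProbabilityTheory Finset Filter Topology
open MP_daa227_pr (Chain Zk Zf K0 shift seqLaw ExpMom)
open Pool.Agent.OT (Kp Km en tr ZE AE pE cE EFam gP LE ME RE dy ins lmg)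

noncomputable section

namespace L1

open MP_daa227_pr (GoodW Good LipOn good_Zf)

theorem Wpin_pos (β h a : ℝ) (z : ℤ) : 0 < Wpin β h a z := Real.exp_pos _

theorem goodW (β h : ℝ) : GoodW |β| (Wpin β h) := by
  refine ⟨fun z => ?_, fun a z => Wpin_pos _ _ _ _, fun a b z => ?_⟩
  · unfold Wpin; fun_prop
  · unfold Wpin
    rw [← Real.exp_add]
    apply Real.exp_le_exp.2
    have h0 : (0 : ℝ) ≤ (if z = 0 then 1 else 0) ∧ (if z = 0 then (1 : ℝ) else 0) ≤ 1 := by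
      split_ifs <;> norm_num
    set p : ℝ := if z = 0 then 1 else 0 with hp
    have h1 : β * (a - b) * p ≤ |β| * |a - b| := by
      calc β * (a - b) * p ≤ |β * (a - b)| * p :=
            mul_le_mul_of_nonneg_right (le_abs_self _) h0.1
        _ ≤ |β * (a - b)| * 1 := mul_le_mul_of_nonneg_left h0.2 (abs_nonneg _)
        _ = |β| * |a - b| := by rw [abs_mul, mul_one]
    nlinarith

theorem Zf_even (C : Chain) (hnl : ∀ x, C.p x x = 0) (β h : ℝ) (N : ℕ) (ω : ℕ → ℝ) :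
    Zf C (Wpin β h) N ω 0 = Zf C (Wpin β h) (2 * (N / 2)) ω 0 := by
  rcases Nat.even_or_odd' N with ⟨k, hk | hk⟩
  · have h1 : N / 2 = k := by omega
    rw [h1, hk]
  · have h1 : N / 2 = k := by omega
    rw [h1, hk, Zf_odd C hnl]

theorem le_Zf (C : Chain) (hnl : ∀ x, C.p x x = 0) (hK : KerP (Kr C)) (β h : ℝ) (N : ℕ)
    (ω : ℕ → ℝ) : Zp (Kr C) (N / 2) (en β h (od ω)) ≤ Zf C (Wpin β h) N ω 0 := by
  obtain ⟨q, hq0, _, hq, he⟩ := Zf_eq C hnl β h (N / 2) ω
  rw [Zf_even C hnl, he]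
  have h1 := Finset.single_le_sum (f := fun j => Zp (Kr C) j (en β h (od ω)) * q (N / 2 - j))
    (fun j _ => mul_nonneg (Zp_pos hK j _).le (hq0 _))
    (Finset.mem_range.2 (Nat.lt_succ_self (N / 2)))
  simpa [hq] using h1

theorem Zf_pos (C : Chain) (hnl : ∀ x, C.p x x = 0) (hK : KerP (Kr C)) (β h : ℝ) (N : ℕ)
    (ω : ℕ → ℝ) : 0 < Zf C (Wpin β h) N ω 0 :=
  (Zp_pos hK _ _).trans_le (le_Zf C hnl hK β h N ω)

theorem Zf_le (C : Chain) (hnl : ∀ x, C.p x x = 0) (hK : KerP (Kr C)) (β h : ℝ) :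
    ∃ D e : ℝ, 0 < D ∧ 0 ≤ e ∧ ∀ (N : ℕ) (ω : ℕ → ℝ), Zf C (Wpin β h) N ω 0 ≤
      D * ((N / 2 + 1 : ℕ) : ℝ) ^ e * Real.exp |en β h (od ω) (N / 2)| *
        Zp (Kr C) (N / 2 + 1) (en β h (od ω)) := by
  obtain ⟨D, e, hD, he, h1⟩ := Pool.Agent.OT.L1.ker_low hK.low
  refine ⟨D, e, hD, he, fun N ω => ?_⟩
  obtain ⟨q, hq0, hq1, hq, heq⟩ := Zf_eq C hnl β h (N / 2) ω
  rw [Zf_even C hnl, heq, Zp_last, Finset.mul_sum]
  apply Finset.sum_le_sum
  intro j hj
  rw [Finset.mem_range] at hj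
  set n := N / 2 with hn
  set θ := en β h (od ω) with hθ
  have hZ := (Zp_pos hK j θ).le
  have ha := h1 (n + 1) (n + 1 - j) (by omega) (by omega)
  have hE : (1 : ℝ) ≤ Real.exp |θ n| * Real.exp (θ n) := by
    rw [← Real.exp_add]
    apply Real.one_le_exp
    have := neg_abs_le (θ n)
    linarith
  calc Zp (Kr C) j θ * q (n - j) ≤ Zp (Kr C) j θ * 1 := mul_le_mul_of_nonneg_left (hq1 _) hZ
    _ ≤ Zp (Kr C) j θ * ((D * ((n + 1 : ℕ) : ℝ) ^ e * Kr C (n + 1 - j)) *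
        (Real.exp |θ n| * Real.exp (θ n))) := by
        apply mul_le_mul_of_nonneg_left _ hZ
        calc (1 : ℝ) = 1 * 1 := by ring
          _ ≤ _ := mul_le_mul ha hE zero_le_one (by linarith)
    _ = _ := by ring

theorem integrable_logZf (C : Chain) (hnl : ∀ x, C.p x x = 0) (hK : KerP (Kr C))
    (μ : Measure ℝ) [IsProbabilityMeasure μ] (hμ : ExpMom μ) (β h : ℝ) (N : ℕ) :
    Integrable (fun ω => Real.log (Zf C (Wpin β h) N ω 0)) (seqLaw μ) := by
  have h1 := good_Zf C (abs_nonneg β) (goodW β h) N 0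
  exact (h1.log_lip (Zf_pos C hnl hK β h N)).integrable h1.meas.log hμ

theorem measurable_od : Measurable od := by
  unfold od
  fun_prop

theorem integrable_od (μ : Measure ℝ) [IsProbabilityMeasure μ] {f : (ℕ → ℝ) → ℝ}
    (hf : Integrable f (seqLaw μ)) : Integrable (fun ω => f (od ω)) (seqLaw μ) := by
  have h1 : Integrable f (Measure.map od (seqLaw μ)) := by rwa [od_law]
  exact (integrable_map_measure h1.aestronglyMeasurable measurable_od.aemeasurable).1 h1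

theorem integral_od (μ : Measure ℝ) [IsProbabilityMeasure μ] {f : (ℕ → ℝ) → ℝ}
    (hf : Integrable f (seqLaw μ)) : ∫ ω, f (od ω) ∂seqLaw μ = ∫ ω, f ω ∂seqLaw μ := by
  have h1 : Integrable f (Measure.map od (seqLaw μ)) := by rwa [od_law]
  rw [← integral_map measurable_od.aemeasurable h1.aestronglyMeasurable, od_law]

/-- the two sided bound -/
theorem two_sided (C : Chain) (hnl : ∀ x, C.p x x = 0) (hK : KerP (Kr C)) (μ : Measure ℝ)
    [IsProbabilityMeasure μ] (hμ : ExpMom μ) (β h : ℝ) :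
    ∃ c' e : ℝ, ∀ N : ℕ,
      LP (Kr C) μ β h (N / 2) ≤ ∫ ω, Real.log (Zf C (Wpin β h) N ω 0) ∂seqLaw μ ∧
      ∫ ω, Real.log (Zf C (Wpin β h) N ω 0) ∂seqLaw μ ≤ LP (Kr C) μ β h (N / 2 + 1) + c' +
        e * Real.log ((N / 2 + 1 : ℕ) : ℝ) := by
  obtain ⟨D, e, hD, he, hup⟩ := Zf_le C hnl hK β h
  refine ⟨Real.log D + ∫ x, |β * x - h| ∂μ, e, fun N => ⟨?_, ?_⟩⟩
  · have h0 := integrable_logZp hK μ hμ β h (N / 2)
    unfold LP
    rw [← integral_od μ h0]
    apply integral_mono (integrable_od μ h0) (integrable_logZf C hnl hK μ hμ β h N)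
    intro ω
    exact Real.log_le_log (Zp_pos hK _ _) (le_Zf C hnl hK β h N ω)
  · have hnR : (0 : ℝ) < ((N / 2 + 1 : ℕ) : ℝ) := by positivity
    have h0 := integrable_logZp hK μ hμ β h (N / 2 + 1)
    have hi1 := integrable_od μ h0
    have hi2 : Integrable (fun ω : ℕ → ℝ => |en β h (od ω) (N / 2)|) (seqLaw μ) :=
      Pool.Agent.OT.L1.integrable_en μ hμ β h (2 * (N / 2) + 1)
    have hi4 : Integrable (fun _ : ℕ → ℝ => Real.log D + e * Real.log ((N / 2 + 1 : ℕ) : ℝ))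
      (seqLaw μ) := integrable_const _
    have he2 : ∫ ω, |en β h (od ω) (N / 2)| ∂seqLaw μ = ∫ x, |β * x - h| ∂μ :=
      Pool.Agent.OT.L1.integral_en μ β h (2 * (N / 2) + 1)
    have h1 : LP (Kr C) μ β h (N / 2 + 1) + (Real.log D + ∫ x, |β * x - h| ∂μ) +
        e * Real.log ((N / 2 + 1 : ℕ) : ℝ) =
        ∫ ω, (Real.log (Zp (Kr C) (N / 2 + 1) (en β h (od ω))) + (|en β h (od ω) (N / 2)| +
          (Real.log D + e * Real.log ((N / 2 + 1 : ℕ) : ℝ)))) ∂seqLaw μ := by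
      have hB := integral_add hi2 hi4
      have hC := integral_add hi1 (hi2.add hi4)
      simp only [Pi.add_apply] at hC
      rw [hC, hB, he2, integral_od μ h0]
      simp only [LP, integral_const, probReal_univ, smul_eq_mul, one_mul]
      ring
    rw [h1]
    apply integral_mono (integrable_logZf C hnl hK μ hμ β h N) (hi1.add (hi2.add hi4))
    intro ω
    simp only [Pi.add_apply]
    have h2 := Real.log_le_log (Zf_pos C hnl hK β h N ω) (hup N ω)
    have hZ := Zp_pos hK (N / 2 + 1) (en β h (od ω))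
    have hP : 0 < ((N / 2 + 1 : ℕ) : ℝ) ^ e := Real.rpow_pos_of_pos hnR _
    rw [Real.log_mul (by positivity) hZ.ne', Real.log_mul (by positivity) (Real.exp_pos _).ne',
      Real.log_mul hD.ne' hP.ne', Real.log_exp, Real.log_rpow hnR] at h2
    linarith

end L1

theorem free_limP (C : Chain) (hnl : ∀ x, C.p x x = 0) (hK : KerP (Kr C)) (μ : Measure ℝ)
    [IsProbabilityMeasure μ] (hμ : ExpMom μ) (β h F : ℝ)
    (hF : Tendsto (fun n : ℕ => LP (Kr C) μ β h n / n) atTop (𝓝 F)) :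
    Tendsto (fun N : ℕ => (∫ ω, Real.log (Zf C (Wpin β h) N ω 0) ∂seqLaw μ) / N) atTop
      (𝓝 (F / 2)) := by
  obtain ⟨c', e, hb⟩ := L1.two_sided C hnl hK μ hμ β h
  have hF2 : Tendsto (fun n : ℕ => LP (Kr C) μ β h n / (2 * n)) atTop (𝓝 (F / 2)) := by
    refine (hF.div_const 2).congr fun n => ?_
    rw [div_div, mul_comm (n : ℝ) 2]
  have hlo : Tendsto (fun N : ℕ => (LP (Kr C) μ β h (N / 2 + 0)) / N) atTop (𝓝 (F / 2)) :=
    Pool.Agent.OT.L1.tendsto_half _ _ hF2 0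
  have hlog : Tendsto (fun N : ℕ => Real.log ((N / 2 + 1 : ℕ) : ℝ) / N) atTop (𝓝 0) := by
    have h1 : Tendsto (fun N : ℕ => Real.log (N : ℝ) / (N : ℝ)) atTop (𝓝 0) := by
      have := Real.isLittleO_log_id_atTop.tendsto_div_nhds_zero
      exact this.comp tendsto_natCast_atTop_atTop
    refine squeeze_zero' ?_ ?_ h1
    · filter_upwards [eventually_gt_atTop 0] with N hN
      have h2 : (1 : ℝ) ≤ ((N / 2 + 1 : ℕ) : ℝ) := by
        have : 1 ≤ N / 2 + 1 := by omega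
        exact_mod_cast this
      exact div_nonneg (Real.log_nonneg h2) (Nat.cast_nonneg _)
    · filter_upwards [eventually_ge_atTop 2] with N hN
      have h2 : (0 : ℝ) < ((N / 2 + 1 : ℕ) : ℝ) := by positivity
      have h3 : ((N / 2 + 1 : ℕ) : ℝ) ≤ N := by
        have : N / 2 + 1 ≤ N := by omega
        exact_mod_cast this
      exact div_le_div_of_nonneg_right (Real.log_le_log h2 h3) (Nat.cast_nonneg _)
  have hhi : Tendsto (fun N : ℕ => (LP (Kr C) μ β h (N / 2 + 1)) / N + c' / N +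
      e * (Real.log ((N / 2 + 1 : ℕ) : ℝ) / N)) atTop (𝓝 (F / 2)) := by
    have h1 := ((Pool.Agent.OT.L1.tendsto_half _ _ hF2 1).add
      (tendsto_const_div_atTop_nhds_zero_nat c')).add (hlog.const_mul e)
    rw [mul_zero, add_zero, add_zero] at h1
    exact h1
  refine tendsto_of_tendsto_of_tendsto_of_le_of_le hlo hhi (fun N => ?_) (fun N => ?_)
  · dsimp only
    exact div_le_div_of_nonneg_right (hb N).1 (Nat.cast_nonneg _)
  · dsimp only
    rw [mul_div_assoc', ← add_div, ← add_div]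
    exact div_le_div_of_nonneg_right (hb N).2 (Nat.cast_nonneg _)

end

end Pool.Agent.OTP
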