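import Mathlib
import Pool.Agent.Lib.MP_daa227_pr_OTP.Defs
import Pool.Agent.Lib.MP_daa227_pr_OT.KConv

/-!
# The kernel of the chain
-/

namespace Pool.Agent.OTP

open MeasureTheory ProbabilityTheory Finset Filter Topology
open MP_daa227_pr (Chain Zk Zf K0 shift seqLaw ExpMom)
open Pool.Agent.OT (Kp Km en tr ZE AE pE cE EFam gP LE ME RE dy ins lmg Kp_pos Km_pos Kp_anti
  Km_anti)

noncomputable section

namespace KC

/-- the sum of two log-convex sequences is log-convex -/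
lemma add_conv {a b c a' b' c' : ℝ} (ha : 0 < a) (hb : 0 < b) (hc : 0 < c) (ha' : 0 < a')
    (hb' : 0 < b') (hc' : 0 < c') (h : b ^ 2 ≤ a * c) (h' : b' ^ 2 ≤ a' * c') :
    (b + b') ^ 2 ≤ (a + a') * (c + c') := by
  have h1 : (b * b') ^ 2 ≤ (a * c') * (a' * c) := by
    calc (b * b') ^ 2 = b ^ 2 * b' ^ 2 := by ring
      _ ≤ (a * c) * (a' * c') := mul_le_mul h h' (by positivity) (by positivity)
      _ = _ := by ring
  have h2 : 4 * ((a * c') * (a' * c)) ≤ (a * c' + a' * c) ^ 2 := by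
    nlinarith [sq_nonneg (a * c' - a' * c)]
  have h3 : (2 * (b * b')) ^ 2 ≤ (a * c' + a' * c) ^ 2 := by
    calc (2 * (b * b')) ^ 2 = 4 * (b * b') ^ 2 := by ring
      _ ≤ 4 * ((a * c') * (a' * c)) := by linarith
      _ ≤ _ := h2
  have h4 : 2 * (b * b') ≤ a * c' + a' * c := by
    apply le_of_sq_le_sq h3
    positivity
  nlinarith

lemma Km_conv' (C : Chain) (k : ℕ) : Km C (k + 1 + 1) ^ 2 ≤ Km C (k + 1) * Km C (k + 2 + 1) := by
  rw [OT.K1.Km_eq, OT.K1.Km_eq, OT.K1.Km_eq]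
  exact OT.K1.f_conv _ k

lemma Kr_pos (C : Chain) (k : ℕ) : 0 < Kr C (k + 1) :=
  add_pos (Kp_pos C (by omega)) (Km_pos C (by omega))

lemma Kr_conv (C : Chain) (k : ℕ) : Kr C (k + 1 + 1) ^ 2 ≤ Kr C (k + 1) * Kr C (k + 2 + 1) :=
  add_conv (Kp_pos C (by omega)) (Kp_pos C (by omega)) (Kp_pos C (by omega))
    (Km_pos C (by omega)) (Km_pos C (by omega)) (Km_pos C (by omega))
    (OT.K1.f_conv C k) (Km_conv' C k)

/-- ratios are nondecreasing -/
lemma ratio {f : ℕ → ℝ} (hf : ∀ k, 0 < f k) (hc : ∀ k, f (k + 1) ^ 2 ≤ f k * f (k + 2))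
    (L m : ℕ) : f (L + 1) * f (m + L) ≤ f (m + L + 1) * f L := OT.K1.ratio hf hc L m

lemma conv {f : ℕ → ℝ} (hf : ∀ k, 0 < f k) (hc : ∀ k, f (k + 1) ^ 2 ≤ f k * f (k + 2))
    (i a b : ℕ) : f (i + a) * f (i + b) ≤ f i * f (i + a + b) := by
  induction b with
  | zero => simp [mul_comm]
  | succ b ih =>
    have h1 := ratio hf hc (i + b) a
    have e1 : a + (i + b) = i + a + b := by omega
    rw [e1] at h1
    -- h1 : f (i + b + 1) * f (i + a + b) ≤ f (i + a + b + 1) * f (i + b)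
    have p1 := hf (i + b)
    have p2 := hf (i + a + b)
    have p3 := hf (i + a)
    have p4 := hf i
    have h2 : f (i + a + b) * (f (i + a) * f (i + b + 1)) ≤
        f (i + a + b) * (f i * f (i + a + b + 1)) := by
      calc f (i + a + b) * (f (i + a) * f (i + b + 1))
          = f (i + a) * (f (i + b + 1) * f (i + a + b)) := by ring
        _ ≤ f (i + a) * (f (i + a + b + 1) * f (i + b)) := mul_le_mul_of_nonneg_left h1 p3.le
        _ = (f (i + a) * f (i + b)) * f (i + a + b + 1) := by ring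
        _ ≤ (f i * f (i + a + b)) * f (i + a + b + 1) :=
            mul_le_mul_of_nonneg_right ih (hf _).le
        _ = _ := by ring
    exact le_of_mul_le_mul_left h2 p2

end KC

theorem Kr_eq (C : Chain) {k : ℕ} (hk : 1 ≤ k) (hnl : ∀ x, C.p x x = 0) :
    K0 C (2 * k) 0 = Kr C k := by
  obtain ⟨m, hm⟩ : ∃ m, 2 * k = m + 1 + 1 := ⟨2 * k - 2, by omega⟩
  have h2 : (Finset.Icc ((0 : ℤ) - 1) (0 + 1) \ {0}) = {1, -1} := by decide
  unfold Kr Kp Km
  have h3 : 2 * k - 1 = m + 1 := by omega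
  rw [h3, hm]
  change (if m + 1 = 0 then C.p 0 0 else 0) +
      ∑ z ∈ Finset.Icc ((0 : ℤ) - 1) (0 + 1) \ {0}, C.p 0 z * K0 C (m + 1) z = _
  rw [if_neg (by omega), zero_add, h2, Finset.sum_pair (by decide)]

theorem Kr_KerP (C : Chain) (hnl : ∀ x, C.p x x = 0) (h1 : HasSum (Kr C) 1)
    (hlow : ∃ c e : ℝ, 0 < c ∧ 0 ≤ e ∧ ∀ k : ℕ, 1 ≤ k → c * (k : ℝ) ^ (-e) ≤ Kr C k) :
    KerP (Kr C) := by
  refine ⟨?_, ?_, ?_, ?_, h1, hlow⟩
  · unfold Kr Kp Km
    change C.p 0 1 * 0 + C.p 0 (-1) * 0 = 0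
    ring
  · intro k hk
    obtain ⟨m, rfl⟩ : ∃ m, k = m + 1 := ⟨k - 1, by omega⟩
    exact KC.Kr_pos C m
  · intro k hk
    exact add_le_add (Kp_anti C hnl hk) (Km_anti C hnl hk)
  · intro i a b hi
    obtain ⟨m, rfl⟩ : ∃ m, i = m + 1 := ⟨i - 1, by omega⟩
    have h := KC.conv (f := fun k => Kr C (k + 1)) (KC.Kr_pos C) (KC.Kr_conv C) m a b
    have e1 : m + 1 + a = m + a + 1 := by omega
    have e2 : m + 1 + b = m + b + 1 := by omega
    have e3 : m + 1 + a + b = m + a + b + 1 := by omega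
    rw [e1, e2]
    rw [show m + a + 1 + b = m + a + b + 1 by omega]
    exact h

end

end Pool.Agent.OTP
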