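import Mathlib
import Pool.Agent.Lib.MP_daa227_pr_OTP.Defs
import Pool.Agent.Lib.MP_daa227_pr_OTP.Frac

/-!
# Module X2: low temperature, charges with a Gaussian component
-/

set_option autoImplicit false

namespace Pool.Agent.OTP

open MeasureTheory ProbabilityTheory Finset Filter Topology
open MP_daa227_pr (Chain Zk Zf K0 shift seqLaw ExpMom)
open Pool.Agent.OT (Kp Km en tr ZE AE pE cE EFam gP LE ME RE dy ins lmg)

noncomputable section

/-- low temperature, charges with a Gaussian component -/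
theorem strict_largeP {K : ℕ → ℝ} (hK : KerP K) (ν : Measure ℝ) [IsProbabilityMeasure ν]
    (hν : ExpMom ν) (s : NNReal) (hs : 0 < s) {μ : Measure ℝ} [IsProbabilityMeasure μ]
    (hμ : μ = (gaussianReal 0 (s ^ 2)).conv ν) (hμe : ExpMom μ)
    {γ₀ : ℝ} (hγ0 : 0 < γ₀) (hγ1 : γ₀ < 1) (hsum : Summable fun k => K k ^ γ₀) :
    ∃ β₀ : ℝ, ∀ β, β₀ ≤ β → 0 < β →
      ∃ h₁ : ℝ, h₁ < lmg μ β ∧ ∃ B : ℝ, ∀ n, LP K μ β h₁ n ≤ B := by
  have hK0 : ∀ k, 0 ≤ K k := fun k => by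
    rcases Nat.eq_zero_or_pos k with rfl | hk
    · rw [hK.zero]
    · exact (hK.pos k hk).le
  have hsR : (0 : ℝ) < s := hs
  set S : ℝ := ∑' k, K (k + 1) ^ γ₀ with hS
  have hS0 : 0 ≤ S := tsum_nonneg fun k => Real.rpow_nonneg (hK0 _) _
  set A : ℝ := γ₀ * (1 - γ₀) * (s : ℝ) ^ 2 / 2 with hA
  have hA0 : 0 < A := by
    rw [hA]
    have : 0 < 1 - γ₀ := by linarith
    positivity
  -- large values of `β`
  have hev : ∀ᶠ β : ℝ in atTop, Real.exp (γ₀ - A * β) ≤ 1 / (S + 1) := by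
    have t1 : Tendsto (fun β : ℝ => A * β) atTop atTop := tendsto_id.const_mul_atTop hA0
    have t2 : Tendsto (fun β : ℝ => γ₀ - A * β) atTop atBot := by
      have := tendsto_atBot_add_const_left atTop γ₀ (tendsto_neg_atTop_atBot.comp t1)
      simpa [sub_eq_add_neg] using this
    have t3 := Real.tendsto_exp_atBot.comp t2
    exact (t3.eventually_lt_const (by positivity : (0 : ℝ) < 1 / (S + 1))).mono fun x hx => hx.le
  obtain ⟨β₁, hβ₁⟩ := eventually_atTop.1 hev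
  refine ⟨max β₁ 1, fun β hβ hβ0 => ⟨lmg μ β - 1, by linarith, ?_⟩⟩
  have hβ1 : 1 ≤ β := (le_max_right _ _).trans hβ
  have hq : OT.X1.qq μ β (lmg μ β - 1) γ₀ ≤ 1 / (S + 1) := by
    refine le_trans ?_ (hβ₁ β ((le_max_left _ _).trans hβ))
    rw [OT.X1.qq_eq hμe, Real.exp_le_exp, OT.X1.lmg_conv hν s hμ, OT.X1.lmg_conv hν s hμ]
    have h1 := OT.X1.lmg_convex hν (θ := γ₀) (s := β) (t := 0) hγ0.le hγ1.le
    rw [mul_zero, add_zero, OT.X1.lmg_zero, mul_zero, add_zero] at h1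
    have h2 : A * β ≤ A * β ^ 2 := by
      refine mul_le_mul_of_nonneg_left ?_ hA0.le
      nlinarith
    have h3 : (s : ℝ) ^ 2 * (γ₀ * β) ^ 2 / 2 - γ₀ * ((s : ℝ) ^ 2 * β ^ 2 / 2) = -(A * β ^ 2) := by
      rw [hA]
      ring
    nlinarith
  refine frac_bound hK μ hμe hγ0 hγ1 hsum (le_refl 1) (fun _ => 1) ?_ ?_
  · intro j hj
    have hj0 : j = 0 := by omega
    subst hj0
    simp only [R2.Zp_zero, Real.one_rpow, integral_const, probReal_univ, smul_eq_mul, mul_one,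
      le_refl]
  · rw [Finset.sum_range_one, mul_one, Nat.sub_zero]
    calc OT.X1.qq μ β (lmg μ β - 1) γ₀ * S ≤ 1 / (S + 1) * S :=
          mul_le_mul_of_nonneg_right hq hS0
      _ ≤ 1 := by
          rw [one_div_mul_eq_div, div_le_one (by positivity)]
          linarith

end

end Pool.Agent.OTP
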