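import Mathlib
import Pool.Agent.Lib.MP_daa227_pr_OTP.Defs
import Pool.Agent.Lib.MP_daa227_pr_OTP.Frac

/-!
# Pinning: low temperature, charges without an atom at the top of their support
-/

namespace Pool.Agent.OTP

open MeasureTheory ProbabilityTheory Finset Filter Topology
open MP_daa227_pr (Chain Zk Zf K0 shift seqLaw ExpMom)
open Pool.Agent.OT (Kp Km en tr ZE AE pE cE EFam gP LE ME RE dy ins lmg)

noncomputable section

namespace L3

lemma exists_gt {μ : Measure ℝ} {a : ℝ} (ha : μ (Set.Ioi a) ≠ 0) :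
    ∃ a', a < a' ∧ μ (Set.Ioi a') ≠ 0 := by
  by_contra hcon
  push Not at hcon
  apply ha
  have h1 : Set.Ioi a = ⋃ n : ℕ, Set.Ioi (a + 1 / ((n : ℝ) + 1)) := by
    ext x
    simp only [Set.mem_Ioi, Set.mem_iUnion]
    constructor
    · intro hx
      obtain ⟨n, hn⟩ := exists_nat_one_div_lt (sub_pos.2 hx)
      exact ⟨n, by linarith⟩
    · rintro ⟨n, hn⟩
      have : (0 : ℝ) < 1 / ((n : ℝ) + 1) := by positivity
      linarith
  rw [h1]
  exact measure_iUnion_null fun n => hcon _ (by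
    have : (0 : ℝ) < 1 / ((n : ℝ) + 1) := by positivity
    linarith)

lemma mgf_split {μ : Measure ℝ} [IsProbabilityMeasure μ] (hμ : ExpMom μ) {γ β a : ℝ}
    (hγ0 : 0 < γ) (hγ1 : γ < 1) (hβ : 0 < β) (ha : 0 < μ.real (Set.Ioi a)) :
    ∫ x, Real.exp (γ * β * x) ∂μ ≤ Real.exp (γ * β * a) +
      (∫ x, Real.exp (β * x) ∂μ) ^ γ * μ.real (Set.Ioi a) ^ (1 - γ) := by
  set M := ∫ x, Real.exp (β * x) ∂μ with hM
  set v := μ.real (Set.Ioi a) with hv
  have hM0 : 0 < M := integral_exp_pos (hμ β)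
  have h1γ : 0 < 1 - γ := by linarith
  have hc : 0 < M ^ γ * v ^ (1 - γ) := by positivity
  set ind : ℝ → ℝ := (Set.Ioi a).indicator (fun _ => (1 : ℝ)) with hind
  have hind_int : Integrable ind μ := (integrable_const (1 : ℝ)).indicator measurableSet_Ioi
  have hind_val : ∫ x, ind x ∂μ = v := by
    rw [hind, integral_indicator_const _ measurableSet_Ioi]
    simp [hv]
  have hpt : ∀ x, Real.exp (γ * β * x) ≤ Real.exp (γ * β * a) +
      M ^ γ * v ^ (1 - γ) * (γ * (Real.exp (β * x) / M) + (1 - γ) * (ind x / v)) := by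
    intro x
    by_cases hx : a < x
    · have e1 : ind x = 1 := by
        rw [hind, Set.indicator_of_mem (show x ∈ Set.Ioi a from hx)]
      rw [e1]
      have h3 := Real.geom_mean_le_arith_mean2_weighted hγ0.le h1γ.le
        (div_pos (Real.exp_pos (β * x)) hM0).le (div_pos one_pos ha).le (by ring)
      rw [Real.div_rpow (Real.exp_pos _).le hM0.le, Real.div_rpow zero_le_one ha.le,
        Real.one_rpow, ← Real.exp_mul] at h3
      have h4 := mul_le_mul_of_nonneg_left h3 hc.le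
      have h5 : M ^ γ * v ^ (1 - γ) * (Real.exp (β * x * γ) / M ^ γ * (1 / v ^ (1 - γ))) =
          Real.exp (γ * β * x) := by
        have e2 : M ^ γ ≠ 0 := by positivity
        have e3 : v ^ (1 - γ) ≠ 0 := by positivity
        rw [show γ * β * x = β * x * γ by ring]
        field_simp
      rw [h5] at h4
      have := Real.exp_pos (γ * β * a)
      linarith
    · have h3 : Real.exp (γ * β * x) ≤ Real.exp (γ * β * a) := by
        apply Real.exp_le_exp.2
        exact mul_le_mul_of_nonneg_left (not_lt.1 hx) (by positivity)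
      have h4 : 0 ≤ ind x := by
        rw [hind]
        exact Set.indicator_nonneg (fun _ _ => zero_le_one) x
      have h5 : 0 ≤ M ^ γ * v ^ (1 - γ) * (γ * (Real.exp (β * x) / M) + (1 - γ) * (ind x / v)) := by
        have := Real.exp_pos (β * x)
        positivity
      linarith
  have hi1 : Integrable (fun x => γ * (Real.exp (β * x) / M)) μ :=
    ((hμ β).div_const M).const_mul γ
  have hi2 : Integrable (fun x => (1 - γ) * (ind x / v)) μ := (hind_int.div_const v).const_mul _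
  have hi3 : Integrable (fun x => γ * (Real.exp (β * x) / M) + (1 - γ) * (ind x / v)) μ :=
    hi1.add hi2
  have hi4 : Integrable (fun x => M ^ γ * v ^ (1 - γ) *
      (γ * (Real.exp (β * x) / M) + (1 - γ) * (ind x / v))) μ := hi3.const_mul _
  have h6 : ∫ x, Real.exp (γ * β * x) ∂μ ≤ ∫ x, (Real.exp (γ * β * a) +
      M ^ γ * v ^ (1 - γ) * (γ * (Real.exp (β * x) / M) + (1 - γ) * (ind x / v))) ∂μ :=
    integral_mono (hμ (γ * β)) ((integrable_const _).add hi4) hpt
  refine h6.trans (le_of_eq ?_)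
  rw [integral_add (integrable_const _) hi4, integral_const_mul,
    integral_add hi1 hi2, integral_const_mul, integral_const_mul, integral_div, integral_div,
    hind_val, ← hM, div_self hM0.ne', div_self ha.ne']
  simp only [integral_const, probReal_univ, smul_eq_mul, one_mul]
  ring

lemma mgf_low {μ : Measure ℝ} [IsProbabilityMeasure μ] (hμ : ExpMom μ) {β a : ℝ} (hβ : 0 < β) :
    Real.exp (β * a) * μ.real (Set.Ioi a) ≤ ∫ x, Real.exp (β * x) ∂μ := by
  have h1 : ∫ x, (Set.Ioi a).indicator (fun _ => Real.exp (β * a)) x ∂μ ≤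
      ∫ x, Real.exp (β * x) ∂μ := by
    apply integral_mono ((integrable_const _).indicator measurableSet_Ioi) (hμ β)
    intro x
    dsimp only
    by_cases hx : x ∈ Set.Ioi a
    · rw [Set.indicator_of_mem hx]
      exact Real.exp_le_exp.2 (mul_le_mul_of_nonneg_left (le_of_lt hx) hβ.le)
    · rw [Set.indicator_of_notMem hx]
      exact (Real.exp_pos _).le
  rw [integral_indicator_const _ measurableSet_Ioi] at h1
  rw [smul_eq_mul] at h1
  linarith

lemma ratio_small {μ : Measure ℝ} [IsProbabilityMeasure μ] (hμ : ExpMom μ)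
    (hna : ∀ η : ℝ, 0 < η → ∃ a : ℝ, 0 < μ.real (Set.Ioi a) ∧ μ.real (Set.Ioi a) < η)
    {γ : ℝ} (hγ0 : 0 < γ) (hγ1 : γ < 1) {η : ℝ} (hη : 0 < η) :
    ∃ β₀ : ℝ, ∀ β, β₀ ≤ β → 0 < β → Real.exp (lmg μ (γ * β) - γ * lmg μ β) ≤ η := by
  have h1γ : 0 < 1 - γ := by linarith
  obtain ⟨a, ha0, ha1⟩ := hna ((η / 2) ^ (1 / (1 - γ))) (by positivity)
  have hv : μ.real (Set.Ioi a) ^ (1 - γ) ≤ η / 2 := by
    have h1 := Real.rpow_le_rpow ha0.le ha1.le h1γ.le
    rwa [← Real.rpow_mul (by positivity), one_div, inv_mul_cancel₀ h1γ.ne', Real.rpow_one] at h1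
  have hne : μ (Set.Ioi a) ≠ 0 := by
    intro h
    rw [Measure.real, h] at ha0
    simp at ha0
  obtain ⟨a', haa', ha'⟩ := exists_gt hne
  have hm : 0 < μ.real (Set.Ioi a') := ENNReal.toReal_pos ha' (measure_ne_top μ _)
  set m := μ.real (Set.Ioi a') with hmdef
  have hev : ∀ᶠ β : ℝ in atTop, Real.exp (-(γ * (a' - a) * β)) ≤ η / 2 * m ^ γ := by
    have hpos : 0 < γ * (a' - a) := mul_pos hγ0 (sub_pos.2 haa')
    have t1 : Tendsto (fun β : ℝ => γ * (a' - a) * β) atTop atTop := tendsto_id.const_mul_atTop hpos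
    have t3 := Real.tendsto_exp_atBot.comp (tendsto_neg_atTop_atBot.comp t1)
    exact (t3.eventually_lt_const (by positivity : (0 : ℝ) < η / 2 * m ^ γ)).mono fun x hx => hx.le
  obtain ⟨β₁, hβ₁⟩ := eventually_atTop.1 hev
  refine ⟨β₁, fun β hβ hβ0 => ?_⟩
  have h1 := mgf_split hμ hγ0 hγ1 hβ0 ha0
  have h2 := mgf_low hμ (a := a') hβ0
  set M := ∫ x, Real.exp (β * x) ∂μ with hM
  have hM0 : 0 < M := integral_exp_pos (hμ β)
  have e1 : Real.exp (lmg μ (γ * β) - γ * lmg μ β) = (∫ x, Real.exp (γ * β * x) ∂μ) / M ^ γ := by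
    rw [Real.exp_sub, OT.X1.exp_lmg hμ, mul_comm γ (lmg μ β), Real.exp_mul, OT.X1.exp_lmg hμ]
  have hMγ : 0 < M ^ γ := by positivity
  rw [e1, div_le_iff₀ hMγ]
  have h3 : Real.exp (γ * β * a) ≤ η / 2 * M ^ γ := by
    have h4 : (Real.exp (β * a') * m) ^ γ ≤ M ^ γ := Real.rpow_le_rpow (by positivity) h2 hγ0.le
    rw [Real.mul_rpow (Real.exp_pos _).le hm.le, ← Real.exp_mul] at h4
    have h5 := hβ₁ β hβ
    calc Real.exp (γ * β * a) = Real.exp (-(γ * (a' - a) * β)) * Real.exp (β * a' * γ) := by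
          rw [← Real.exp_add]; congr 1; ring
      _ ≤ η / 2 * m ^ γ * Real.exp (β * a' * γ) :=
          mul_le_mul_of_nonneg_right h5 (Real.exp_pos _).le
      _ = η / 2 * (Real.exp (β * a' * γ) * m ^ γ) := by ring
      _ ≤ η / 2 * M ^ γ := mul_le_mul_of_nonneg_left h4 (by positivity)
  have h6 : M ^ γ * μ.real (Set.Ioi a) ^ (1 - γ) ≤ M ^ γ * (η / 2) :=
    mul_le_mul_of_nonneg_left hv hMγ.le
  linarith

end L3

/-- low temperature: the quenched critical point is smaller than the annealed one -/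
theorem strict_large2 {K : ℕ → ℝ} (hK : KerP K) (μ : Measure ℝ) [IsProbabilityMeasure μ]
    (hμ : ExpMom μ)
    (hna : ∀ η : ℝ, 0 < η → ∃ a : ℝ, 0 < μ.real (Set.Ioi a) ∧ μ.real (Set.Ioi a) < η)
    {γ₀ : ℝ} (hγ0 : 0 < γ₀) (hγ1 : γ₀ < 1) (hsum : Summable fun k => K k ^ γ₀) :
    ∃ β₀ : ℝ, ∀ β, β₀ ≤ β → 0 < β →
      ∃ h₁ : ℝ, h₁ < lmg μ β ∧ ∃ B : ℝ, ∀ n, LP K μ β h₁ n ≤ B := by
  have hK0 : ∀ k, 0 ≤ K k := fun k => by
    rcases Nat.eq_zero_or_pos k with rfl | hk
    · rw [hK.zero]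
    · exact (hK.pos k hk).le
  set S : ℝ := ∑' k, K (k + 1) ^ γ₀ with hS
  have hS0 : 0 ≤ S := tsum_nonneg fun k => Real.rpow_nonneg (hK0 _) _
  obtain ⟨β₀, hβ₀⟩ := L3.ratio_small hμ hna hγ0 hγ1 (η := Real.exp (-γ₀) / (S + 1))
    (by have := Real.exp_pos (-γ₀); positivity)
  refine ⟨β₀, fun β hβ hβ0 => ⟨lmg μ β - 1, by linarith, ?_⟩⟩
  have hq : OT.X1.qq μ β (lmg μ β - 1) γ₀ ≤ 1 / (S + 1) := by
    rw [OT.X1.qq_eq hμ]
    have h1 := hβ₀ β hβ hβ0
    calc Real.exp (lmg μ (γ₀ * β) - γ₀ * (lmg μ β - 1))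
        = Real.exp (lmg μ (γ₀ * β) - γ₀ * lmg μ β) * Real.exp γ₀ := by
          rw [← Real.exp_add]; congr 1; ring
      _ ≤ Real.exp (-γ₀) / (S + 1) * Real.exp γ₀ :=
          mul_le_mul_of_nonneg_right h1 (Real.exp_pos _).le
      _ = Real.exp (-γ₀) * Real.exp γ₀ / (S + 1) := by ring
      _ = 1 / (S + 1) := by rw [← Real.exp_add, neg_add_cancel, Real.exp_zero]
  refine frac_bound hK μ hμ hγ0 hγ1 hsum (le_refl 1) (fun _ => 1) ?_ ?_
  · intro j hj
    have hj0 : j = 0 := by omega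
    subst hj0
    simp only [R2.Zp_zero, Real.one_rpow, integral_const, probReal_univ, smul_eq_mul, mul_one,
      le_refl]
  · rw [Finset.sum_range_one, mul_one, Nat.sub_zero]
    calc OT.X1.qq μ β (lmg μ β - 1) γ₀ * S ≤ 1 / (S + 1) * S :=
          mul_le_mul_of_nonneg_right hq hS0
      _ ≤ 1 := by
          rw [one_div_mul_eq_div, div_le_one (by positivity)]
          linarith

end

end Pool.Agent.OTP
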