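import Mathlib
import Pool.Agent.Lib.MP_daa227_pr_OTP.Defs
import Pool.Agent.Lib.MP_daa227_pr_OT.Strict
import Pool.Agent.Lib.MP_daa227_pr.Dens
import Pool.Agent.Lib.MP_daa227_pr_OTP.Dec
import Pool.Agent.Lib.MP_daa227_pr_OTP.Ann
import Pool.Agent.Lib.MP_daa227_pr_OTP.RenEst
import Pool.Agent.Lib.MP_daa227_pr_OTP.Frac

/-!
# Pinning: disorder is relevant for exponents larger than one half
-/

namespace Pool.Agent.OTP

open MeasureTheory ProbabilityTheory Finset Filter Topology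
open MP_daa227_pr (Chain Zk Zf K0 shift seqLaw ExpMom)
open Pool.Agent.OT (Kp Km en tr ZE AE pE cE EFam gP LE ME RE dy ins lmg)

noncomputable section

namespace R3

/-! ### The logarithmic moment generating function -/

lemma lmg_nonneg {μ : Measure ℝ} [IsProbabilityMeasure μ] (hμ : ExpMom μ)
    (hmean : ∫ x, x ∂μ = 0) (t : ℝ) : 0 ≤ lmg μ t :=
  Real.log_nonneg (MP_daa227_pr.Dens.mgf_ge_one hμ hmean t)

lemma lmg_pos {μ : Measure ℝ} [IsProbabilityMeasure μ] (hμ : ExpMom μ)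
    (hvar : ∫ x, x ^ 2 ∂μ ≠ 0) (hmean : ∫ x, x ∂μ = 0) {β : ℝ} (hβ : 0 < β) : 0 < lmg μ β := by
  have h1 := OT.X1.lmg_strict hμ hvar hmean hβ
  have h2 := lmg_nonneg hμ hmean (β / 2)
  linarith

lemma lmg_quad {μ : Measure ℝ} [IsProbabilityMeasure μ] (hμ : ExpMom μ)
    (hmean : ∫ x, x ∂μ = 0) : ∃ A : ℝ, 0 ≤ A ∧ ∀ t : ℝ, |t| ≤ 1 → lmg μ t ≤ A * t ^ 2 := by
  refine ⟨∫ x, x ^ 2 * Real.exp |x| ∂μ, integral_nonneg fun x => by positivity, fun t ht => ?_⟩
  have hi : Integrable (fun x => x ^ 2 * Real.exp |x|) μ := by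
    have := hμ.sq_abs 1
    simpa using this
  have h2 : ∫ x, Real.exp (t * x) ∂μ ≤ ∫ x, (1 + t * x + t ^ 2 * (x ^ 2 * Real.exp |x|)) ∂μ := by
    apply integral_mono (hμ t)
    · exact ((integrable_const _).add (hμ.integrable_id.const_mul t)).add (hi.const_mul _)
    intro x
    dsimp only
    refine (MP_daa227_pr.Model.exp_le_quad (t * x)).trans ?_
    rw [mul_pow, mul_assoc (t ^ 2)]
    have h3 : Real.exp |t * x| ≤ Real.exp |x| := by
      apply Real.exp_le_exp.2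
      rw [abs_mul]
      calc |t| * |x| ≤ 1 * |x| := mul_le_mul_of_nonneg_right ht (abs_nonneg x)
        _ = |x| := one_mul _
    have h4 := mul_le_mul_of_nonneg_left (mul_le_mul_of_nonneg_left h3 (sq_nonneg x)) (sq_nonneg t)
    linarith
  have h5 : ∫ x, (1 + t * x + t ^ 2 * (x ^ 2 * Real.exp |x|)) ∂μ =
      1 + (∫ x, x ^ 2 * Real.exp |x| ∂μ) * t ^ 2 := by
    have hA : Integrable (fun x => 1 + t * x) μ :=
      (integrable_const _).add (hμ.integrable_id.const_mul t)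
    rw [integral_add hA (hi.const_mul _),
      integral_add (integrable_const _) (hμ.integrable_id.const_mul t),
      integral_const_mul, integral_const_mul, hmean]
    simp only [integral_const, probReal_univ, smul_eq_mul, one_mul, mul_zero, add_zero]
    ring
  unfold lmg
  have h6 := Real.log_le_sub_one_of_pos (integral_exp_pos (hμ t))
  linarith

/-! ### Hoelder inequality -/

lemma holder2 {Ω : Type*} [MeasurableSpace Ω] {P : Measure Ω} [IsProbabilityMeasure P]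
    {F G : Ω → ℝ} (hF : Integrable F P) (hG : Integrable G P) (hF0 : ∀ ω, 0 < F ω)
    (hG0 : ∀ ω, 0 < G ω) {γ : ℝ} (h0 : 0 ≤ γ) (h1 : γ ≤ 1) :
    ∫ ω, F ω ^ γ * G ω ^ (1 - γ) ∂P ≤ (∫ ω, F ω ∂P) ^ γ * (∫ ω, G ω ∂P) ^ (1 - γ) := by
  have ha : 0 < ∫ ω, F ω ∂P := by
    rw [integral_pos_iff_support_of_nonneg (fun ω => (hF0 ω).le) hF]
    have : Function.support F = Set.univ := by
      ext ω; simp [(hF0 ω).ne']
    rw [this]
    simp
  have hb : 0 < ∫ ω, G ω ∂P := by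
    rw [integral_pos_iff_support_of_nonneg (fun ω => (hG0 ω).le) hG]
    have : Function.support G = Set.univ := by
      ext ω; simp [(hG0 ω).ne']
    rw [this]
    simp
  set a := ∫ ω, F ω ∂P with ha'
  set b := ∫ ω, G ω ∂P with hb'
  have hab : 0 < a ^ γ * b ^ (1 - γ) := by positivity
  have h2 : ∀ ω, F ω ^ γ * G ω ^ (1 - γ) ≤
      a ^ γ * b ^ (1 - γ) * (γ * (F ω / a) + (1 - γ) * (G ω / b)) := by
    intro ω
    have h3 := Real.geom_mean_le_arith_mean2_weighted h0 (sub_nonneg.2 h1)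
      (div_pos (hF0 ω) ha).le (div_pos (hG0 ω) hb).le (by ring)
    rw [Real.div_rpow (hF0 ω).le ha.le, Real.div_rpow (hG0 ω).le hb.le] at h3
    have h4 := mul_le_mul_of_nonneg_left h3 hab.le
    refine le_trans (le_of_eq ?_) h4
    have e1 : a ^ γ ≠ 0 := by positivity
    have e2 : b ^ (1 - γ) ≠ 0 := by positivity
    field_simp
  have hi1 : Integrable (fun ω => γ * (F ω / a)) P := (hF.div_const a).const_mul γ
  have hi2 : Integrable (fun ω => (1 - γ) * (G ω / b)) P := (hG.div_const b).const_mul _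
  have h5 : ∫ ω, F ω ^ γ * G ω ^ (1 - γ) ∂P ≤
      ∫ ω, a ^ γ * b ^ (1 - γ) * (γ * (F ω / a) + (1 - γ) * (G ω / b)) ∂P := by
    apply integral_mono_of_nonneg
    · exact ae_of_all _ fun ω => by have := hF0 ω; have := hG0 ω; positivity
    · exact (hi1.add hi2).const_mul _
    · exact ae_of_all _ h2
  refine h5.trans (le_of_eq ?_)
  rw [integral_const_mul, integral_add hi1 hi2, integral_const_mul, integral_const_mul,
    integral_div, integral_div, ← ha', ← hb', div_self ha.ne', div_self hb.ne']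
  ring

/-! ### Sums of charges -/

lemma sum_law {μ : Measure ℝ} [IsProbabilityMeasure μ] (hμ : ExpMom μ) (t : ℝ) (n : ℕ) :
    Integrable (fun ω : ℕ → ℝ => Real.exp (t * ∑ i ∈ range n, ω i)) (seqLaw μ) ∧
    ∫ ω : ℕ → ℝ, Real.exp (t * ∑ i ∈ range n, ω i) ∂seqLaw μ = Real.exp (n * lmg μ t) := by
  have hl : ∀ n : ℕ, ∫⁻ ω : ℕ → ℝ, ENNReal.ofReal (Real.exp (t * ∑ i ∈ range n, ω i)) ∂seqLaw μ =
      ENNReal.ofReal (Real.exp (n * lmg μ t)) := by
    intro n
    induction n with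
    | zero => simp
    | succ n ih =>
      have hm : Measurable fun ω : ℕ → ℝ =>
          ENNReal.ofReal (Real.exp (t * ∑ i ∈ range (n + 1), ω i)) := by fun_prop
      rw [MP_daa227_pr.lintegral_cons μ hm]
      have h1 : ∀ x : ℝ, ∫⁻ ω : ℕ → ℝ, ENNReal.ofReal (Real.exp (t * ∑ i ∈ range (n + 1),
          MP_daa227_pr.cons x ω i)) ∂seqLaw μ =
          ENNReal.ofReal (Real.exp (t * x)) * ENNReal.ofReal (Real.exp (n * lmg μ t)) := by
        intro x
        rw [← ih, ← lintegral_const_mul _ (by fun_prop)]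
        apply lintegral_congr
        intro ω
        rw [← ENNReal.ofReal_mul (Real.exp_pos _).le, ← Real.exp_add, sum_range_succ']
        simp only [MP_daa227_pr.cons_succ, MP_daa227_pr.cons_zero]
        congr 2
        ring
      simp_rw [h1]
      rw [lintegral_mul_const _ (by fun_prop),
        ← ofReal_integral_eq_lintegral_ofReal (hμ t) (ae_of_all _ fun _ => (Real.exp_pos _).le),
        ← OT.X1.exp_lmg hμ t, ← ENNReal.ofReal_mul (Real.exp_pos _).le, ← Real.exp_add]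
      congr 2
      push_cast
      ring
  have hint : Integrable (fun ω : ℕ → ℝ => Real.exp (t * ∑ i ∈ range n, ω i)) (seqLaw μ) := by
    refine ⟨(by fun_prop : Measurable _).aestronglyMeasurable, ?_⟩
    rw [hasFiniteIntegral_iff_ofReal (ae_of_all _ fun _ => (Real.exp_pos _).le), hl n]
    exact ENNReal.ofReal_lt_top
  refine ⟨hint, ?_⟩
  rw [integral_eq_lintegral_of_nonneg_ae (ae_of_all _ fun _ => (Real.exp_pos _).le)
    hint.aestronglyMeasurable, hl n, ENNReal.toReal_ofReal (Real.exp_pos _).le]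

/-! ### The fractional moment of a short block -/

lemma block {K : ℕ → ℝ} (hK : KerP K) (μ : Measure ℝ) [IsProbabilityMeasure μ]
    (hμ : ExpMom μ) (β h l : ℝ) {γ : ℝ} (h0 : 0 < γ) (h1 : γ < 1) (n : ℕ) :
    ∫ ω, Zp K n (en β h ω) ^ γ ∂seqLaw μ ≤
      (Real.exp (n * lmg μ (-l)) * Zp K n (fun _ => lmg μ (β - l) - lmg μ (-l) - h)) ^ γ *
        Real.exp (n * lmg μ (γ * l / (1 - γ))) ^ (1 - γ) := by
  obtain ⟨a1, a2⟩ := ann_tilt hK μ hμ β h l n
  obtain ⟨b1, b2⟩ := sum_law hμ (γ * l / (1 - γ)) n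
  rw [← a2, ← b2]
  refine le_trans (le_of_eq ?_) (holder2 a1 b1
    (fun ω => mul_pos (Zp_pos hK _ _) (Real.exp_pos _)) (fun ω => Real.exp_pos _) h0.le h1.le)
  congr 1
  funext ω
  have h2 : 1 - γ ≠ 0 := by linarith
  rw [Real.mul_rpow (Zp_pos hK _ _).le (Real.exp_pos _).le, mul_assoc, ← Real.exp_mul,
    ← Real.exp_mul, ← Real.exp_add]
  have h3 : -(l * ∑ i ∈ range n, ω i) * γ + γ * l / (1 - γ) * (∑ i ∈ range n, ω i) * (1 - γ) = 0 := by
    field_simp
    ring
  rw [h3, Real.exp_zero, mul_one]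

end R3

open R3 in
theorem relevant {K : ℕ → ℝ} (hK : KerP K) (μ : Measure ℝ) [IsProbabilityMeasure μ]
    (hμ : ExpMom μ) (hvar : ∫ x, x ^ 2 ∂μ ≠ 0) (hmean : ∫ x, x ∂μ = 0) {β : ℝ} (hβ : 0 < β)
    {α : ℝ} (hα : 1 / 2 < α) (hα1 : α < 1)
    (hup : ∃ C : ℝ, ∀ k : ℕ, 1 ≤ k → K k ≤ C * (k : ℝ) ^ (-(1 + α))) :
    ∃ h₁ : ℝ, h₁ < lmg μ β ∧ ∃ B : ℝ, ∀ n, LP K μ β h₁ n ≤ B := by
  obtain ⟨γ, hγ0, hγ1, hsum, hest⟩ := ren_est hK hα hα1 hup
  obtain ⟨A, hA0, hA⟩ := lmg_quad hμ hmean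
  have hΛ := lmg_pos hμ hvar hmean hβ
  set c : ℝ := lmg μ β / (2 * β) with hc
  have hc0 : 0 < c := by positivity
  have h1γ : 0 < 1 - γ := by linarith
  set C1 : ℝ := Real.exp (A * γ + A * (γ / (1 - γ)) ^ 2 * (1 - γ)) with hC1
  set Q0 : ℝ := Real.exp (lmg μ (γ * β) - γ * (lmg μ β - c)) with hQ0
  have hC10 : 0 < C1 := Real.exp_pos _
  have hQ00 : 0 < Q0 := Real.exp_pos _
  obtain ⟨m, hm⟩ := exists_nat_ge (max 1 (max (1 / β) (γ / (1 - γ))))
  obtain ⟨k, hk0, hk1, hk⟩ := hest c (Q0 * C1) hc0 (by positivity) (m ^ 2)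
  have hkpos : (0 : ℝ) < k := by exact_mod_cast hk1
  have hsq : (m : ℝ) ≤ Real.sqrt k := by
    apply Real.le_sqrt_of_sq_le
    exact_mod_cast hk0
  have hs0 : 0 < Real.sqrt k := Real.sqrt_pos.2 hkpos
  set l : ℝ := 1 / Real.sqrt k with hl
  have hl0 : 0 < l := by positivity
  have hle : max 1 (max (1 / β) (γ / (1 - γ))) ≤ Real.sqrt k := hm.trans hsq
  have hl1 : l ≤ 1 := by
    rw [hl, div_le_one hs0]
    exact (le_max_left _ _).trans hle
  have hlβ : l ≤ β := by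
    rw [hl, div_le_iff₀ hs0]
    have h2 : 1 / β ≤ Real.sqrt k := ((le_max_left _ _).trans (le_max_right _ _)).trans hle
    rw [div_le_iff₀ hβ] at h2
    linarith
  have ht1 : γ * l / (1 - γ) ≤ 1 := by
    have h2 : γ / (1 - γ) ≤ Real.sqrt k := ((le_max_right _ _).trans (le_max_right _ _)).trans hle
    have e : γ * l / (1 - γ) = γ / (1 - γ) / Real.sqrt k := by rw [hl]; ring
    rw [e, div_le_one hs0]
    exact h2
  have hkl : (k : ℝ) * l ^ 2 = 1 := by
    rw [hl, div_pow, one_pow, Real.sq_sqrt hkpos.le, mul_one_div, div_self hkpos.ne']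
  set h₁ : ℝ := lmg μ β - c * l with hh₁
  refine ⟨h₁, by rw [hh₁]; nlinarith, ?_⟩
  -- the field
  have hfield : lmg μ (β - l) - lmg μ (-l) - h₁ ≤ -(c / Real.sqrt k) := by
    have h2 := OT.X1.lmg_convex hμ (s := β) (t := 0) (θ := 1 - l / β)
      (by rw [sub_nonneg, div_le_one hβ]; exact hlβ) (by have := div_pos hl0 hβ; linarith)
    rw [mul_zero, add_zero, OT.X1.lmg_zero, mul_zero, add_zero] at h2
    have e : (1 - l / β) * β = β - l := by field_simp
    rw [e] at h2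
    have h3 := lmg_nonneg hμ hmean (-l)
    have e2 : (1 - l / β) * lmg μ β = lmg μ β - 2 * (c * l) := by
      rw [hc]
      field_simp
    have e3 : c / Real.sqrt k = c * l := by rw [hl]; ring
    rw [e2] at h2
    rw [e3, hh₁]
    linarith
  refine frac_bound hK μ hμ hγ0 hγ1 hsum hk1
    (fun j => C1 * Zp K j (fun _ => -(c / Real.sqrt k)) ^ γ) (fun j hj => ?_) ?_
  · refine (block hK μ hμ β h₁ l hγ0 hγ1 j).trans ?_
    have hjk : (j : ℝ) ≤ k := by exact_mod_cast hj.le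
    have g1 : (j : ℝ) * lmg μ (-l) ≤ A := by
      have h2 : lmg μ (-l) ≤ A * l ^ 2 := by
        have := hA (-l) (by rw [abs_neg, abs_of_pos hl0]; exact hl1)
        rwa [neg_sq] at this
      calc (j : ℝ) * lmg μ (-l) ≤ k * (A * l ^ 2) :=
            mul_le_mul hjk h2 (lmg_nonneg hμ hmean _) hkpos.le
        _ = A * (k * l ^ 2) := by ring
        _ = A := by rw [hkl, mul_one]
    have g2 : (j : ℝ) * lmg μ (γ * l / (1 - γ)) ≤ A * (γ / (1 - γ)) ^ 2 := by
      have h2 := hA (γ * l / (1 - γ)) (by rw [abs_of_pos (by positivity)]; exact ht1)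
      calc (j : ℝ) * lmg μ (γ * l / (1 - γ)) ≤ k * (A * (γ * l / (1 - γ)) ^ 2) :=
            mul_le_mul hjk h2 (lmg_nonneg hμ hmean _) hkpos.le
        _ = A * (γ / (1 - γ)) ^ 2 * (k * l ^ 2) := by ring
        _ = _ := by rw [hkl, mul_one]
    have g3 : Zp K j (fun _ => lmg μ (β - l) - lmg μ (-l) - h₁) ≤
        Zp K j (fun _ => -(c / Real.sqrt k)) := Zp_mono hK j fun _ _ => hfield
    have z1 := Zp_pos hK j (fun _ => lmg μ (β - l) - lmg μ (-l) - h₁)
    have z2 := Zp_pos hK j (fun _ => -(c / Real.sqrt k))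
    rw [Real.mul_rpow (Real.exp_pos _).le z1.le, ← Real.exp_mul, ← Real.exp_mul, mul_comm (Real.exp _),
      mul_assoc, ← Real.exp_add, mul_comm]
    apply mul_le_mul _ (Real.rpow_le_rpow z1.le g3 hγ0.le) (by positivity) hC10.le
    rw [hC1]
    apply Real.exp_le_exp.2
    have i1 := mul_le_mul_of_nonneg_right g1 hγ0.le
    have i2 := mul_le_mul_of_nonneg_right g2 h1γ.le
    linarith
  · have hq : ∫ x, Real.exp (γ * (β * x - h₁)) ∂μ ≤ Q0 := by
      have h2 := OT.X1.qq_eq hμ β h₁ γ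
      unfold OT.X1.qq at h2
      rw [h2, hQ0]
      apply Real.exp_le_exp.2
      have h3 : lmg μ β - c ≤ h₁ := by rw [hh₁]; nlinarith
      have := mul_le_mul_of_nonneg_left h3 hγ0.le
      linarith
    refine le_trans ?_ hk
    have e : ∑ j ∈ range k, (∑' n, K (n + (k - j)) ^ γ) *
        (C1 * Zp K j (fun _ => -(c / Real.sqrt k)) ^ γ) =
        C1 * ∑ j ∈ range k, (∑' n, K (n + (k - j)) ^ γ) *
          Zp K j (fun _ => -(c / Real.sqrt k)) ^ γ := by
      rw [mul_sum]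
      exact sum_congr rfl fun j _ => by ring
    have hS : 0 ≤ ∑ j ∈ range k, (∑' n, K (n + (k - j)) ^ γ) *
          Zp K j (fun _ => -(c / Real.sqrt k)) ^ γ := by
      refine sum_nonneg fun j _ => mul_nonneg (tsum_nonneg fun n => ?_)
        (Real.rpow_nonneg (Zp_pos hK _ _).le _)
      apply Real.rpow_nonneg
      rcases Nat.eq_zero_or_pos (n + (k - j)) with h | h
      · rw [h, hK.zero]
      · exact (hK.pos _ h).le
    rw [e, mul_assoc Q0]
    exact mul_le_mul_of_nonneg_right hq (mul_nonneg hC10.le hS)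

end

end Pool.Agent.OTP
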