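import Mathlib
import Pool.Agent.Lib.MP_daa227_pr_OTP.Defs
import Pool.Agent.Lib.MP_daa227_pr_OTP.Dec
import Pool.Agent.Lib.MP_daa227_pr_OTP.Ann
import Pool.Agent.Lib.MP_daa227_pr_OTP.Sup

/-!
# Pinning: annealed bounds
-/

namespace Pool.Agent.OTP

open MeasureTheory ProbabilityTheory Finset Filter Topology
open MP_daa227_pr (Chain Zk Zf K0 shift seqLaw ExpMom)
open Pool.Agent.OT (Kp Km en tr ZE AE pE cE EFam gP LE ME RE dy ins lmg)

noncomputable section

namespace AN

/-- Jensen's inequality: the quenched average is at most the annealed one -/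
theorem LP_le_log {K : ℕ → ℝ} (hK : KerP K) (μ : Measure ℝ) [IsProbabilityMeasure μ]
    (hμ : ExpMom μ) (β h : ℝ) (n : ℕ) :
    LP K μ β h n ≤ Real.log (Zp K n (fun _ => lmg μ β - h)) := by
  obtain ⟨hint, hval⟩ := ann_eq hK μ hμ β h n
  set m := Zp K n (fun _ => lmg μ β - h) with hm
  have hmpos : 0 < m := Zp_pos hK n _
  have : IsProbabilityMeasure (seqLaw μ) := by
    unfold seqLaw; infer_instance
  have h1 : ∀ ω : ℕ → ℝ, Real.log (Zp K n (en β h ω)) ≤
      (Real.log m - 1) + Zp K n (en β h ω) / m := by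
    intro ω
    have hz : 0 < Zp K n (en β h ω) := Zp_pos hK n _
    have h2 := Real.log_le_sub_one_of_pos (div_pos hz hmpos)
    rw [Real.log_div hz.ne' hmpos.ne'] at h2
    linarith
  have h3 : Integrable (fun ω : ℕ → ℝ => (Real.log m - 1) + Zp K n (en β h ω) / m)
      (seqLaw μ) := (integrable_const _).add (hint.div_const m)
  have h4 := integral_mono (integrable_logZp hK μ hμ β h n) h3 h1
  rw [integral_add (integrable_const _) (hint.div_const m), integral_div, hval,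
    div_self hmpos.ne'] at h4
  simp only [integral_const, probReal_univ, smul_eq_mul, one_mul] at h4
  unfold LP
  linarith

/-- partial sums of the kernel -/
theorem sum_le_one {K : ℕ → ℝ} (hK : KerP K) (n : ℕ) :
    ∑ k ∈ range n, K (k + 1) ≤ 1 := by
  have h1 : ∑ k ∈ range (n + 1), K k ≤ 1 := by
    refine sum_le_hasSum _ (fun i _ => ?_) hK.sum_one
    rcases Nat.eq_zero_or_pos i with h | h
    · rw [h, hK.zero]
    · exact (hK.pos i h).le
  rw [sum_range_succ', hK.zero, add_zero] at h1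
  exact h1

/-- growth bound in a homogeneous field -/
theorem Zp_le_exp {K : ℕ → ℝ} (hK : KerP K) {δ f : ℝ}
    (h : ∀ n : ℕ, Real.exp δ * ∑ k ∈ range n, K (k + 1) * Real.exp (-(f * (k + 1))) ≤ 1)
    (n : ℕ) : Zp K n (fun _ => δ) ≤ Real.exp (f * n) := by
  induction n using Nat.strong_induction_on with
  | _ n ih =>
    rcases n with _ | n
    · rw [D.Zp_zero]
      simp
    · rw [D.Zp_succ]
      have h1 : ∀ k ∈ range (n + 1), K (k + 1) * Real.exp δ *
          Zp K (n - k) (shift (k + 1) (fun _ => δ)) ≤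
          Real.exp (f * ((n + 1 : ℕ) : ℝ)) *
            (Real.exp δ * (K (k + 1) * Real.exp (-(f * (k + 1))))) := by
        intro k hk
        rw [mem_range] at hk
        have h2 : Zp K (n - k) (shift (k + 1) (fun _ => δ)) ≤ Real.exp (f * ((n - k : ℕ) : ℝ)) :=
          ih (n - k) (by omega)
        have h3 : Real.exp (f * ((n - k : ℕ) : ℝ)) =
            Real.exp (f * ((n + 1 : ℕ) : ℝ)) * Real.exp (-(f * (k + 1))) := by
          rw [← Real.exp_add]
          congr 1
          rw [Nat.cast_sub (by omega)]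
          push_cast
          ring
        have h4 : 0 ≤ K (k + 1) * Real.exp δ :=
          mul_nonneg (hK.pos _ (by omega)).le (Real.exp_pos _).le
        calc K (k + 1) * Real.exp δ * Zp K (n - k) (shift (k + 1) (fun _ => δ))
            ≤ K (k + 1) * Real.exp δ * Real.exp (f * ((n - k : ℕ) : ℝ)) :=
              mul_le_mul_of_nonneg_left h2 h4
          _ = _ := by rw [h3]; ring
      refine (sum_le_sum h1).trans ?_
      rw [← mul_sum, ← mul_sum]
      have h5 := h (n + 1)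
      have h6 := Real.exp_pos (f * ((n + 1 : ℕ) : ℝ))
      calc Real.exp (f * ((n + 1 : ℕ) : ℝ)) *
            (Real.exp δ * ∑ k ∈ range (n + 1), K (k + 1) * Real.exp (-(f * (k + 1))))
          ≤ Real.exp (f * ((n + 1 : ℕ) : ℝ)) * 1 := mul_le_mul_of_nonneg_left h5 h6.le
        _ = _ := mul_one _

/-- large `f` -/
theorem tilt_large {K : ℕ → ℝ} (hK : KerP K) {δ f : ℝ} (hf : 0 ≤ f) (hδ : δ ≤ f) (n : ℕ) :
    Real.exp δ * ∑ k ∈ range n, K (k + 1) * Real.exp (-(f * (k + 1))) ≤ 1 := by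
  have h1 : ∑ k ∈ range n, K (k + 1) * Real.exp (-(f * (k + 1))) ≤
      ∑ k ∈ range n, K (k + 1) * Real.exp (-f) := by
    refine sum_le_sum fun k _ => ?_
    refine mul_le_mul_of_nonneg_left ?_ (hK.pos _ (by omega)).le
    refine Real.exp_le_exp.2 ?_
    have : (0 : ℝ) ≤ k := Nat.cast_nonneg k
    nlinarith
  rw [← sum_mul] at h1
  have h2 := sum_le_one hK n
  have h3 : Real.exp δ * Real.exp (-f) ≤ 1 := by
    rw [← Real.exp_add]
    exact Real.exp_le_one_iff.2 (by linarith)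
  calc Real.exp δ * ∑ k ∈ range n, K (k + 1) * Real.exp (-(f * (k + 1)))
      ≤ Real.exp δ * ((∑ k ∈ range n, K (k + 1)) * Real.exp (-f)) :=
        mul_le_mul_of_nonneg_left h1 (Real.exp_pos _).le
    _ = (∑ k ∈ range n, K (k + 1)) * (Real.exp δ * Real.exp (-f)) := by ring
    _ ≤ 1 * 1 := by
        refine mul_le_mul h2 h3 (mul_nonneg (Real.exp_pos _).le (Real.exp_pos _).le) zero_le_one
    _ = 1 := mul_one _

/-- small `f` -/
theorem tilt_small {K : ℕ → ℝ} (hK : KerP K) {a c : ℝ} (ha : 0 < a) (hc : 0 < c)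
    (hlo : ∀ k : ℕ, 1 ≤ k → c * (k : ℝ) ^ (-(1 + a)) ≤ K k) :
    ∃ c1 : ℝ, 0 < c1 ∧ ∀ f : ℝ, 0 < f → f ≤ 1 → ∀ n : ℕ,
      ∑ k ∈ range n, K (k + 1) * Real.exp (-(f * (k + 1))) ≤ 1 - c1 * f ^ a := by
  have he : 0 < 1 - Real.exp (-1) := by
    have : Real.exp (-1) < 1 := Real.exp_lt_one_iff.2 (by norm_num)
    linarith
  refine ⟨c * (1 - Real.exp (-1)) * 2 ^ (-(1 + a)) * 2 ^ (-a), by positivity, ?_⟩
  intro f hf0 hf1 n
  set m : ℕ := ⌈1 / f⌉₊ with hm
  have hm1 : 1 ≤ m := Nat.one_le_iff_ne_zero.2 (by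
    rw [hm]; exact (Nat.ceil_pos.2 (by positivity)).ne')
  have hmf : 1 / f ≤ m := Nat.le_ceil _
  have hmf2 : (m : ℝ) ≤ 2 / f := by
    have h1 : (m : ℝ) < 1 / f + 1 := Nat.ceil_lt_add_one (by positivity)
    have h2 : 1 ≤ 1 / f := by rw [le_div_iff₀ hf0]; linarith
    have h3 : (2 : ℝ) / f = 1 / f + 1 / f := by ring
    linarith
  have hm0 : (0 : ℝ) < m := by exact_mod_cast hm1
  -- it is enough to treat large `n`
  have hmono : ∑ k ∈ range n, K (k + 1) * Real.exp (-(f * (k + 1))) ≤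
      ∑ k ∈ range (n + 2 * m), K (k + 1) * Real.exp (-(f * (k + 1))) := by
    refine sum_le_sum_of_subset_of_nonneg (range_subset_range.2 (by omega)) fun k _ _ => ?_
    exact mul_nonneg (hK.pos _ (by omega)).le (Real.exp_pos _).le
  refine hmono.trans ?_
  have h1 := sum_le_one hK (n + 2 * m)
  have h2 : c * (1 - Real.exp (-1)) * 2 ^ (-(1 + a)) * 2 ^ (-a) * f ^ a ≤
      ∑ k ∈ range (n + 2 * m), K (k + 1) * (1 - Real.exp (-(f * (k + 1)))) := by
    have h3 : ∑ k ∈ Ico m (2 * m), K (k + 1) * (1 - Real.exp (-(f * (k + 1)))) ≤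
        ∑ k ∈ range (n + 2 * m), K (k + 1) * (1 - Real.exp (-(f * (k + 1)))) := by
      refine sum_le_sum_of_subset_of_nonneg ?_ fun k _ _ => ?_
      · intro k hk
        rw [mem_Ico] at hk
        rw [mem_range]
        omega
      · refine mul_nonneg (hK.pos _ (by omega)).le ?_
        have : Real.exp (-(f * ((k : ℝ) + 1))) ≤ 1 := Real.exp_le_one_iff.2 (by
          have : (0 : ℝ) ≤ k := Nat.cast_nonneg k
          nlinarith)
        linarith
    refine le_trans ?_ h3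
    have h4 : ∀ k ∈ Ico m (2 * m), c * (2 * (m : ℝ)) ^ (-(1 + a)) * (1 - Real.exp (-1)) ≤
        K (k + 1) * (1 - Real.exp (-(f * (k + 1)))) := by
      intro k hk
      rw [mem_Ico] at hk
      have hk1 : (m : ℝ) ≤ k := by exact_mod_cast hk.1
      have hk2 : (k : ℝ) + 1 ≤ 2 * m := by exact_mod_cast hk.2
      have h5 : c * (2 * (m : ℝ)) ^ (-(1 + a)) ≤ K (k + 1) := by
        refine le_trans ?_ (hlo (k + 1) (by omega))
        refine mul_le_mul_of_nonneg_left ?_ hc.le
        push_cast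
        exact Real.rpow_le_rpow_of_nonpos (by positivity) hk2 (by linarith)
      have h6 : Real.exp (-(f * ((k : ℝ) + 1))) ≤ Real.exp (-1) := by
        refine Real.exp_le_exp.2 ?_
        have h7 : f * (1 / f) = 1 := by field_simp
        have h8 : f * (1 / f) ≤ f * ((k : ℝ) + 1) :=
          mul_le_mul_of_nonneg_left (by linarith) hf0.le
        linarith
      exact mul_le_mul h5 (by linarith) he.le (hK.pos _ (by omega)).le
    have h9 := card_nsmul_le_sum (Ico m (2 * m)) _ _ h4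
    refine le_trans ?_ h9
    rw [Nat.card_Ico, nsmul_eq_mul, show 2 * m - m = m by omega,
      Real.mul_rpow (by norm_num) hm0.le]
    have h10 : (m : ℝ) * (m : ℝ) ^ (-(1 + a)) = (m : ℝ) ^ (-a) := by
      nth_rewrite 1 [← Real.rpow_one (m : ℝ)]
      rw [← Real.rpow_add hm0]
      congr 1
      ring
    have h11 : (2 : ℝ) ^ (-a) * f ^ a ≤ (m : ℝ) ^ (-a) := by
      have h12 : (2 / f : ℝ) ^ (-a) ≤ (m : ℝ) ^ (-a) :=
        Real.rpow_le_rpow_of_nonpos hm0 hmf2 (by linarith)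
      rw [Real.div_rpow (by norm_num) hf0.le, Real.rpow_neg hf0.le a, div_inv_eq_mul] at h12
      exact h12
    calc c * (1 - Real.exp (-1)) * 2 ^ (-(1 + a)) * 2 ^ (-a) * f ^ a
        = c * (1 - Real.exp (-1)) * 2 ^ (-(1 + a)) * (2 ^ (-a) * f ^ a) := by ring
      _ ≤ c * (1 - Real.exp (-1)) * 2 ^ (-(1 + a)) * (m : ℝ) ^ (-a) :=
          mul_le_mul_of_nonneg_left h11 (by positivity)
      _ = _ := by rw [← h10]; ring
  have h13 : ∑ k ∈ range (n + 2 * m), K (k + 1) * (1 - Real.exp (-(f * (k + 1)))) =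
      ∑ k ∈ range (n + 2 * m), K (k + 1) -
        ∑ k ∈ range (n + 2 * m), K (k + 1) * Real.exp (-(f * (k + 1))) := by
    rw [← sum_sub_distrib]
    exact sum_congr rfl fun k _ => by ring
  rw [h13] at h2
  linarith

end AN

theorem LP_nonpos {K : ℕ → ℝ} (hK : KerP K) (μ : Measure ℝ) [IsProbabilityMeasure μ]
    (hμ : ExpMom μ) {β h : ℝ} (hh : lmg μ β ≤ h) (n : ℕ) : LP K μ β h n ≤ 0 := by
  refine (AN.LP_le_log hK μ hμ β h n).trans ?_
  exact Real.log_nonpos (Zp_pos hK n _).le (Zp_const_le_one hK (by linarith) n)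

/-- smoothness at the annealed critical point for exponents smaller than one half -/
theorem annealed_smooth {K : ℕ → ℝ} (hK : KerP K) (μ : Measure ℝ) [IsProbabilityMeasure μ]
    (hμ : ExpMom μ) (β : ℝ) {a c : ℝ} (ha : 0 < a) (hc : 0 < c)
    (hlo : ∀ k : ℕ, 1 ≤ k → c * (k : ℝ) ^ (-(1 + a)) ≤ K k) :
    ∃ C : ℝ, 0 ≤ C ∧ ∀ δ : ℝ, 0 ≤ δ → δ ≤ 1 → ∀ n : ℕ,
      LP K μ β (lmg μ β - δ) n ≤ n * (C * δ ^ (1 / a)) := by
  obtain ⟨c1, hc1, hsm⟩ := AN.tilt_small hK ha hc hlo
  refine ⟨(1 / c1) ^ (1 / a), by positivity, ?_⟩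
  intro δ hδ0 hδ1 n
  rcases hδ0.eq_or_lt with hδ | hδ
  · rw [← hδ, sub_zero]
    refine (LP_nonpos hK μ hμ le_rfl n).trans ?_
    positivity
  set f : ℝ := (1 / c1) ^ (1 / a) * δ ^ (1 / a) with hf
  have hf0 : 0 < f := by positivity
  have hfa : c1 * f ^ a = δ := by
    rw [hf, ← Real.mul_rpow (by positivity) hδ0, ← Real.rpow_mul (by positivity),
      one_div_mul_cancel ha.ne', Real.rpow_one]
    field_simp
  have hkey : ∀ n : ℕ,
      Real.exp δ * ∑ k ∈ range n, K (k + 1) * Real.exp (-(f * (k + 1))) ≤ 1 := by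
    intro n
    rcases le_or_gt f 1 with h | h
    · have h1 := hsm f hf0 h n
      rw [hfa] at h1
      have h2 : 1 - δ ≤ Real.exp (-δ) := by
        have := Real.add_one_le_exp (-δ)
        linarith
      calc Real.exp δ * ∑ k ∈ range n, K (k + 1) * Real.exp (-(f * (k + 1)))
          ≤ Real.exp δ * Real.exp (-δ) :=
            mul_le_mul_of_nonneg_left (h1.trans h2) (Real.exp_pos _).le
        _ = 1 := by rw [← Real.exp_add, add_neg_cancel, Real.exp_zero]
    · exact AN.tilt_large hK hf0.le (by linarith) n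
  refine (AN.LP_le_log hK μ hμ β (lmg μ β - δ) n).trans ?_
  rw [sub_sub_cancel]
  have h3 := Real.log_le_log (Zp_pos hK n _) (AN.Zp_le_exp hK hkey n)
  rw [Real.log_exp] at h3
  linarith

end

end Pool.Agent.OTP
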